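import Pool.Agent.Lib_MP_ff3433_gt.Example

/-!
# Angle sums of the symmetric packings
-/

namespace Pool.Agent.BranchedPacking.Ex

open Pool.Agent.BranchedPacking Real InnerProductGeometry

/-- A sum over the faces at a vertex, from an enumeration of these faces. -/
lemma sum_enum {v : Fin 14} (inst : ∀ p : Fin 14 × Fin 14, Decidable (K v p.1 p.2)) {n : ℕ}
    (g : Fin n → Fin 14 × Fin 14) (hinj : Function.Injective g)
    (hg : ∀ p : Fin 14 × Fin 14, K v p.1 p.2 ↔ ∃ i, g i = p) (f : Fin 14 → Fin 14 → ℝ) :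
    (∑ p : Fin 14 × Fin 14, @ite ℝ (K v p.1 p.2) (inst p) (f p.1 p.2) 0) =
      ∑ i, f (g i).1 (g i).2 := by
  classical
  have h1 : ∀ p : Fin 14 × Fin 14, @ite ℝ (K v p.1 p.2) (inst p) (f p.1 p.2) 0 =
      if p ∈ Finset.univ.image g then f p.1 p.2 else 0 := by
    intro p
    by_cases h : K v p.1 p.2
    · rw [if_pos h, if_pos]
      obtain ⟨i, hi⟩ := (hg p).1 h
      exact Finset.mem_image.2 ⟨i, Finset.mem_univ _, hi⟩
    · rw [if_neg h, if_neg]
      intro h2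
      obtain ⟨i, _, hi⟩ := Finset.mem_image.1 h2
      exact h ((hg p).2 ⟨i, hi⟩)
  rw [Finset.sum_congr rfl (fun p _ => h1 p), ← Finset.sum_filter, Finset.filter_mem_eq_inter,
    Finset.univ_inter, Finset.sum_image (fun i _ j _ h => hinj h)]

lemma sum_eq (M : MData K) (v : Fin 14) {n : ℕ} (g : Fin n → Fin 14 × Fin 14)
    (hinj : Function.Injective g) (hg : ∀ p : Fin 14 × Fin 14, K v p.1 p.2 ↔ ∃ i, g i = p) :
    M.sum v = ∑ i, M.ang v (g i).1 (g i).2 := by
  unfold MData.sum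
  exact sum_enum _ g hinj hg _

lemma Tvec_vec3 (a b c x y z : ℝ) : Tvec (vec3 a b c) (vec3 x y z) =
    vec3 ((a ^ 2 + b ^ 2 + c ^ 2) * x - (a * x + b * y + c * z) * a)
      ((a ^ 2 + b ^ 2 + c ^ 2) * y - (a * x + b * y + c * z) * b)
      ((a ^ 2 + b ^ 2 + c ^ 2) * z - (a * x + b * y + c * z) * c) := by
  rw [Tvec, norm_sq_vec3, inner_vec3, smul_vec3, smul_vec3, sub_vec3]

lemma vec3_congr {a b c x y z : ℝ} (h1 : a = x) (h2 : b = y) (h3 : c = z) :
    vec3 a b c = vec3 x y z := by rw [h1, h2, h3]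

lemma vec3_ne {a b c : ℝ} (h : a ≠ 0 ∨ b ≠ 0 ∨ c ≠ 0) : vec3 a b c ≠ 0 := by
  intro h0
  have h1 : vec3 a b c 0 = 0 := by rw [h0]; rfl
  have h2 : vec3 a b c 1 = 0 := by rw [h0]; rfl
  have h3 : vec3 a b c 2 = 0 := by rw [h0]; rfl
  simp only [vec3_zero, vec3_one, vec3_two] at h1 h2 h3
  rcases h with h | h | h
  · exact h h1
  · exact h h2
  · exact h h3

/-- direction at a pole -/
lemma Tvec_pole (c x y z : ℝ) :
    Tvec (vec3 0 0 c) (vec3 x y z) = c ^ 2 • vec3 x y 0 := by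
  rw [Tvec_vec3, smul_vec3]
  apply vec3_congr <;> ring

/-- direction at a point of the real chain -/
lemma Tvec_real (a c x z : ℝ) :
    Tvec (vec3 a 0 c) (vec3 x 0 z) = (a * z - c * x) • vec3 (-c) 0 a := by
  rw [Tvec_vec3, smul_vec3]
  apply vec3_congr <;> ring

/-- direction at a point of the middle chain -/
lemma Tvec_mid (b c y z : ℝ) :
    Tvec (vec3 0 b c) (vec3 0 y z) = (b * z - c * y) • vec3 0 (-c) b := by
  rw [Tvec_vec3, smul_vec3]
  apply vec3_congr <;> ring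

/-- two faces with opposite outer directions -/
lemma angle_opp {E : Type*} [NormedAddCommGroup E] [InnerProductSpace ℝ E] {d f : E} {s t : ℝ}
    (hs : s < 0) (ht : 0 < t) : angle (s • d) f + angle f (t • d) = π := by
  have := angle_opposite' (d := d) (f := f) (neg_pos.2 hs) ht
  rwa [neg_smul, neg_neg] at this

/-- two faces with opposite outer directions -/
lemma angle_opp' {E : Type*} [NormedAddCommGroup E] [InnerProductSpace ℝ E] {d f : E} {s t : ℝ}
    (hs : 0 < s) (ht : t < 0) : angle (s • d) f + angle f (t • d) = π := by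
  have := angle_opposite (d := d) (f := f) hs (neg_pos.2 ht)
  rwa [neg_smul, neg_neg] at this

/-- quarter turn at a pole -/
lemma pole_quarter {c ξ η P R : ℝ} (hc : c ≠ 0) (hξ : ξ ≠ 0) (hη : η ≠ 0) (z z' z'' : ℝ)
    {s t : ℝ} (hs : 0 < s) (ht : 0 < t) (hP : P = s * ξ) (hR : R = t * η) :
    angle (Tvec (vec3 0 0 c) (vec3 P 0 z)) (Tvec (vec3 0 0 c) (vec3 ξ η z')) +
      angle (Tvec (vec3 0 0 c) (vec3 ξ η z')) (Tvec (vec3 0 0 c) (vec3 0 R z'')) = π / 2 := by
  have hc2 : 0 < c ^ 2 := by positivity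
  rw [Tvec_pole, Tvec_pole, Tvec_pole, angle_smul_left_of_pos _ _ hc2,
    angle_smul_right_of_pos _ _ hc2, angle_smul_left_of_pos _ _ hc2,
    angle_smul_right_of_pos _ _ hc2]
  have h1 : vec3 P 0 0 = s • vec3 ξ 0 0 := by
    rw [smul_vec3]; apply vec3_congr <;> simp [hP]
  have h2 : vec3 0 R 0 = t • vec3 0 η 0 := by
    rw [smul_vec3]; apply vec3_congr <;> simp [hR]
  have h3 : vec3 ξ η 0 = vec3 ξ 0 0 + vec3 0 η 0 := by
    rw [add_vec3]; apply vec3_congr <;> simp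
  rw [h1, h2, h3, angle_smul_left_of_pos _ _ hs, angle_smul_right_of_pos _ _ ht]
  apply angle_quarter
  · rw [inner_vec3]; ring
  · exact vec3_ne (Or.inl hξ)
  · exact vec3_ne (Or.inr (Or.inl hη))

/-- The isometry used at a branch vertex `(a, b, 0)`, `n² = a² + b²`. -/
noncomputable def Lmap (a b n : ℝ) (hn : 0 < n) (h : n ^ 2 = a ^ 2 + b ^ 2) : ℂ →ₗᵢ[ℝ] E3 where
  toFun z := vec3 (-(z.re * b / n)) (z.re * a / n) z.im
  map_add' u v := by
    rw [add_vec3]; apply vec3_congr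
    · rw [Complex.add_re]; ring
    · rw [Complex.add_re]; ring
    · rw [Complex.add_im]
  map_smul' c v := by
    rw [RingHom.id_apply, smul_vec3]; apply vec3_congr
    · rw [Complex.real_smul, Complex.re_ofReal_mul]; ring
    · rw [Complex.real_smul, Complex.re_ofReal_mul]; ring
    · rw [Complex.real_smul, Complex.im_ofReal_mul]
  norm_map' v := by
    have h1 : ‖vec3 (-(v.re * b / n)) (v.re * a / n) v.im‖ ^ 2 = ‖v‖ ^ 2 := by
      rw [norm_sq_vec3, Complex.sq_norm, Complex.normSq_apply]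
      field_simp
      linear_combination (-(v.re ^ 2)) * h
    exact (pow_left_inj₀ (norm_nonneg _) (norm_nonneg _) two_ne_zero).1 h1

/-- planar representative of the direction at the branch vertex `(a, b, 0)` -/
noncomputable def zet (a b n x y z : ℝ) : ℂ := ⟨a * y - b * x, n * z⟩

lemma Tvec_branch (a b n : ℝ) (hn : 0 < n) (h : n ^ 2 = a ^ 2 + b ^ 2) (x y z : ℝ) :
    Tvec (vec3 a b 0) (vec3 x y z) = n • Lmap a b n hn h (zet a b n x y z) := by
  have h1 : Lmap a b n hn h (zet a b n x y z) =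
      vec3 (-((a * y - b * x) * b / n)) ((a * y - b * x) * a / n) (n * z) := rfl
  rw [h1, Tvec_vec3, smul_vec3]
  apply vec3_congr
  · field_simp; ring
  · field_simp; ring
  · linear_combination (-z) * h

lemma angle_branch (a b n : ℝ) (hn : 0 < n) (h : n ^ 2 = a ^ 2 + b ^ 2) (x y z x' y' z' : ℝ) :
    angle (Tvec (vec3 a b 0) (vec3 x y z)) (Tvec (vec3 a b 0) (vec3 x' y' z')) =
      angle (zet a b n x y z) (zet a b n x' y' z') := by
  rw [Tvec_branch a b n hn h, Tvec_branch a b n hn h, angle_smul_left_of_pos _ _ hn,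
    angle_smul_right_of_pos _ _ hn, LinearIsometry.angle_map]

lemma zet_im (a b n x y z x' y' z' : ℝ) :
    ((starRingEnd ℂ) (zet a b n x y z) * zet a b n x' y' z').im =
      n * (a * (y * z' - z * y') - b * (x * z' - z * x') + 0 * (x * y' - y * x')) := by
  simp only [zet, Complex.mul_im, Complex.conj_re, Complex.conj_im]
  ring

namespace Nums

variable (N : Nums)

lemma P1_pos : 0 < N.P1 := (mul_pos_iff_of_pos_right N.m_pos).1 N.dC0
lemma R1_pos : 0 < N.R1 := (mul_pos_iff_of_pos_right N.m_pos).1 N.dB0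

/-- the vectors -/
lemma v0 : N.data.vec 0 = vec3 0 0 (-N.m) := rfl
lemma v1 : N.data.vec 1 = vec3 0 0 N.m := rfl
lemma v2 : N.data.vec 2 = vec3 N.P1 0 N.s1 := rfl
lemma v3 : N.data.vec 3 = vec3 N.P2 0 0 := rfl
lemma v4 : N.data.vec 4 = vec3 N.P1 0 (-N.s1) := rfl
lemma v5 : N.data.vec 5 = vec3 (-N.P1) 0 N.s1 := rfl
lemma v6 : N.data.vec 6 = vec3 (-N.P2) 0 0 := rfl
lemma v7 : N.data.vec 7 = vec3 (-N.P1) 0 (-N.s1) := rfl
lemma v8 : N.data.vec 8 = vec3 0 N.R1 N.u1 := rfl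
lemma v9 : N.data.vec 9 = vec3 0 N.R2 N.u2 := rfl
lemma v10 : N.data.vec 10 = vec3 0 N.R2 (-N.u2) := rfl
lemma v11 : N.data.vec 11 = vec3 0 N.R1 (-N.u1) := rfl
lemma v12 : N.data.vec 12 = vec3 N.ξ N.η 0 := rfl
lemma v13 : N.data.vec 13 = vec3 (-N.ξ) N.η 0 := rfl

lemma sum_0 : N.data.sum 0 = π := by
  rw [sum_eq N.data 0 ![(12, 2), (5, 13), (8, 12), (13, 8)] (by decide +kernel)
    (by decide +kernel), Fin.sum_univ_four]
  show N.data.ang 0 12 2 + N.data.ang 0 5 13 + N.data.ang 0 8 12 + N.data.ang 0 13 8 = π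
  rw [N.data.ang_comm 0 12 2, N.data.ang_comm 0 8 12]
  have hξ := N.ξ_pos
  have hη := N.η_pos
  have hm := N.m_pos
  have h1 : N.data.ang 0 2 12 + N.data.ang 0 12 8 = π / 2 :=
    pole_quarter (P := N.P1) (R := N.R1) (neg_ne_zero.2 hm.ne') hξ.ne' hη.ne' _ _ _
      (div_pos N.P1_pos hξ) (div_pos N.R1_pos hη) (by field_simp) (by field_simp)
  have h2 : N.data.ang 0 5 13 + N.data.ang 0 13 8 = π / 2 :=
    pole_quarter (P := -N.P1) (R := N.R1) (neg_ne_zero.2 hm.ne') (neg_ne_zero.2 hξ.ne') hη.ne' _ _ _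
      (div_pos N.P1_pos hξ) (div_pos N.R1_pos hη) (by field_simp) (by field_simp)
  linarith

lemma sum_1 : N.data.sum 1 = π := by
  rw [sum_eq N.data 1 ![(4, 12), (13, 7), (12, 11), (11, 13)] (by decide +kernel)
    (by decide +kernel), Fin.sum_univ_four]
  show N.data.ang 1 4 12 + N.data.ang 1 13 7 + N.data.ang 1 12 11 + N.data.ang 1 11 13 = π
  rw [N.data.ang_comm 1 13 7, N.data.ang_comm 1 11 13]
  have hξ := N.ξ_pos
  have hη := N.η_pos
  have hm := N.m_pos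
  have h1 : N.data.ang 1 4 12 + N.data.ang 1 12 11 = π / 2 :=
    pole_quarter (P := N.P1) (R := N.R1) hm.ne' hξ.ne' hη.ne' _ _ _
      (div_pos N.P1_pos hξ) (div_pos N.R1_pos hη) (by field_simp) (by field_simp)
  have h2 : N.data.ang 1 7 13 + N.data.ang 1 13 11 = π / 2 :=
    pole_quarter (P := -N.P1) (R := N.R1) hm.ne' (neg_ne_zero.2 hξ.ne') hη.ne' _ _ _
      (div_pos N.P1_pos hξ) (div_pos N.R1_pos hη) (by field_simp) (by field_simp)
  linarith

lemma sum_2 : N.data.sum 2 = π := by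
  rw [sum_eq N.data 2 ![(0, 12), (12, 3)] (by decide +kernel)
    (by decide +kernel), Fin.sum_univ_two]
  show N.data.ang 2 0 12 + N.data.ang 2 12 3 = π
  have hC0 := N.dC0
  have hC1 := N.dC1
  rw [MData.ang, MData.ang, v2, v0, v3, Tvec_real, Tvec_real]
  exact angle_opp (by linarith) (by linarith)

lemma sum_3 : N.data.sum 3 = π := by
  rw [sum_eq N.data 3 ![(2, 12), (12, 4)] (by decide +kernel)
    (by decide +kernel), Fin.sum_univ_two]
  show N.data.ang 3 2 12 + N.data.ang 3 12 4 = π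
  have hC0 := N.dC0
  have hC1 := N.dC1
  rw [MData.ang, MData.ang, v3, v2, v4, Tvec_real, Tvec_real]
  exact angle_opp (by linarith) (by linarith)

lemma sum_4 : N.data.sum 4 = π := by
  rw [sum_eq N.data 4 ![(3, 12), (12, 1)] (by decide +kernel)
    (by decide +kernel), Fin.sum_univ_two]
  show N.data.ang 4 3 12 + N.data.ang 4 12 1 = π
  have hC0 := N.dC0
  have hC1 := N.dC1
  rw [MData.ang, MData.ang, v4, v3, v1, Tvec_real, Tvec_real]
  exact angle_opp (by linarith) (by linarith)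

lemma sum_5 : N.data.sum 5 = π := by
  rw [sum_eq N.data 5 ![(13, 0), (6, 13)] (by decide +kernel)
    (by decide +kernel), Fin.sum_univ_two]
  show N.data.ang 5 13 0 + N.data.ang 5 6 13 = π
  rw [N.data.ang_comm 5 13 0, N.data.ang_comm 5 6 13]
  have hC0 := N.dC0
  have hC1 := N.dC1
  rw [MData.ang, MData.ang, v5, v0, v6, Tvec_real, Tvec_real]
  exact angle_opp' (by linarith) (by linarith)

lemma sum_6 : N.data.sum 6 = π := by
  rw [sum_eq N.data 6 ![(13, 5), (7, 13)] (by decide +kernel)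
    (by decide +kernel), Fin.sum_univ_two]
  show N.data.ang 6 13 5 + N.data.ang 6 7 13 = π
  rw [N.data.ang_comm 6 13 5, N.data.ang_comm 6 7 13]
  have hC0 := N.dC0
  have hC1 := N.dC1
  rw [MData.ang, MData.ang, v6, v5, v7, Tvec_real, Tvec_real]
  exact angle_opp' (by linarith) (by linarith)

lemma sum_7 : N.data.sum 7 = π := by
  rw [sum_eq N.data 7 ![(13, 6), (1, 13)] (by decide +kernel)
    (by decide +kernel), Fin.sum_univ_two]
  show N.data.ang 7 13 6 + N.data.ang 7 1 13 = π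
  rw [N.data.ang_comm 7 13 6, N.data.ang_comm 7 1 13]
  have hC0 := N.dC0
  have hC1 := N.dC1
  rw [MData.ang, MData.ang, v7, v6, v1, Tvec_real, Tvec_real]
  exact angle_opp' (by linarith) (by linarith)

lemma sum_8 : N.data.sum 8 = 2 * π := by
  rw [sum_eq N.data 8 ![(12, 0), (0, 13), (9, 12), (13, 9)] (by decide +kernel)
    (by decide +kernel), Fin.sum_univ_four]
  show N.data.ang 8 12 0 + N.data.ang 8 0 13 + N.data.ang 8 9 12 + N.data.ang 8 13 9 =
    2 * π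
  have hB0 := N.dB0
  have hB1 := N.dB1
  have hB2 := N.dB2
  rw [N.data.ang_comm 8 12 0, N.data.ang_comm 8 9 12]
  have h1 : N.data.ang 8 0 12 + N.data.ang 8 12 9 = π := by
    rw [MData.ang, MData.ang, v8, v0, v9, Tvec_mid, Tvec_mid]
    exact angle_opp (by linarith) (by linarith)
  have h2 : N.data.ang 8 0 13 + N.data.ang 8 13 9 = π := by
    rw [MData.ang, MData.ang, v8, v0, v9, Tvec_mid, Tvec_mid]
    exact angle_opp (by linarith) (by linarith)
  linarith

lemma sum_9 : N.data.sum 9 = 2 * π := by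
  rw [sum_eq N.data 9 ![(12, 8), (8, 13), (10, 12), (13, 10)] (by decide +kernel)
    (by decide +kernel), Fin.sum_univ_four]
  show N.data.ang 9 12 8 + N.data.ang 9 8 13 + N.data.ang 9 10 12 + N.data.ang 9 13 10 =
    2 * π
  have hB0 := N.dB0
  have hB1 := N.dB1
  have hB2 := N.dB2
  rw [N.data.ang_comm 9 12 8, N.data.ang_comm 9 10 12]
  have h1 : N.data.ang 9 8 12 + N.data.ang 9 12 10 = π := by
    rw [MData.ang, MData.ang, v9, v8, v10, Tvec_mid, Tvec_mid]
    exact angle_opp (by linarith) (by linarith)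
  have h2 : N.data.ang 9 8 13 + N.data.ang 9 13 10 = π := by
    rw [MData.ang, MData.ang, v9, v8, v10, Tvec_mid, Tvec_mid]
    exact angle_opp (by linarith) (by linarith)
  linarith

lemma sum_10 : N.data.sum 10 = 2 * π := by
  rw [sum_eq N.data 10 ![(12, 9), (9, 13), (11, 12), (13, 11)] (by decide +kernel)
    (by decide +kernel), Fin.sum_univ_four]
  show N.data.ang 10 12 9 + N.data.ang 10 9 13 + N.data.ang 10 11 12 + N.data.ang 10 13 11 =
    2 * π
  have hB0 := N.dB0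
  have hB1 := N.dB1
  have hB2 := N.dB2
  rw [N.data.ang_comm 10 12 9, N.data.ang_comm 10 11 12]
  have h1 : N.data.ang 10 9 12 + N.data.ang 10 12 11 = π := by
    rw [MData.ang, MData.ang, v10, v9, v11, Tvec_mid, Tvec_mid]
    exact angle_opp (by linarith) (by linarith)
  have h2 : N.data.ang 10 9 13 + N.data.ang 10 13 11 = π := by
    rw [MData.ang, MData.ang, v10, v9, v11, Tvec_mid, Tvec_mid]
    exact angle_opp (by linarith) (by linarith)
  linarith

lemma sum_11 : N.data.sum 11 = 2 * π := by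
  rw [sum_eq N.data 11 ![(12, 10), (10, 13), (1, 12), (13, 1)] (by decide +kernel)
    (by decide +kernel), Fin.sum_univ_four]
  show N.data.ang 11 12 10 + N.data.ang 11 10 13 + N.data.ang 11 1 12 + N.data.ang 11 13 1 =
    2 * π
  have hB0 := N.dB0
  have hB1 := N.dB1
  have hB2 := N.dB2
  rw [N.data.ang_comm 11 12 10, N.data.ang_comm 11 1 12]
  have h1 : N.data.ang 11 10 12 + N.data.ang 11 12 1 = π := by
    rw [MData.ang, MData.ang, v11, v10, v1, Tvec_mid, Tvec_mid]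
    exact angle_opp (by linarith) (by linarith)
  have h2 : N.data.ang 11 10 13 + N.data.ang 11 13 1 = π := by
    rw [MData.ang, MData.ang, v11, v10, v1, Tvec_mid, Tvec_mid]
    exact angle_opp (by linarith) (by linarith)
  linarith

/-- The number `|(ξ, η)|`. -/
noncomputable def nf' : ℝ := √(N.ξ ^ 2 + N.η ^ 2)

lemma nf'_pos : 0 < N.nf' := Real.sqrt_pos.2 (by have := N.ξ_pos; have := N.η_pos; positivity)

lemma nf'_sq : N.nf' ^ 2 = N.ξ ^ 2 + N.η ^ 2 := Real.sq_sqrt (by positivity)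

lemma nf'_sq' : N.nf' ^ 2 = (-N.ξ) ^ 2 + N.η ^ 2 := by rw [N.nf'_sq]; ring

/-- planar directions at `12` -/
noncomputable def z12 (i : Fin 9) : ℂ :=
  zet N.ξ N.η N.nf' (N.cx (nbr12 i)) (N.cy (nbr12 i)) (N.cz (nbr12 i))

/-- planar directions at `13` -/
noncomputable def z13 (i : Fin 9) : ℂ :=
  zet (-N.ξ) N.η N.nf' (N.cx (nbr13 i)) (N.cy (nbr13 i)) (N.cz (nbr13 i))

lemma K12 : ∀ i : Fin 9, K 12 (nbr12 i) (nbr12 (i + 1)) := by decide +kernel
lemma K13 : ∀ i : Fin 9, K 13 (nbr13 i) (nbr13 (i + 1)) := by decide +kernel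

/-- the sign patterns of the two modes -/
def Mode : Prop := (0 < N.s1 ∧ N.u1 < 0 ∧ N.u2 < 0) ∨ (N.s1 < 0 ∧ 0 < N.u1 ∧ 0 < N.u2)

lemma wraps_ite {n : ℝ} (hn : 0 < n) (a b : ℝ) :
    (if 0 ≤ n * a ∧ n * b < 0 then (1 : ℝ) else 0) = if 0 ≤ a ∧ b < 0 then (1 : ℝ) else 0 := by
  have h1 : 0 ≤ n * a ↔ 0 ≤ a := mul_nonneg_iff_of_pos_left hn
  have h2 : n * b < 0 ↔ b < 0 := by
    constructor
    · intro h
      by_contra hcon
      push Not at hcon
      nlinarith
    · intro h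
      nlinarith
  exact if_congr (and_congr h1 h2) rfl rfl

lemma wraps12 (hM : N.Mode) : (∑ i : Fin 9,
    (if 0 ≤ (N.z12 i).im ∧ (N.z12 (i + 1)).im < 0 then (1 : ℝ) else 0)) = 2 := by
  have hm := N.m_pos
  have e : ∀ i : Fin 9, (if 0 ≤ (N.z12 i).im ∧ (N.z12 (i + 1)).im < 0 then (1 : ℝ) else 0) =
      if 0 ≤ N.cz (nbr12 i) ∧ N.cz (nbr12 (i + 1)) < 0 then (1 : ℝ) else 0 :=
    fun i => wraps_ite N.nf'_pos _ _
  rw [Finset.sum_congr rfl (fun i _ => e i)]
  have hf : ∀ f : Fin 9 → ℝ, ∑ i, f i = f 0 + f 1 + f 2 + f 3 + f 4 + f 5 + f 6 + f 7 + f 8 := by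
    intro f; simp [Fin.sum_univ_succ]; ring
  rw [hf]
  show (if 0 ≤ -N.m ∧ N.u1 < 0 then (1 : ℝ) else 0) + (if 0 ≤ N.u1 ∧ N.u2 < 0 then (1 : ℝ) else 0) +
    (if 0 ≤ N.u2 ∧ -N.u2 < 0 then (1 : ℝ) else 0) + (if 0 ≤ -N.u2 ∧ -N.u1 < 0 then (1 : ℝ) else 0) +
    (if 0 ≤ -N.u1 ∧ N.m < 0 then (1 : ℝ) else 0) + (if 0 ≤ N.m ∧ -N.s1 < 0 then (1 : ℝ) else 0) +
    (if 0 ≤ -N.s1 ∧ (0 : ℝ) < 0 then (1 : ℝ) else 0) +
    (if 0 ≤ (0 : ℝ) ∧ N.s1 < 0 then (1 : ℝ) else 0) +
    (if 0 ≤ N.s1 ∧ -N.m < 0 then (1 : ℝ) else 0) = 2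
  rcases hM with ⟨h1, h2, h3⟩ | ⟨h1, h2, h3⟩
  · rw [if_neg (by intro h; linarith [h.1]), if_neg (by intro h; linarith [h.1]),
      if_neg (by intro h; linarith [h.1]), if_neg (by intro h; linarith [h.2]),
      if_neg (by intro h; linarith [h.2]), if_pos ⟨hm.le, by linarith⟩,
      if_neg (by intro h; linarith [h.1]), if_neg (by intro h; linarith [h.2]),
      if_pos ⟨h1.le, by linarith⟩]
    norm_num
  · rw [if_neg (by intro h; linarith [h.1]), if_neg (by intro h; linarith [h.2]),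
      if_pos ⟨h3.le, by linarith⟩, if_neg (by intro h; linarith [h.1]),
      if_neg (by intro h; linarith [h.2]), if_neg (by intro h; linarith [h.2]),
      if_neg (by intro h; linarith [h.2]), if_pos ⟨le_refl _, h1⟩,
      if_neg (by intro h; linarith [h.1])]
    norm_num

lemma wraps13 (hM : N.Mode) : (∑ i : Fin 9,
    (if 0 ≤ (N.z13 i).im ∧ (N.z13 (i + 1)).im < 0 then (1 : ℝ) else 0)) = 2 := by
  have hm := N.m_pos
  have e : ∀ i : Fin 9, (if 0 ≤ (N.z13 i).im ∧ (N.z13 (i + 1)).im < 0 then (1 : ℝ) else 0) =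
      if 0 ≤ N.cz (nbr13 i) ∧ N.cz (nbr13 (i + 1)) < 0 then (1 : ℝ) else 0 :=
    fun i => wraps_ite N.nf'_pos _ _
  rw [Finset.sum_congr rfl (fun i _ => e i)]
  have hf : ∀ f : Fin 9 → ℝ, ∑ i, f i = f 0 + f 1 + f 2 + f 3 + f 4 + f 5 + f 6 + f 7 + f 8 := by
    intro f; simp [Fin.sum_univ_succ]; ring
  rw [hf]
  show (if 0 ≤ -N.m ∧ N.s1 < 0 then (1 : ℝ) else 0) +
    (if 0 ≤ N.s1 ∧ (0 : ℝ) < 0 then (1 : ℝ) else 0) +
    (if 0 ≤ (0 : ℝ) ∧ -N.s1 < 0 then (1 : ℝ) else 0) +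
    (if 0 ≤ -N.s1 ∧ N.m < 0 then (1 : ℝ) else 0) +
    (if 0 ≤ N.m ∧ -N.u1 < 0 then (1 : ℝ) else 0) + (if 0 ≤ -N.u1 ∧ -N.u2 < 0 then (1 : ℝ) else 0) +
    (if 0 ≤ -N.u2 ∧ N.u2 < 0 then (1 : ℝ) else 0) +
    (if 0 ≤ N.u2 ∧ N.u1 < 0 then (1 : ℝ) else 0) +
    (if 0 ≤ N.u1 ∧ -N.m < 0 then (1 : ℝ) else 0) = 2
  rcases hM with ⟨h1, h2, h3⟩ | ⟨h1, h2, h3⟩
  · rw [if_neg (by intro h; linarith [h.1]), if_neg (by intro h; linarith [h.2]),
      if_pos ⟨le_refl _, by linarith⟩, if_neg (by intro h; linarith [h.1]),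
      if_neg (by intro h; linarith [h.2]), if_neg (by intro h; linarith [h.2]),
      if_pos ⟨by linarith, h3⟩, if_neg (by intro h; linarith [h.1]),
      if_neg (by intro h; linarith [h.1])]
    norm_num
  · rw [if_neg (by intro h; linarith [h.1]), if_neg (by intro h; linarith [h.1]),
      if_neg (by intro h; linarith [h.2]), if_neg (by intro h; linarith [h.2]),
      if_pos ⟨hm.le, by linarith⟩, if_neg (by intro h; linarith [h.1]),
      if_neg (by intro h; linarith [h.1]), if_neg (by intro h; linarith [h.2]),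
      if_pos ⟨h2.le, by linarith⟩]
    norm_num

lemma sum_12 (hM : N.Mode) : N.data.sum 12 = 4 * π := by
  rw [sum_eq N.data 12 (fun i : Fin 9 => (nbr12 i, nbr12 (i + 1))) (by decide +kernel)
    (by decide +kernel)]
  have h1 : ∀ i : Fin 9, N.data.ang 12 (nbr12 i) (nbr12 (i + 1)) =
      angle (N.z12 i) (N.z12 (i + 1)) := by
    intro i
    exact angle_branch N.ξ N.η N.nf' N.nf'_pos N.nf'_sq _ _ _ _ _ _
  rw [Finset.sum_congr rfl (fun i _ => h1 i)]
  refine turning_nine N.z12 ?_ (N.wraps12 hM)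
  intro i
  rw [z12, z12, zet_im]
  exact mul_pos N.nf'_pos (N.data.det _ _ _ (K12 i))

lemma sum_13 (hM : N.Mode) : N.data.sum 13 = 4 * π := by
  rw [sum_eq N.data 13 (fun i : Fin 9 => (nbr13 i, nbr13 (i + 1))) (by decide +kernel)
    (by decide +kernel)]
  have h1 : ∀ i : Fin 9, N.data.ang 13 (nbr13 i) (nbr13 (i + 1)) =
      angle (N.z13 i) (N.z13 (i + 1)) := by
    intro i
    exact angle_branch (-N.ξ) N.η N.nf' N.nf'_pos N.nf'_sq' _ _ _ _ _ _
  rw [Finset.sum_congr rfl (fun i _ => h1 i)]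
  refine turning_nine N.z13 ?_ (N.wraps13 hM)
  intro i
  rw [z13, z13, zet_im]
  exact mul_pos N.nf'_pos (N.data.det _ _ _ (K13 i))

/-- the packing of the double -/
noncomputable def pack : SpherePacking (double K) := N.data.packing surface_K

lemma sum_bdry {v : Fin 14} (h : v.val < 8) : N.data.sum v = π ∧ mult v = 0 := by
  have : ∀ v : Fin 14, v.val < 8 → v = 0 ∨ v = 1 ∨ v = 2 ∨ v = 3 ∨ v = 4 ∨ v = 5 ∨ v = 6 ∨
    v = 7 := by decide
  rcases this v h with rfl | rfl | rfl | rfl | rfl | rfl | rfl | rfl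
  · exact ⟨N.sum_0, rfl⟩
  · exact ⟨N.sum_1, rfl⟩
  · exact ⟨N.sum_2, rfl⟩
  · exact ⟨N.sum_3, rfl⟩
  · exact ⟨N.sum_4, rfl⟩
  · exact ⟨N.sum_5, rfl⟩
  · exact ⟨N.sum_6, rfl⟩
  · exact ⟨N.sum_7, rfl⟩

lemma sum_int (hM : N.Mode) {v : Fin 14} (h : ¬ v.val < 8) :
    N.data.sum v = 2 * π * (1 + (mult v : ℝ)) := by
  have : ∀ v : Fin 14, ¬ v.val < 8 → v = 8 ∨ v = 9 ∨ v = 10 ∨ v = 11 ∨ v = 12 ∨ v = 13 := by
    decide
  have m0 : ((0 : ℕ) : ℝ) = 0 := Nat.cast_zero
  have m1 : ((1 : ℕ) : ℝ) = 1 := Nat.cast_one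
  rcases this v h with rfl | rfl | rfl | rfl | rfl | rfl
  · rw [N.sum_8, show mult 8 = 0 from rfl, m0]; ring
  · rw [N.sum_9, show mult 9 = 0 from rfl, m0]; ring
  · rw [N.sum_10, show mult 10 = 0 from rfl, m0]; ring
  · rw [N.sum_11, show mult 11 = 0 from rfl, m0]; ring
  · rw [N.sum_12 hM, show mult 12 = 1 from rfl, m1]; ring
  · rw [N.sum_13 hM, show mult 13 = 1 from rfl, m1]; ring

lemma hasBranchSet [Fintype (DoubleVertex K)] (hM : N.Mode) :
    N.pack.HasBranchSet (fun t => mult (under t)) := by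
  intro t
  rw [pack, MData.angleSum_eq]
  rcases t with v | ⟨v, hv⟩
  · rw [if_pos (show InTop (face := K) (Sum.inl v) from trivial)]
    show N.data.sum v + _ = 2 * π * (1 + (mult v : ℝ))
    by_cases hb : IsBoundary K v
    · rw [if_pos (show InBot (face := K) (Sum.inl v) from hb)]
      show N.data.sum v + N.data.sum v = 2 * π * (1 + (mult v : ℝ))
      obtain ⟨h1, h2⟩ := N.sum_bdry ((isBoundary_iff v).1 hb)
      rw [h1, h2, Nat.cast_zero]; ring
    · rw [if_neg (show ¬ InBot (face := K) (Sum.inl v) from hb), add_zero]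
      exact N.sum_int hM fun h => hb ((isBoundary_iff v).2 h)
  · rw [if_neg (show ¬ InTop (face := K) (Sum.inr ⟨v, hv⟩) from id),
      if_pos (show InBot (face := K) (Sum.inr ⟨v, hv⟩) from trivial), zero_add]
    exact N.sum_int hM fun h => hv ((isBoundary_iff v).2 h)

end Nums

end Pool.Agent.BranchedPacking.Ex
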