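import Mathlib

/-!
# Algebra of the chains

Parameters `X, Y ∈ (0,1)` and `τ > 0` with `τ² = X² + Y² - X² Y²`.  An element of the chain with
parameter `(c, s)`, `c² + s² (1 - Y²) = 1`, has coordinates
`P = (Y² + τ c) / (X (1 - Y²))`, `s` and `q = Y (c + τ) / (X (1 - Y²))`.
-/

namespace Pool.Agent.BranchedPacking

/-- The parameters. -/
structure Par where
  X : ℝ
  Y : ℝ
  τ : ℝ
  X_pos : 0 < X
  X_lt : X < 1
  Y_pos : 0 < Y
  Y_lt : Y < 1
  τ_pos : 0 < τ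
  rel : τ ^ 2 = X ^ 2 + Y ^ 2 - X ^ 2 * Y ^ 2

namespace Par

/-- exchange of `X` and `Y` -/
def swap (p : Par) : Par where
  X := p.Y
  Y := p.X
  τ := p.τ
  X_pos := p.Y_pos
  X_lt := p.Y_lt
  Y_pos := p.X_pos
  Y_lt := p.X_lt
  τ_pos := p.τ_pos
  rel := by rw [p.rel]; ring

variable (p : Par)

lemma A_pos : 0 < 1 - p.Y ^ 2 := by
  have := p.Y_pos; have := p.Y_lt; nlinarith

lemma Y_lt_τ : p.Y < p.τ := by
  have h1 := p.A_pos
  have h2 := p.X_pos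
  have h3 := p.rel
  have h4 : p.Y ^ 2 < p.τ ^ 2 := by
    rw [h3]; nlinarith [mul_pos (pow_pos h2 2) h1]
  exact lt_of_pow_lt_pow_left₀ 2 p.τ_pos.le h4

/-- first coordinate of a chain element -/
noncomputable def P (c : ℝ) : ℝ := (p.Y ^ 2 + p.τ * c) / (p.X * (1 - p.Y ^ 2))

/-- last coordinate of a chain element -/
noncomputable def q (c : ℝ) : ℝ := p.Y * (c + p.τ) / (p.X * (1 - p.Y ^ 2))

lemma P_neg_add (c : ℝ) : p.P c / p.X + 1 = p.τ / (p.X * p.Y) * p.q c := by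
  have h1 := p.A_pos.ne'
  have h2 := p.X_pos.ne'
  have h3 := p.Y_pos.ne'
  rw [P, q]
  field_simp
  have := p.rel
  linear_combination (-1 : ℝ) * this

/-- general inner product of two chain elements -/
lemma inner_formula (c s c' s' : ℝ) : p.P c * p.P c' + s * s' - p.q c * p.q c' =
    (c * c' - p.Y ^ 2) / (1 - p.Y ^ 2) + s * s' := by
  have h1 := p.A_pos.ne'
  have h2 := p.X_pos.ne'
  have h3 := p.Y_pos.ne'
  have h4 : p.τ ^ 2 - p.Y ^ 2 = p.X ^ 2 * (1 - p.Y ^ 2) := by rw [p.rel]; ring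
  have h5 : p.P c * p.P c' - p.q c * p.q c' =
      (p.τ ^ 2 - p.Y ^ 2) * (c * c' - p.Y ^ 2) / (p.X * (1 - p.Y ^ 2)) ^ 2 := by
    rw [P, P, q, q]; field_simp; ring
  rw [h4] at h5
  have h6 : p.X ^ 2 * (1 - p.Y ^ 2) * (c * c' - p.Y ^ 2) / (p.X * (1 - p.Y ^ 2)) ^ 2 =
      (c * c' - p.Y ^ 2) / (1 - p.Y ^ 2) := by field_simp
  linarith [h5.trans h6]

/-- `(c, s)` is a point of the ellipse. -/
def OnChain (c s : ℝ) : Prop := c ^ 2 + s ^ 2 * (1 - p.Y ^ 2) = 1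

/-- consecutive points of the chain -/
structure Step (c s c' s' : ℝ) : Prop where
  on : p.OnChain c s
  on' : p.OnChain c' s'
  dot : c * c' + s * s' * (1 - p.Y ^ 2) = 2 * p.Y ^ 2 - 1
  cross : c * s' - c' * s = 2 * p.Y

lemma norm_formula {c s : ℝ} (h : p.OnChain c s) : p.P c ^ 2 + s ^ 2 = 1 + p.q c ^ 2 := by
  have h1 := p.inner_formula c s c s
  have h2 := p.A_pos.ne'
  have h3 : (c * c - p.Y ^ 2) / (1 - p.Y ^ 2) + s * s = 1 := by
    field_simp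
    rw [OnChain] at h
    linarith
  rw [h3] at h1
  nlinarith

variable {p} {c s c' s' : ℝ}

lemma Step.tangent (h : p.Step c s c' s') :
    p.P c * p.P c' + s * s' - p.q c * p.q c' = -1 := by
  rw [p.inner_formula]
  have h2 := p.A_pos.ne'
  have h3 := h.dot
  field_simp
  linarith

lemma Step.abs_sub (h : p.Step c s c' s') : (s' - s) ^ 2 ≤ 2 ^ 2 := by
  have h1 := h.on
  have h2 := h.on'
  have h3 := h.dot
  have hA := p.A_pos
  rw [OnChain] at h1 h2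
  have h4 : (c - c') ^ 2 + (s' - s) ^ 2 * (1 - p.Y ^ 2) = 4 * (1 - p.Y ^ 2) := by
    linear_combination h1 + h2 - 2 * h3
  have h5 : (s' - s) ^ 2 * (1 - p.Y ^ 2) ≤ 4 * (1 - p.Y ^ 2) := by
    nlinarith [sq_nonneg (c - c')]
  have h6 := le_of_mul_le_mul_right h5 hA
  linarith

lemma Step.abs_add (h : p.Step c s c' s') : (c + c') ^ 2 ≤ (2 * p.Y) ^ 2 := by
  have h1 := h.on
  have h2 := h.on'
  have h3 := h.dot
  have hA := p.A_pos
  rw [OnChain] at h1 h2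
  have h4 : (c + c') ^ 2 + (s + s') ^ 2 * (1 - p.Y ^ 2) = (2 * p.Y) ^ 2 := by
    linear_combination h1 + h2 + 2 * h3
  nlinarith [mul_nonneg (sq_nonneg (s + s')) hA.le]

lemma Step.q_pos (h : p.Step c s c' s') : 0 < p.q c + p.q c' := by
  have h1 := abs_le_of_sq_le_sq' h.abs_add (by have := p.Y_pos; linarith)
  have h2 := p.Y_lt_τ
  have h3 : p.q c + p.q c' = p.Y * ((c + c') + 2 * p.τ) / (p.X * (1 - p.Y ^ 2)) := by
    rw [q, q]; ring
  rw [h3]
  apply div_pos (mul_pos p.Y_pos (by linarith [h1.1])) (mul_pos p.X_pos p.A_pos)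

lemma Step.det_pos (h : p.Step c s c' s') : 0 < p.P c * s' - p.P c' * s := by
  have h1 := abs_le_of_sq_le_sq' h.abs_sub (by norm_num)
  have h2 := p.Y_lt_τ
  have hY := p.Y_pos
  have h3 : p.P c * s' - p.P c' * s =
      (p.Y ^ 2 * (s' - s) + p.τ * (c * s' - c' * s)) / (p.X * (1 - p.Y ^ 2)) := by
    rw [P, P]; ring
  rw [h3, h.cross]
  apply div_pos _ (mul_pos p.X_pos p.A_pos)
  nlinarith [mul_pos hY (sub_pos.2 h2), mul_pos hY hY, h1.1]

lemma q_add_pos (h : p.OnChain c s) : 0 < p.τ / (p.X * p.Y) + p.q c := by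
  have hA := p.A_pos
  have hX := p.X_pos
  have hY := p.Y_pos
  have hY1 := p.Y_lt
  have h2 := p.Y_lt_τ
  rw [OnChain] at h
  have h1 : c ^ 2 ≤ 1 ^ 2 := by nlinarith [mul_nonneg (sq_nonneg s) hA.le]
  have h3 := abs_le_of_sq_le_sq' h1 (by norm_num)
  have h4 : p.τ / (p.X * p.Y) + p.q c =
      (p.τ * (1 - p.Y ^ 2) + p.Y ^ 2 * (c + p.τ)) / (p.X * p.Y * (1 - p.Y ^ 2)) := by
    rw [q]; field_simp
  rw [h4]
  apply div_pos _ (mul_pos (mul_pos hX hY) hA)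
  nlinarith [mul_pos hY hY, h3.1, mul_nonneg (mul_pos hY hY).le (by linarith [h3.1] :
    (0 : ℝ) ≤ c + 1)]

end Par

end Pool.Agent.BranchedPacking
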