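import Pool.Agent.Lib_MP_ff3433_gt.Angles
import Pool.Agent.Lib_MP_ff3433_gt.Chain

/-!
# Existence of the two symmetric packings
-/

namespace Pool.Agent.BranchedPacking.Ex

open Pool.Agent.BranchedPacking Real

/-- The numbers from two closed chains. -/
noncomputable def numsOf (p : Par) (m c0 c1 s1 c2 d0 d1 u1 d2 u2 : ℝ) (hm : 0 < m)
    (hC0 : p.Step c0 (-m) c1 s1) (hC1 : p.Step c1 s1 c2 0)
    (hD0 : p.swap.Step d0 (-m) d1 u1) (hD1 : p.swap.Step d1 u1 d2 u2)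
    (hD2 : p.swap.Step d2 u2 d2 (-u2))
    (hc : p.τ * c0 = -p.Y ^ 2) (hd : p.τ * d0 = -p.X ^ 2) : Nums := by
  have hX := p.X_pos
  have hY := p.Y_pos
  have hτ := p.τ_pos
  have hA := p.A_pos
  have hA' : 0 < 1 - p.X ^ 2 := p.swap.A_pos
  have hrel := p.rel
  have ha1 : p.P c0 = 0 := by
    rw [Par.P, hc]; simp
  have ha2 : p.q c0 = p.X * p.Y / p.τ := by
    rw [Par.q]
    field_simp
    linear_combination hc + hrel
  have hb1 : p.swap.P d0 = 0 := by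
    rw [Par.P]
    show (p.X ^ 2 + p.τ * d0) / _ = 0
    rw [hd]; simp
  have hb2 : p.swap.q d0 = p.X * p.Y / p.τ := by
    rw [Par.q]
    show p.X * (d0 + p.τ) / (p.Y * (1 - p.X ^ 2)) = _
    field_simp
    linear_combination hd + hrel
  have k1 := hC0.tangent
  have k2 := hC1.tangent
  have k3 := hD0.tangent
  have k4 := hD1.tangent
  have k5 := hD2.tangent
  have l1 := hC0.q_pos
  have l2 := hC1.q_pos
  have l3 := hD0.q_pos
  have l4 := hD1.q_pos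
  have l5 := hD2.q_pos
  have n1 := hC0.det_pos
  have n2 := hC1.det_pos
  have n3 := hD0.det_pos
  have n4 := hD1.det_pos
  have n5 := hD2.det_pos
  have hn := p.norm_formula hC0.on
  rw [ha1, ha2] at *
  rw [hb1, hb2] at *
  have hk : 0 < p.τ / (p.X * p.Y) := by positivity
  have hn0 : 0 < p.X * p.Y / p.τ := by positivity
  have hkk : p.swap.τ / (p.swap.X * p.swap.Y) = p.τ / (p.X * p.Y) := by
    show p.τ / (p.Y * p.X) = _
    rw [mul_comm]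
  have g1 := p.P_neg_add c1
  have g2 := p.P_neg_add c2
  have g3 := p.swap.P_neg_add d1
  have g4 := p.swap.P_neg_add d2
  rw [hkk] at g3 g4
  have e3 : p.swap.P d1 / p.swap.X = 1 / p.Y * p.swap.P d1 := by
    show p.swap.P d1 / p.Y = _
    ring
  have e4 : p.swap.P d2 / p.swap.X = 1 / p.Y * p.swap.P d2 := by
    show p.swap.P d2 / p.Y = _
    ring
  have q3 := p.swap.q_add_pos hD1.on
  have q4 := p.swap.q_add_pos hD1.on'
  rw [hkk] at q3 q4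
  exact
  { m := m
    n0 := p.X * p.Y / p.τ
    k := p.τ / (p.X * p.Y)
    ξ := 1 / p.X
    η := 1 / p.Y
    P1 := p.P c1
    P2 := p.P c2
    q1 := p.q c1
    q2 := p.q c2
    s1 := s1
    R1 := p.swap.P d1
    R2 := p.swap.P d2
    t1 := p.swap.q d1
    t2 := p.swap.q d2
    u1 := u1
    u2 := u2
    m_pos := hm
    ξ_pos := by positivity
    η_pos := by positivity
    na := by linarith
    nC1 := p.norm_formula hC1.on
    nC2 := by have := p.norm_formula hC1.on'; linarith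
    nB1 := p.swap.norm_formula hD1.on
    nB2 := p.swap.norm_formula hD1.on'
    nf := by
      field_simp
      linear_combination (-1 : ℝ) * hrel
    tC0 := by linarith
    tC1 := by linarith
    tB0 := by linarith
    tB1 := by linarith
    tB2 := by linarith
    pC0 := l1
    pC1 := l2
    pB0 := l3
    pB1 := l4
    pB2 := by linarith
    dC0 := by linarith
    dC1 := by linarith
    dB0 := by linarith
    dB1 := by linarith
    dB2 := by linarith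
    fa := by field_simp
    fC1 := by linarith [g1, (by ring : p.P c1 / p.X = 1 / p.X * p.P c1)]
    fC2 := by linarith [g2, (by ring : p.P c2 / p.X = 1 / p.X * p.P c2)]
    fB1 := by linarith
    fB2 := by linarith
    qa := by positivity
    qC1 := p.q_add_pos hC1.on
    qC2 := p.q_add_pos hC1.on'
    qB1 := q3
    qB2 := q4 }

/-- The real chain. -/
lemma real_chain (p : Par) {e : ℝ} (he : e ^ 2 = 1) :
    p.Step (e * (8 * p.Y ^ 4 - 8 * p.Y ^ 2 + 1)) (-(e * (8 * p.Y ^ 3 - 4 * p.Y)))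
      (e * (2 * p.Y ^ 2 - 1)) (-(2 * e * p.Y)) ∧
    p.Step (e * (2 * p.Y ^ 2 - 1)) (-(2 * e * p.Y)) e 0 := by
  refine ⟨⟨?_, ?_, ?_, ?_⟩, ⟨?_, ?_, ?_, ?_⟩⟩
  · unfold Par.OnChain; linear_combination (64 * p.Y^8 - 128 * p.Y^6 + 80 * p.Y^4 - 16 * p.Y^2 + 1 + (8 * p.Y ^ 3 - 4 * p.Y)^2 * (1 - p.Y^2)) * he
  · unfold Par.OnChain; linear_combination ((2 * p.Y ^ 2 - 1)^2 + (2 * p.Y)^2 * (1 - p.Y^2)) * he
  · linear_combination ((8 * p.Y ^ 4 - 8 * p.Y ^ 2 + 1) * (2 * p.Y ^ 2 - 1) + (8 * p.Y ^ 3 - 4 * p.Y) * (2 * p.Y) * (1 - p.Y^2)) * he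
  · linear_combination (-(8 * p.Y ^ 4 - 8 * p.Y ^ 2 + 1) * (2 * p.Y) + (2 * p.Y ^ 2 - 1) * (8 * p.Y ^ 3 - 4 * p.Y)) * he
  · unfold Par.OnChain; linear_combination ((2 * p.Y ^ 2 - 1)^2 + (2 * p.Y)^2 * (1 - p.Y^2)) * he
  · unfold Par.OnChain; linear_combination he
  · linear_combination (2 * p.Y ^ 2 - 1) * he
  · linear_combination (2 * p.Y) * he

/-- The middle chain. -/
lemma middle_chain (p : Par) {e : ℝ} (he : e ^ 2 = 1) :
    p.Step (e * (16 * p.Y ^ 5 - 20 * p.Y ^ 3 + 5 * p.Y))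
      (-(e * (16 * p.Y ^ 4 - 12 * p.Y ^ 2 + 1)))
      (e * (4 * p.Y ^ 3 - 3 * p.Y)) (-(e * (4 * p.Y ^ 2 - 1))) ∧
    p.Step (e * (4 * p.Y ^ 3 - 3 * p.Y)) (-(e * (4 * p.Y ^ 2 - 1))) (e * p.Y) (-e) ∧
    p.Step (e * p.Y) (-e) (e * p.Y) e := by
  refine ⟨⟨?_, ?_, ?_, ?_⟩, ⟨?_, ?_, ?_, ?_⟩, ⟨?_, ?_, ?_, ?_⟩⟩
  · unfold Par.OnChain; linear_combination ((16 * p.Y ^ 5 - 20 * p.Y ^ 3 + 5 * p.Y)^2 + (16 * p.Y ^ 4 - 12 * p.Y ^ 2 + 1)^2 * (1 - p.Y^2)) * he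
  · unfold Par.OnChain; linear_combination ((4 * p.Y ^ 3 - 3 * p.Y)^2 + (4 * p.Y ^ 2 - 1)^2 * (1 - p.Y^2)) * he
  · linear_combination ((16 * p.Y ^ 5 - 20 * p.Y ^ 3 + 5 * p.Y) * (4 * p.Y ^ 3 - 3 * p.Y) + (16 * p.Y ^ 4 - 12 * p.Y ^ 2 + 1) * (4 * p.Y ^ 2 - 1) * (1 - p.Y^2)) * he
  · linear_combination (-(16 * p.Y ^ 5 - 20 * p.Y ^ 3 + 5 * p.Y) * (4 * p.Y ^ 2 - 1) + (4 * p.Y ^ 3 - 3 * p.Y) * (16 * p.Y ^ 4 - 12 * p.Y ^ 2 + 1)) * he
  · unfold Par.OnChain; linear_combination ((4 * p.Y ^ 3 - 3 * p.Y)^2 + (4 * p.Y ^ 2 - 1)^2 * (1 - p.Y^2)) * he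
  · unfold Par.OnChain; linear_combination (p.Y ^ 2 + 1 - p.Y^2) * he
  · linear_combination ((4 * p.Y ^ 3 - 3 * p.Y) * p.Y + (4 * p.Y ^ 2 - 1) * (1 - p.Y^2)) * he
  · linear_combination (-(4 * p.Y ^ 3 - 3 * p.Y) + p.Y * (4 * p.Y^2 - 1)) * he
  · unfold Par.OnChain; linear_combination (p.Y ^ 2 + 1 - p.Y^2) * he
  · unfold Par.OnChain; linear_combination (p.Y ^ 2 + 1 - p.Y^2) * he
  · linear_combination (p.Y ^ 2 - (1 - p.Y^2)) * he
  · linear_combination (2 * p.Y) * he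

/-- The two closing conditions follow from the main equation and signs. -/
lemma closing {A B τ : ℝ} (hA : 0 ≤ A) (hτ : 0 < τ) (h : (B * τ) ^ 2 = A ^ 2) (hB : B < 0) :
    τ * B = -A := by
  have h1 : (τ * B + A) * (τ * B - A) = 0 := by linear_combination h
  have h2 : τ * B - A < 0 := by nlinarith [mul_pos_of_neg_of_neg (neg_neg_of_pos hτ) hB]
  have h3 : τ * B + A = 0 := by
    rcases mul_eq_zero.1 h1 with h | h
    · exact h
    · exact absurd h h2.ne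
  linarith

/-- Main construction: a solution of the equation with the right signs gives a packing. -/
lemma exists_nums {X Y eR eI m : ℝ} (hX0 : 0 < X) (hX1 : X < 1) (hY0 : 0 < Y) (hY1 : Y < 1)
    (heR : eR ^ 2 = 1) (heI : eI ^ 2 = 1) (hm : 0 < m)
    (hmY : m = eR * (8 * Y ^ 3 - 4 * Y)) (hmX : m = eI * (16 * X ^ 4 - 12 * X ^ 2 + 1))
    (heq : m ^ 2 * (X ^ 2 + Y ^ 2 - X ^ 2 * Y ^ 2) = X ^ 2 + Y ^ 2)
    (hT4 : eR * (8 * Y ^ 4 - 8 * Y ^ 2 + 1) < 0)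
    (hT5 : eI * (16 * X ^ 5 - 20 * X ^ 3 + 5 * X) < 0) :
    ∃ N : Nums, N.m = m ∧ N.s1 = -(2 * eR * Y) ∧ N.u1 = -(eI * (4 * X ^ 2 - 1)) ∧
      N.u2 = -eI := by
  have hX2 : X ^ 2 < 1 := by nlinarith
  have hY2 : Y ^ 2 < 1 := by nlinarith
  have hpos : 0 < X ^ 2 + Y ^ 2 - X ^ 2 * Y ^ 2 := by
    have : 0 < X ^ 2 * (1 - Y ^ 2) := by
      apply mul_pos (by positivity) (by linarith)
    have h2 : 0 < Y ^ 2 := by positivity
    linarith
  have hsq := Real.sq_sqrt hpos.le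
  have hτ : 0 < √(X ^ 2 + Y ^ 2 - X ^ 2 * Y ^ 2) := Real.sqrt_pos.2 hpos
  set τ := √(X ^ 2 + Y ^ 2 - X ^ 2 * Y ^ 2) with hτdef
  let p : Par := ⟨X, Y, τ, hX0, hX1, hY0, hY1, hτ, hsq⟩
  obtain ⟨r1, r2⟩ := real_chain p heR
  obtain ⟨i1, i2, i3⟩ := middle_chain p.swap heI
  have hc : p.τ * (eR * (8 * p.Y ^ 4 - 8 * p.Y ^ 2 + 1)) = -p.Y ^ 2 := by
    apply closing (by positivity) hτ _ hT4
    show (eR * (8 * Y ^ 4 - 8 * Y ^ 2 + 1) * τ) ^ 2 = (Y ^ 2) ^ 2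
    have h1 : (eR * (8 * Y ^ 4 - 8 * Y ^ 2 + 1)) ^ 2 + m ^ 2 * (1 - Y ^ 2) = 1 := by
      have := r1.on
      unfold Par.OnChain at this
      rw [hmY]
      have e : (-(eR * (8 * p.Y ^ 3 - 4 * p.Y))) ^ 2 = (eR * (8 * Y ^ 3 - 4 * Y)) ^ 2 := by
        show (-(eR * (8 * Y ^ 3 - 4 * Y))) ^ 2 = _
        ring
      rw [e] at this
      exact this
    rw [mul_pow, hsq]
    linear_combination (X ^ 2 + Y ^ 2 - X ^ 2 * Y ^ 2) * h1 - (1 - Y ^ 2) * heq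
  have hd : p.τ * (eI * (16 * p.swap.Y ^ 5 - 20 * p.swap.Y ^ 3 + 5 * p.swap.Y)) = -p.X ^ 2 := by
    apply closing (by positivity) hτ _ hT5
    show (eI * (16 * X ^ 5 - 20 * X ^ 3 + 5 * X) * τ) ^ 2 = (X ^ 2) ^ 2
    have h1 : (eI * (16 * X ^ 5 - 20 * X ^ 3 + 5 * X)) ^ 2 + m ^ 2 * (1 - X ^ 2) = 1 := by
      have := i1.on
      unfold Par.OnChain at this
      rw [hmX]
      have e : (-(eI * (16 * p.swap.Y ^ 4 - 12 * p.swap.Y ^ 2 + 1))) ^ 2 =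
          (eI * (16 * X ^ 4 - 12 * X ^ 2 + 1)) ^ 2 := by
        show (-(eI * (16 * X ^ 4 - 12 * X ^ 2 + 1))) ^ 2 = _
        ring
      rw [e] at this
      exact this
    rw [mul_pow, hsq]
    linear_combination (X ^ 2 + Y ^ 2 - X ^ 2 * Y ^ 2) * h1 - (1 - X ^ 2) * heq
  have r1' : p.Step (eR * (8 * p.Y ^ 4 - 8 * p.Y ^ 2 + 1)) (-m)
      (eR * (2 * p.Y ^ 2 - 1)) (-(2 * eR * p.Y)) := by
    rw [hmY]; exact r1
  have i1' : p.swap.Step (eI * (16 * p.swap.Y ^ 5 - 20 * p.swap.Y ^ 3 + 5 * p.swap.Y)) (-m)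
      (eI * (4 * p.swap.Y ^ 3 - 3 * p.swap.Y)) (-(eI * (4 * p.swap.Y ^ 2 - 1))) := by
    rw [hmX]; exact i1
  have i3' : p.swap.Step (eI * p.swap.Y) (-eI) (eI * p.swap.Y) (-(-eI)) := by
    rw [neg_neg]; exact i3
  exact ⟨numsOf p m _ _ _ _ _ _ _ _ _ hm r1' r2 i1' i2 i3' hc hd, rfl, rfl, rfl, rfl⟩

/-- An intermediate value argument. -/
lemma exists_root {F : ℝ → ℝ} {a b : ℝ} (hab : a ≤ b) (hF : Continuous F) (ha : F a ≤ 0)
    (hb : 0 ≤ F b) : ∃ y, a ≤ y ∧ y ≤ b ∧ F y = 0 := by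
  obtain ⟨y, hy, hy'⟩ := intermediate_value_Icc hab hF.continuousOn ⟨ha, hb⟩
  exact ⟨y, hy.1, hy.2, hy'⟩

/-- The first packing. -/
lemma exists_first : ∃ N : Nums, N.Mode ∧ 0 < N.m * N.s1 ∧ N.m * N.s1 < 1 := by
  let m : ℝ → ℝ := fun y => 4 * y - 8 * y ^ 3
  let P : ℝ → ℝ := fun y => (3 + √(5 + 4 * m y)) / 8
  let F : ℝ → ℝ := fun y => m y ^ 2 * (P y + y ^ 2 - P y * y ^ 2) - (P y + y ^ 2)
  have hmc : Continuous m := by fun_prop
  have hPc : Continuous P := by fun_prop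
  have hFc : Continuous F := by fun_prop
  have hmb : ∀ y, 0.34 ≤ y → y ≤ 0.36 → 1 ≤ m y ∧ m y ≤ 1.11 := by
    intro y h1 h2
    have h3 : (0.34 : ℝ) ^ 2 ≤ y ^ 2 := by nlinarith
    have h4 : y ^ 2 ≤ (0.36 : ℝ) ^ 2 := by nlinarith
    have e : m y = 4 * y * (1 - 2 * y ^ 2) := by simp only [m]; ring
    rw [e]
    constructor <;> nlinarith
  have hPb : ∀ y, 0.34 ≤ y → y ≤ 0.36 → 0.75 ≤ P y ∧ P y ≤ 0.7625 := by
    intro y h1 h2
    obtain ⟨h3, h4⟩ := hmb y h1 h2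
    have h5 : (3 : ℝ) ≤ √(5 + 4 * m y) := Real.le_sqrt_of_sq_le (by linarith)
    have h6 : √(5 + 4 * m y) ≤ 3.1 := Real.sqrt_le_iff.2 ⟨by norm_num, by linarith⟩
    constructor
    · show 0.75 ≤ (3 + √(5 + 4 * m y)) / 8
      linarith
    · show (3 + √(5 + 4 * m y)) / 8 ≤ 0.7625
      linarith
  have hF : ∀ y, F y = P y * (m y ^ 2 * (1 - y ^ 2) - 1) + y ^ 2 * (m y ^ 2 - 1) := by
    intro y; simp only [F]; ring
  have hFa : F 0.34 ≤ 0 := by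
    obtain ⟨h1, h2⟩ := hPb 0.34 (by norm_num) (by norm_num)
    rw [hF]
    have e : m 0.34 = 4 * 0.34 - 8 * 0.34 ^ 3 := rfl
    rw [e]
    nlinarith
  have hFb : 0 ≤ F 0.36 := by
    obtain ⟨h1, h2⟩ := hPb 0.36 (by norm_num) (by norm_num)
    rw [hF]
    have e : m 0.36 = 4 * 0.36 - 8 * 0.36 ^ 3 := rfl
    rw [e]
    nlinarith
  obtain ⟨y, hy1, hy2, hy⟩ := exists_root (by norm_num) hFc hFa hFb
  obtain ⟨hm1, hm2⟩ := hmb y hy1 hy2
  obtain ⟨hP1, hP2⟩ := hPb y hy1 hy2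
  have hy3 : (0.34 : ℝ) ^ 2 ≤ y ^ 2 := by nlinarith
  have hy4 : y ^ 2 ≤ (0.36 : ℝ) ^ 2 := by nlinarith
  have hP0 : 0 ≤ P y := by linarith
  have hX2 : (√(P y)) ^ 2 = P y := Real.sq_sqrt hP0
  have hX0 : 0 < √(P y) := Real.sqrt_pos.2 (by linarith)
  have hX1 : √(P y) < 1 := by
    rw [Real.sqrt_lt' one_pos]; linarith
  have hs : (8 * P y - 3) ^ 2 = 5 + 4 * m y := by
    have : 8 * P y - 3 = √(5 + 4 * m y) := by simp only [P]; ring
    rw [this, Real.sq_sqrt (by linarith)]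
  set X := √(P y) with hXdef
  obtain ⟨N, h1, h2, h3, h4⟩ := exists_nums (X := X) (Y := y) (eR := -1) (eI := 1) (m := m y)
    hX0 hX1 (by linarith) (by linarith) (by norm_num) (by norm_num) (by linarith)
    (by simp only [m]; ring)
    (by
      have : X ^ 4 = P y ^ 2 := by rw [← hX2]; ring
      rw [this, hX2]; linarith)
    (by
      rw [hX2]
      have : F y = m y ^ 2 * (P y + y ^ 2 - P y * y ^ 2) - (P y + y ^ 2) := rfl
      linarith)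
    (by
      have : y ^ 4 = y ^ 2 * y ^ 2 := by ring
      nlinarith)
    (by
      have : 1 * (16 * X ^ 5 - 20 * X ^ 3 + 5 * X) = X * (16 * P y ^ 2 - 20 * P y + 5) := by
        rw [← hX2]; ring
      rw [this]
      apply mul_neg_of_pos_of_neg hX0
      nlinarith)
  refine ⟨N, Or.inl ⟨?_, ?_, ?_⟩, ?_, ?_⟩
  · rw [h2]; linarith
  · rw [h3, hX2]; linarith
  · rw [h4]; norm_num
  · rw [h1, h2]
    apply mul_pos <;> linarith
  · rw [h1, h2]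
    have : m y * -(2 * -1 * y) = 8 * y ^ 2 * (1 - 2 * y ^ 2) := by simp only [m]; ring
    rw [this]
    nlinarith

/-- The second packing. -/
lemma exists_second : ∃ N : Nums, N.Mode ∧ N.m * N.s1 < 0 := by
  let m : ℝ → ℝ := fun y => 8 * y ^ 3 - 4 * y
  let P : ℝ → ℝ := fun y => (3 - √(5 - 4 * m y)) / 8
  let F : ℝ → ℝ := fun y => m y ^ 2 * (P y + y ^ 2 - P y * y ^ 2) - (P y + y ^ 2)
  have hmc : Continuous m := by fun_prop
  have hPc : Continuous P := by fun_prop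
  have hFc : Continuous F := by fun_prop
  have hmb : ∀ y, 0.81 ≤ y → y ≤ 0.825 → 1.01 ≤ m y ∧ m y ≤ 1.1925 := by
    intro y h1 h2
    have h3 : (0.81 : ℝ) ^ 2 ≤ y ^ 2 := by nlinarith
    have h4 : y ^ 2 ≤ (0.825 : ℝ) ^ 2 := by nlinarith
    have e : m y = 4 * y * (2 * y ^ 2 - 1) := by simp only [m]; ring
    rw [e]
    constructor <;> nlinarith
  have hPb : ∀ y, 0.81 ≤ y → y ≤ 0.825 → 0.25 < P y ∧ P y ≤ 0.3165 := by
    intro y h1 h2
    obtain ⟨h3, h4⟩ := hmb y h1 h2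
    have h5 : (0.47 : ℝ) ≤ √(5 - 4 * m y) := Real.le_sqrt_of_sq_le (by linarith)
    have h6 : √(5 - 4 * m y) < 1 := by
      rw [Real.sqrt_lt' one_pos]; linarith
    constructor
    · show 0.25 < (3 - √(5 - 4 * m y)) / 8
      linarith
    · show (3 - √(5 - 4 * m y)) / 8 ≤ 0.3165
      linarith
  have hF : ∀ y, F y = P y * (m y ^ 2 * (1 - y ^ 2) - 1) + y ^ 2 * (m y ^ 2 - 1) := by
    intro y; simp only [F]; ring
  have hFa : F 0.81 ≤ 0 := by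
    obtain ⟨h1, h2⟩ := hPb 0.81 (by norm_num) (by norm_num)
    rw [hF]
    have e : m 0.81 = 8 * 0.81 ^ 3 - 4 * 0.81 := rfl
    rw [e]
    nlinarith
  have hFb : 0 ≤ F 0.825 := by
    obtain ⟨h1, h2⟩ := hPb 0.825 (by norm_num) (by norm_num)
    rw [hF]
    have e : m 0.825 = 8 * 0.825 ^ 3 - 4 * 0.825 := rfl
    rw [e]
    nlinarith
  obtain ⟨y, hy1, hy2, hy⟩ := exists_root (by norm_num) hFc hFa hFb
  obtain ⟨hm1, hm2⟩ := hmb y hy1 hy2
  obtain ⟨hP1, hP2⟩ := hPb y hy1 hy2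
  have hy3 : (0.81 : ℝ) ^ 2 ≤ y ^ 2 := by nlinarith
  have hy4 : y ^ 2 ≤ (0.825 : ℝ) ^ 2 := by nlinarith
  have hP0 : 0 ≤ P y := by linarith
  have hX2 : (√(P y)) ^ 2 = P y := Real.sq_sqrt hP0
  have hX0 : 0 < √(P y) := Real.sqrt_pos.2 (by linarith)
  have hX1 : √(P y) < 1 := by
    rw [Real.sqrt_lt' one_pos]; linarith
  have hs : (8 * P y - 3) ^ 2 = 5 - 4 * m y := by
    have : 8 * P y - 3 = -√(5 - 4 * m y) := by simp only [P]; ring
    rw [this, neg_sq, Real.sq_sqrt (by linarith)]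
  set X := √(P y) with hXdef
  obtain ⟨N, h1, h2, h3, h4⟩ := exists_nums (X := X) (Y := y) (eR := 1) (eI := -1) (m := m y)
    hX0 hX1 (by linarith) (by linarith) (by norm_num) (by norm_num) (by linarith)
    (by simp only [m]; ring)
    (by
      have : X ^ 4 = P y ^ 2 := by rw [← hX2]; ring
      rw [this, hX2]; linarith)
    (by
      rw [hX2]
      have : F y = m y ^ 2 * (P y + y ^ 2 - P y * y ^ 2) - (P y + y ^ 2) := rfl
      linarith)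
    (by
      have : y ^ 4 = y ^ 2 * y ^ 2 := by ring
      nlinarith)
    (by
      have : -1 * (16 * X ^ 5 - 20 * X ^ 3 + 5 * X) = X * -(16 * P y ^ 2 - 20 * P y + 5) := by
        rw [← hX2]; ring
      rw [this]
      apply mul_neg_of_pos_of_neg hX0
      nlinarith)
  refine ⟨N, Or.inr ⟨?_, ?_, ?_⟩, ?_⟩
  · rw [h2]; linarith
  · rw [h3, hX2]; linarith
  · rw [h4]; norm_num
  · rw [h1, h2]
    have : m y * -(2 * 1 * y) = -(2 * (m y * y)) := by ring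
    rw [this]
    have : 0 < m y * y := by apply mul_pos <;> linarith
    linarith

end Pool.Agent.BranchedPacking.Ex
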