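import Pool.Agent.Lib_MP_ff3433_gt.Defs

/-!
# The complex `K` of the counterexample and its double

Vertices: `0 = a`, `1 = c`, `2,3,4` the right chain, `5,6,7` the left chain (all on the boundary),
`8,9,10,11` the middle chain, `12, 13` the two branch vertices.

For speed the face relation is stored in a numerical table: `tab u v` is the vertex `w` such that
`(u, v, w)` is a positively oriented face (and `15` if there is none).
-/

namespace Pool.Agent.BranchedPacking.Ex

open Pool.Agent.BranchedPacking

/-- The table of the faces of `K`. -/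
def tab (u v : Fin 14) : ℕ :=
  (101611533437258881351302270705890999408728656295238919804802409537053061164803852571879747135302806236634698614809958005085800166026004445508686624899448750130081166481575888078052718565096149434146487400371405817731076316674054806306815 >>> (4 * (14 * u.val + v.val))) % 16

/-- The face relation of `K`. -/
def K (u v w : Fin 14) : Prop := tab u v = w.val

instance (u v w : Fin 14) : Decidable (K u v w) := inferInstanceAs (Decidable (tab u v = w.val))

lemma exists_K_iff (u v : Fin 14) : (∃ w, K u v w) ↔ tab u v < 14 := by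
  constructor
  · rintro ⟨w, hw⟩
    have : tab u v = w.val := hw
    rw [this]; exact w.isLt
  · intro h
    exact ⟨⟨tab u v, h⟩, rfl⟩

lemma adj_K_iff (u v : Fin 14) : Adj K u v ↔ (tab u v < 14 ∨ tab v u < 14) := by
  rw [← exists_K_iff, ← exists_K_iff]
  constructor
  · rintro ⟨w, h | h⟩
    · exact Or.inl ⟨w, h⟩
    · exact Or.inr ⟨w, h⟩
  · rintro (⟨w, h⟩ | ⟨w, h⟩)
    · exact ⟨w, Or.inl h⟩
    · exact ⟨w, Or.inr h⟩

lemma boundaryEdge_K_iff (u v : Fin 14) :
    BoundaryEdge K u v ↔ (tab u v < 14 ∧ ¬ tab v u < 14) := by
  rw [← exists_K_iff, ← exists_K_iff, BoundaryEdge]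
  push Not
  rfl

lemma isBoundary_iff (v : Fin 14) : IsBoundary K v ↔ v.val < 8 := by
  have h : ∀ v : Fin 14, (∃ u : Fin 14, (tab v u < 14 ∧ ¬ tab u v < 14) ∨
      (tab u v < 14 ∧ ¬ tab v u < 14)) ↔ v.val < 8 := by decide +kernel
  rw [← h v]
  exact exists_congr fun u => by rw [boundaryEdge_K_iff, boundaryEdge_K_iff]

instance (v : Fin 14) : Decidable (IsBoundary K v) := decidable_of_iff _ (isBoundary_iff v).symm

/-- A list whose consecutive entries are related shows connectedness. -/
lemma reflTransGen_of_chain {α : Type} {r : α → α → Prop} (hr : ∀ x y, r x y → r y x) (l : List α)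
    (hl : l.IsChain r) : ∀ x ∈ l, ∀ y ∈ l, Relation.ReflTransGen r x y := by
  have hsymm : ∀ x y, Relation.ReflTransGen r x y → Relation.ReflTransGen r y x := by
    intro x y h
    induction h with
    | refl => exact Relation.ReflTransGen.refl
    | tail _ hbc ih => exact Relation.ReflTransGen.head (hr _ _ hbc) ih
  induction l with
  | nil => intro x hx; simp at hx
  | cons a l ih =>
    have hal : ∀ y ∈ a :: l, Relation.ReflTransGen r a y := by
      intro y hy
      rcases List.mem_cons.1 hy with rfl | hy
      · exact Relation.ReflTransGen.refl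
      · cases l with
        | nil => simp at hy
        | cons b l' =>
          rw [List.isChain_cons_cons] at hl
          exact Relation.ReflTransGen.head hl.1 (ih hl.2 b (List.mem_cons_self) y hy)
    intro x hx y hy
    exact (hsymm _ _ (hal x hx)).trans (hal y hy)

lemma adj_symm {V : Type} {face : V → V → V → Prop} {u v : V} (h : Adj face u v) :
    Adj face v u := by
  obtain ⟨w, h | h⟩ := h
  · exact ⟨w, Or.inr h⟩
  · exact ⟨w, Or.inl h⟩

/-- links of the vertices, in order -/
def linkList : Fin 14 → List (Fin 14) :=
  ![[2, 12, 8, 13, 5], [7, 13, 11, 12, 4], [3, 12, 0], [4, 12, 2], [1, 12, 3],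
    [0, 13, 6], [5, 13, 7], [6, 13, 1],
    [0, 13, 9, 12], [8, 13, 10, 12], [9, 13, 11, 12], [10, 13, 1, 12],
    [0, 2, 3, 4, 1, 11, 10, 9, 8], [0, 5, 6, 7, 1, 11, 10, 9, 8]]

/-- a walk through all vertices -/
def walk14 : List (Fin 14) := [2, 3, 4, 1, 7, 6, 5, 0, 8, 9, 10, 11, 12, 8, 13]

lemma surface_K : IsSurface K where
  rot := by decide +kernel
  ne := by decide +kernel
  edge := by
    intro u v w w' h h'
    have h1 : tab u v = w.val := h
    have h2 : tab u v = w'.val := h'
    exact Fin.ext (h1.symm.trans h2)
  simplicial := by decide +kernel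
  exists_adj := by
    have h : ∀ v : Fin 14, ∃ u : Fin 14, (tab v u < 14 ∨ tab u v < 14) := by decide +kernel
    intro v
    obtain ⟨u, hu⟩ := h v
    exact ⟨u, (adj_K_iff v u).2 hu⟩
  link := by
    have h1 : ∀ v, (linkList v).IsChain (fun x y => K v x y ∨ K v y x) := by decide +kernel
    have h2 : ∀ v u, (tab v u < 14 ∨ tab u v < 14) → u ∈ linkList v := by decide +kernel
    intro v u u' hu hu'
    exact reflTransGen_of_chain (fun x y h => h.symm) _ (h1 v) u (h2 v u ((adj_K_iff v u).1 hu))
      u' (h2 v u' ((adj_K_iff v u').1 hu'))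
  connected := by
    have h1 : walk14.IsChain (fun u v => (tab u v < 14 ∨ tab v u < 14)) := by decide +kernel
    have h2 : ∀ v : Fin 14, v ∈ walk14 := by decide +kernel
    have h3 : walk14.IsChain (Adj K) := h1.imp fun u v h => (adj_K_iff u v).2 h
    intro u v
    exact reflTransGen_of_chain (fun x y h => adj_symm h) _ h3 u (h2 u) v (h2 v)

lemma disc_K : IsClosedDisc K where
  finite := inferInstance
  surface := surface_K
  boundary := ⟨0, (isBoundary_iff 0).2 (by decide)⟩
  euler := by
    have h1 : Nat.card {p : Fin 14 × Fin 14 // Adj K p.1 p.2} = 62 := by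
      have : Nat.card {p : Fin 14 × Fin 14 // (tab p.1 p.2 < 14 ∨ tab p.2 p.1 < 14)} = 62 := by
        rw [Nat.card_eq_fintype_card]; decide +kernel
      rw [← this]
      exact Nat.card_congr (Equiv.subtypeEquivRight fun p => adj_K_iff p.1 p.2)
    have h2 : Nat.card {t : Fin 14 × Fin 14 × Fin 14 // K t.1 t.2.1 t.2.2} = 54 := by
      rw [Nat.card_eq_fintype_card]; decide +kernel
    unfold sixEuler
    rw [h1, h2, Nat.card_eq_fintype_card, Fintype.card_fin]
    norm_num

/-! ### The double -/

/-- The table of the faces of the double. -/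
def tab2 (u v : Fin 20) : ℕ :=
  (114706369066705137613776414920571106821445188865849840620340141392668562936659765300416479892876438247525524169652022558829445470959140753518617145819316692774754951081644061559262778740729009170173858424511141954376535719300984579001601421114888305834989636626592915034858663531548194517096840295065820219565487090354255403869235375087443317762602157329393473431832985099478012107813243928704768158954016834670220269960896132180787232705562066078486251624091488012430227446648234756044177489455308128757464985392111778714739463657930241606301369350958936688256726310629829584698163845387558771033623551 >>> (5 * (20 * u.val + v.val))) % 32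

/-- The face relation of the double, on `Fin 20`. -/
def K2 (u v w : Fin 20) : Prop := tab2 u v = w.val

instance (u v w : Fin 20) : Decidable (K2 u v w) := inferInstanceAs (Decidable (tab2 u v = w.val))

/-- The numbering of the vertices of the double. -/
def num : Fin 20 → DoubleVertex K := fun i =>
  if h : i.val < 14 then Sum.inl ⟨i.val, h⟩
  else Sum.inr ⟨⟨i.val - 6, by omega⟩, by rw [isBoundary_iff]; simp only; omega⟩

/-- The inverse of `num`. -/
def unnum : DoubleVertex K → Fin 20
  | Sum.inl v => ⟨v.val, by omega⟩
  | Sum.inr v => ⟨v.1.val + 6, by omega⟩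

lemma num_of_lt (i : Fin 20) (h : i.val < 14) : num i = Sum.inl ⟨i.val, h⟩ := dif_pos h

lemma num_of_ge (i : Fin 20) (h : ¬ i.val < 14) :
    num i = Sum.inr ⟨⟨i.val - 6, by omega⟩, by rw [isBoundary_iff]; simp only; omega⟩ := dif_neg h

lemma num_unnum (x : DoubleVertex K) : num (unnum x) = x := by
  rcases x with v | ⟨v, hv⟩
  · exact num_of_lt _ v.isLt
  · have hv' : ¬ v.val < 8 := fun h => hv ((isBoundary_iff v).2 h)
    have h1 : ¬ (v.val + 6 < 14) := by omega
    refine (num_of_ge _ h1).trans ?_
    rfl

lemma unnum_num (i : Fin 20) : unnum (num i) = i := by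
  by_cases h : i.val < 14
  · rw [num_of_lt i h]; rfl
  · rw [num_of_ge i h]
    exact Fin.ext (show i.val - 6 + 6 = i.val by omega)

/-- the numbering as an equivalence -/
def numEquiv : Fin 20 ≃ DoubleVertex K where
  toFun := num
  invFun := unnum
  left_inv := unnum_num
  right_inv := num_unnum

instance (x : DoubleVertex K) : Decidable (InTop x) := by
  cases x
  · exact isTrue trivial
  · exact isFalse id

instance (x : DoubleVertex K) : Decidable (InBot x) := by
  cases x with
  | inl v => exact inferInstanceAs (Decidable (IsBoundary K v))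
  | inr v => exact isTrue trivial

instance (x y z : DoubleVertex K) : Decidable (double K x y z) := by
  unfold double; infer_instance

lemma double_num : ∀ i j k : Fin 20, double K (num i) (num j) (num k) ↔ K2 i j k := by
  decide +kernel

lemma forall_num {p : DoubleVertex K → Prop} (h : ∀ i, p (num i)) : ∀ x, p x := fun x => by
  rw [← num_unnum x]; exact h _

lemma num_inj {i j : Fin 20} : num i = num j ↔ i = j := numEquiv.apply_eq_iff_eq

lemma exists_K2_iff (i j : Fin 20) : (∃ k, K2 i j k) ↔ tab2 i j < 20 := by
  constructor
  · rintro ⟨w, hw⟩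
    have : tab2 i j = w.val := hw
    rw [this]; exact w.isLt
  · intro h
    exact ⟨⟨tab2 i j, h⟩, rfl⟩

lemma exists_double_iff (i j : Fin 20) :
    (∃ z, double K (num i) (num j) z) ↔ tab2 i j < 20 := by
  rw [← exists_K2_iff]
  constructor
  · rintro ⟨z, hz⟩
    rw [← num_unnum z, double_num] at hz
    exact ⟨_, hz⟩
  · rintro ⟨k, hk⟩
    exact ⟨num k, (double_num i j k).2 hk⟩

lemma adj_double_iff (i j : Fin 20) :
    Adj (double K) (num i) (num j) ↔ (tab2 i j < 20 ∨ tab2 j i < 20) := by
  rw [← exists_double_iff, ← exists_double_iff]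
  constructor
  · rintro ⟨w, h | h⟩
    · exact Or.inl ⟨w, h⟩
    · exact Or.inr ⟨w, h⟩
  · rintro (⟨w, h⟩ | ⟨w, h⟩)
    · exact ⟨w, Or.inl h⟩
    · exact ⟨w, Or.inr h⟩

/-- links of the vertices of the double, in order -/
def linkList2 : Fin 20 → List (Fin 20) :=
  ![[2, 12, 8, 13, 5, 19, 14, 18], [7, 13, 11, 12, 4, 18, 17, 19], [3, 12, 0, 18], [4, 12, 2, 18],
    [1, 12, 3, 18],
    [0, 13, 6, 19], [5, 13, 7, 19], [6, 13, 1, 19],
    [0, 13, 9, 12], [8, 13, 10, 12], [9, 13, 11, 12], [10, 13, 1, 12],
    [0, 2, 3, 4, 1, 11, 10, 9, 8], [0, 5, 6, 7, 1, 11, 10, 9, 8],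
    [0, 19, 15, 18], [14, 19, 16, 18], [15, 19, 17, 18], [16, 19, 1, 18],
    [0, 2, 3, 4, 1, 17, 16, 15, 14], [0, 5, 6, 7, 1, 17, 16, 15, 14]]

/-- a walk through all vertices of the double -/
def walk20 : List (Fin 20) :=
  [2, 3, 4, 1, 7, 6, 5, 0, 8, 9, 10, 11, 12, 8, 13, 8, 0, 14, 15, 16, 17, 18, 14, 19]

lemma surface_double : IsSurface (double K) where
  rot := by
    have h : ∀ i j k, K2 i j k → K2 j k i := by decide +kernel
    refine forall_num fun i => forall_num fun j => forall_num fun k => ?_
    rw [double_num, double_num]; exact h i j k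
  ne := by
    have h : ∀ i j k, K2 i j k → i ≠ j := by decide +kernel
    refine forall_num fun i => forall_num fun j => forall_num fun k => ?_
    rw [double_num, Ne, num_inj]; exact h i j k
  edge := by
    refine forall_num fun i => forall_num fun j => forall_num fun k => forall_num fun l => ?_
    rw [double_num, double_num, num_inj]
    intro h h'
    have h1 : tab2 i j = k.val := h
    have h2 : tab2 i j = l.val := h'
    exact Fin.ext (h1.symm.trans h2)
  simplicial := by
    have h : ∀ i j k, K2 i j k → ¬ K2 j i k := by decide +kernel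
    refine forall_num fun i => forall_num fun j => forall_num fun k => ?_
    rw [double_num, double_num]; exact h i j k
  exists_adj := by
    have h : ∀ v : Fin 20, ∃ u : Fin 20, (tab2 v u < 20 ∨ tab2 u v < 20) := by decide +kernel
    refine forall_num fun i => ?_
    obtain ⟨u, hu⟩ := h i
    exact ⟨num u, (adj_double_iff i u).2 hu⟩
  link := by
    have h1 : ∀ v, (linkList2 v).IsChain (fun x y => K2 v x y ∨ K2 v y x) := by decide +kernel
    have h2 : ∀ v u, (tab2 v u < 20 ∨ tab2 u v < 20) → u ∈ linkList2 v := by decide +kernel
    refine forall_num fun i => forall_num fun j => forall_num fun k => ?_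
    intro hu hu'
    have h3 : ((linkList2 i).map num).IsChain
        (fun x y => double K (num i) x y ∨ double K (num i) y x) := by
      refine List.isChain_map_of_isChain num ?_ (h1 i)
      intro a b hab
      rw [double_num, double_num]; exact hab
    exact reflTransGen_of_chain (fun x y h => h.symm) _ h3
      (num j) (List.mem_map_of_mem (h2 i j ((adj_double_iff i j).1 hu)))
      (num k) (List.mem_map_of_mem (h2 i k ((adj_double_iff i k).1 hu')))
  connected := by
    have h1 : walk20.IsChain (fun u v => (tab2 u v < 20 ∨ tab2 v u < 20)) := by decide +kernel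
    have h2 : ∀ v : Fin 20, v ∈ walk20 := by decide +kernel
    have h3 : (walk20.map num).IsChain (Adj (double K)) := by
      refine List.isChain_map_of_isChain num ?_ h1
      intro a b hab
      exact (adj_double_iff a b).2 hab
    refine forall_num fun i => forall_num fun j => ?_
    exact reflTransGen_of_chain (fun x y h => adj_symm h) _ h3
      (num i) (List.mem_map_of_mem (h2 i)) (num j) (List.mem_map_of_mem (h2 j))

lemma sphere_double : IsSphere (double K) where
  finite := Finite.of_equiv _ numEquiv
  surface := surface_double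
  boundary := by
    have h : ∀ i j : Fin 20, tab2 i j < 20 → tab2 j i < 20 := by decide +kernel
    have hB : ∀ i j : Fin 20, ¬ BoundaryEdge (double K) (num i) (num j) := by
      rintro i j ⟨h1, h2⟩
      rw [exists_double_iff] at h1
      obtain ⟨z, hz⟩ := (exists_double_iff j i).2 (h i j h1)
      exact h2 z hz
    refine forall_num fun i => ?_
    rintro ⟨u, hu⟩
    rw [← num_unnum u] at hu
    rcases hu with hu | hu
    · exact hB _ _ hu
    · exact hB _ _ hu
  euler := by
    have h0 : Nat.card (DoubleVertex K) = 20 := by
      rw [← Nat.card_congr numEquiv]; simp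
    have h1 : Nat.card {p : DoubleVertex K × DoubleVertex K // Adj (double K) p.1 p.2} = 108 := by
      have : Nat.card {p : Fin 20 × Fin 20 // (tab2 p.1 p.2 < 20 ∨ tab2 p.2 p.1 < 20)} = 108 := by
        rw [Nat.card_eq_fintype_card]; decide +kernel
      rw [← this]
      exact (Nat.card_congr ((Equiv.prodCongr numEquiv numEquiv).subtypeEquiv fun p => by
        exact (adj_double_iff p.1 p.2).symm)).symm
    have h2 : Nat.card {t : DoubleVertex K × DoubleVertex K × DoubleVertex K //
        double K t.1 t.2.1 t.2.2} = 108 := by
      have : Nat.card {t : Fin 20 × Fin 20 × Fin 20 // K2 t.1 t.2.1 t.2.2} = 108 := by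
        rw [Nat.card_eq_fintype_card]; decide +kernel
      rw [← this]
      exact (Nat.card_congr ((Equiv.prodCongr numEquiv
        (Equiv.prodCongr numEquiv numEquiv)).subtypeEquiv fun p => by
        exact (double_num p.1 p.2.1 p.2.2).symm)).symm
    unfold sixEuler
    rw [h0, h1, h2]
    norm_num

end Pool.Agent.BranchedPacking.Ex
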