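import Mathlib

/-!
# Circle packings with branch points: definitions

A finite oriented two-dimensional simplicial complex is given by its vertex type `V` and the
relation `face u v w` saying that `(u, v, w)` is a positively oriented face.
-/

namespace Pool.Agent.BranchedPacking

open Real

/-! ### Combinatorial surfaces -/

section Combinatorics

variable {V : Type}

/-- `u` and `v` are joined by an edge. -/
def Adj (face : V → V → V → Prop) (u v : V) : Prop := ∃ w, face u v w ∨ face v u w

/-- The directed edge `u → v` is a boundary edge: it lies on a positively oriented face, and the
reversed edge does not. -/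
def BoundaryEdge (face : V → V → V → Prop) (u v : V) : Prop :=
  (∃ w, face u v w) ∧ ∀ w, ¬ face v u w

/-- `v` is a boundary vertex: it lies on a boundary edge. -/
def IsBoundary (face : V → V → V → Prop) (v : V) : Prop :=
  ∃ u, BoundaryEdge face v u ∨ BoundaryEdge face u v

/-- `face` is the set of positively oriented faces of a connected oriented simplicial surface
(possibly with boundary) with vertex set `V`. -/
structure IsSurface (face : V → V → V → Prop) : Prop where
  /-- faces are cyclically ordered triples -/
  rot : ∀ u v w, face u v w → face v w u
  /-- the vertices of a face are distinct -/
  ne : ∀ u v w, face u v w → u ≠ v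
  /-- a directed edge is on at most one face (so every edge is on at most two faces, and the two
  faces are coherently oriented) -/
  edge : ∀ u v w w', face u v w → face u v w' → w = w'
  /-- different faces have different vertex sets -/
  simplicial : ∀ u v w, face u v w → ¬ face v u w
  /-- every vertex is on some edge -/
  exists_adj : ∀ v, ∃ u, Adj face v u
  /-- the link of every vertex is connected (hence a path or a cycle) -/
  link : ∀ v u u', Adj face v u → Adj face v u' →
    Relation.ReflTransGen (fun x y => face v x y ∨ face v y x) u u'
  /-- the complex is connected -/
  connected : ∀ u v, Relation.ReflTransGen (Adj face) u v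

/-- Six times the Euler characteristic `#V - #E + #F`: the number of ordered pairs of adjacent
vertices is `2 #E`, and the number of ordered faces `(u, v, w)` is `3 #F`. -/
noncomputable def sixEuler (face : V → V → V → Prop) : ℤ :=
  6 * (Nat.card V : ℤ) - 3 * (Nat.card {p : V × V // Adj face p.1 p.2} : ℤ) +
    2 * (Nat.card {t : V × V × V // face t.1 t.2.1 t.2.2} : ℤ)

/-- A combinatorial closed disc: a finite connected oriented simplicial surface with nonempty
boundary and Euler characteristic one. -/
structure IsClosedDisc (face : V → V → V → Prop) : Prop where
  finite : Finite V
  surface : IsSurface face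
  boundary : ∃ v, IsBoundary face v
  euler : sixEuler face = 6

/-- A combinatorial sphere: a finite connected oriented simplicial surface without boundary and
with Euler characteristic two. -/
structure IsSphere (face : V → V → V → Prop) : Prop where
  finite : Finite V
  surface : IsSurface face
  boundary : ∀ v, ¬ IsBoundary face v
  euler : sixEuler face = 12

/-- The vertex set of the double: `inl v` is the vertex `v` of the complex `K`, and for an
interior vertex `v`, `inr v` is the vertex `v*` of the reversed copy `K*`.  The boundary vertices
of `K` and `K*` are identified. -/
abbrev DoubleVertex (face : V → V → V → Prop) : Type := V ⊕ {v : V // ¬ IsBoundary face v}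

/-- The vertex of `K` underlying a vertex of the double. -/
def under {face : V → V → V → Prop} : DoubleVertex face → V
  | Sum.inl v => v
  | Sum.inr v => v.1

/-- The vertex is in the copy `K`. -/
def InTop {face : V → V → V → Prop} : DoubleVertex face → Prop
  | Sum.inl _ => True
  | Sum.inr _ => False

/-- The vertex is in the copy `K*`. -/
def InBot {face : V → V → V → Prop} : DoubleVertex face → Prop
  | Sum.inl v => IsBoundary face v
  | Sum.inr _ => True

/-- The positively oriented faces of the double: those of `K`, and the reversed ones of `K*`. -/
def double (face : V → V → V → Prop) (x y z : DoubleVertex face) : Prop :=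
  (InTop x ∧ InTop y ∧ InTop z ∧ face (under x) (under y) (under z)) ∨
  (InBot x ∧ InBot y ∧ InBot z ∧ face (under x) (under z) (under y))

/-- The combinatorial condition of Dubejko for the multiset of vertices in which `v` has
multiplicity `k v`: every simple closed edge path enclosing exactly `l` points of the multiset
(counted with multiplicity) has at least `2 l + 3` edges.  The path is `c : ZMod n → V`; the set of
faces enclosed by it is `S`; a vertex is inside if it is on a face in `S` but not on the path. -/
def DubejkoCondition [Fintype V] (face : V → V → V → Prop) (k : V → ℕ) : Prop :=
  ∀ S : V → V → V → Prop, (∀ u v w, S u v w → face u v w) → (∀ u v w, S u v w → S v w u) →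
    ∀ n : ℕ, 3 ≤ n → ∀ c : ZMod n → V, Function.Injective c →
      (∀ u v, BoundaryEdge S u v ↔ ∃ i, u = c i ∧ v = c (i + 1)) →
      ∀ l : ℕ, (l = ∑ᶠ (v : V) (_ : (∃ u w, S v u w) ∧ ¬ IsBoundary S v), k v) → 2 * l + 3 ≤ n

end Combinatorics

/-! ### Packings of the disc by Euclidean circles -/

section Disc

variable {V : Type}

open Classical in
/-- The sum of the face angles at `v` (Euclidean angles at the centre of the circle of `v`). -/
noncomputable def planeAngleSum [Fintype V] (face : V → V → V → Prop) (ctr : V → ℂ) (v : V) : ℝ :=
  ∑ p : V × V, if face v p.1 p.2 then EuclideanGeometry.angle (ctr p.1) (ctr v) (ctr p.2) else 0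

/-- A circle packing of the complex in the unit disc, with branch multiplicities `k`, whose
boundary circles are horocycles: circles with centres `ctr v` and radii `rad v`; for every face
the three circles are mutually (externally) tangent and their centres are positively oriented; the
circles of interior vertices lie in the open unit disc, those of boundary vertices are internally
tangent to the unit circle; the face angles at an interior vertex `v` sum to `2π(1 + k v)`. -/
structure HorocyclePacking [Fintype V] (face : V → V → V → Prop) (k : V → ℕ) where
  ctr : V → ℂ
  rad : V → ℝ
  rad_pos : ∀ v, 0 < rad v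
  tangent : ∀ u v w, face u v w → dist (ctr u) (ctr v) = rad u + rad v
  oriented : ∀ u v w, face u v w →
    0 < ((ctr w - ctr u) * (starRingEnd ℂ) (ctr v - ctr u)).im
  interior : ∀ v, ¬ IsBoundary face v → ‖ctr v‖ + rad v < 1
  horocycle : ∀ v, IsBoundary face v → ‖ctr v‖ + rad v = 1
  branch : ∀ v, ¬ IsBoundary face v → planeAngleSum face ctr v = 2 * π * (1 + k v)

/-- `k` is the multiplicity function of a branch structure: only interior vertices have positive
multiplicity, and there is a packing in the unit disc with this branch set all of whose boundary
circles are horocycles. -/
def IsBranchStructure [Fintype V] (face : V → V → V → Prop) (k : V → ℕ) : Prop :=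
  (∀ v, IsBoundary face v → k v = 0) ∧ Nonempty (HorocyclePacking face k)

end Disc

/-! ### Packings of the sphere by spherical circles -/

section Sphere

/-- Euclidean three-space; the Riemann sphere is its unit sphere. -/
abbrev E3 : Type := EuclideanSpace ℝ (Fin 3)

variable {W : Type}

/-- A circle packing on the unit sphere: the circle of `v` bounds the spherical disc with centre
`ctr v` and spherical radius `rad v`; for every face the three circles are mutually (externally)
tangent (the spherical distance of the centres is the sum of the radii, and it is less than `π`),
and the triple of centres is positively oriented (for the orientation of the sphere by its outer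
normal). -/
structure SpherePacking (face : W → W → W → Prop) where
  ctr : W → E3
  rad : W → ℝ
  norm_ctr : ∀ v, ‖ctr v‖ = 1
  rad_pos : ∀ v, 0 < rad v
  rad_lt : ∀ v, rad v < π
  tangent : ∀ u v w, face u v w →
    rad u + rad v < π ∧ inner ℝ (ctr u) (ctr v) = cos (rad u + rad v)
  oriented : ∀ u v w, face u v w →
    0 < Matrix.det !![ctr u 0, ctr u 1, ctr u 2; ctr v 0, ctr v 1, ctr v 2;
      ctr w 0, ctr w 1, ctr w 2]

/-- The spherical angle at `x` of the geodesic triangle with vertices `x, y, z` on the unit
sphere: the angle between the directions tangent to the sphere at `x` which point to `y` and to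
`z`. -/
noncomputable def sphericalAngle (x y z : E3) : ℝ :=
  InnerProductGeometry.angle (y - (inner ℝ x y) • x) (z - (inner ℝ x z) • x)

namespace SpherePacking

variable {face : W → W → W → Prop}

/-- The circle of the vertex `v`, as a subset of the unit sphere. -/
def circle (P : SpherePacking face) (v : W) : Set (Metric.sphere (0 : E3) 1) :=
  {x | inner ℝ (x : E3) (P.ctr v) = cos (P.rad v)}

open Classical in
/-- The sum of the face angles at the centre of the circle of `v`. -/
noncomputable def angleSum [Fintype W] (P : SpherePacking face) (v : W) : ℝ :=
  ∑ p : W × W, if face v p.1 p.2 then sphericalAngle (P.ctr v) (P.ctr p.1) (P.ctr p.2) else 0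

/-- The branch set of the packing (of a complex without boundary) is the multiset in which `v` has
multiplicity `k v`. -/
def HasBranchSet [Fintype W] (P : SpherePacking face) (k : W → ℕ) : Prop :=
  ∀ v, P.angleSum v = 2 * π * (1 + k v)

end SpherePacking

end Sphere

end Pool.Agent.BranchedPacking
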