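import Pool.Agent.Lib_MP_ff3433_gt.Comb

/-!
# Dubejko's condition for the example
-/

namespace Pool.Agent.BranchedPacking.Ex

open Pool.Agent.BranchedPacking

/-- The branch multiplicities: simple branching at `12` and `13`. -/
def mult (v : Fin 14) : ℕ := if v = 12 ∨ v = 13 then 1 else 0

/-- If an interior vertex `v` of a set of faces is on a face, then so is the next one. -/
lemma next_face {S : Fin 14 → Fin 14 → Fin 14 → Prop} (hS : ∀ u v w, S u v w → K u v w)
    (hrot : ∀ u v w, S u v w → S v w u) {v u w x : Fin 14} (hv : ¬ IsBoundary S v)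
    (h : S v u w) (hx : K v w x) : S v w x := by
  have h1 : ∃ y, S w v y := ⟨u, hrot _ _ _ (hrot _ _ _ h)⟩
  have h2 : ∃ y, S v w y := by
    by_contra hcon
    push Not at hcon
    exact hv ⟨w, Or.inr ⟨h1, hcon⟩⟩
  obtain ⟨y, hy⟩ := h2
  have : y = x := surface_K.edge v w y x (hS _ _ _ hy) hx
  rw [← this]; exact hy

/-- A cyclic chain of implications. -/
lemma cyc_all {p : Fin 9 → Prop} (h : ∀ i, p i → p (i + 1)) (h0 : ∃ i, p i) : ∀ j, p j := by
  obtain ⟨i, hi⟩ := h0
  have h1 := h _ hi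
  have h2 := h _ h1
  have h3 := h _ h2
  have h4 := h _ h3
  have h5 := h _ h4
  have h6 := h _ h5
  have h7 := h _ h6
  have h8 := h _ h7
  intro j
  have hj : j = i ∨ j = i + 1 ∨ j = i + 1 + 1 ∨ j = i + 1 + 1 + 1 ∨ j = i + 1 + 1 + 1 + 1 ∨
      j = i + 1 + 1 + 1 + 1 + 1 ∨ j = i + 1 + 1 + 1 + 1 + 1 + 1 ∨
      j = i + 1 + 1 + 1 + 1 + 1 + 1 + 1 ∨ j = i + 1 + 1 + 1 + 1 + 1 + 1 + 1 + 1 := by
    clear h h1 h2 h3 h4 h5 h6 h7 h8 hi
    revert i j
    decide +kernel
  rcases hj with e | e | e | e | e | e | e | e | e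
  · rw [e]; exact hi
  · rw [e]; exact h1
  · rw [e]; exact h2
  · rw [e]; exact h3
  · rw [e]; exact h4
  · rw [e]; exact h5
  · rw [e]; exact h6
  · rw [e]; exact h7
  · rw [e]; exact h8

/-- the neighbours of `12` in order -/
def nbr12 : Fin 9 → Fin 14 := ![0, 8, 9, 10, 11, 1, 4, 3, 2]

/-- the neighbours of `13` in order -/
def nbr13 : Fin 9 → Fin 14 := ![0, 5, 6, 7, 1, 11, 10, 9, 8]

lemma star12 {S : Fin 14 → Fin 14 → Fin 14 → Prop} (hS : ∀ u v w, S u v w → K u v w)
    (hrot : ∀ u v w, S u v w → S v w u) (hv : ¬ IsBoundary S 12) (h : ∃ u w, S 12 u w) :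
    ∀ i, S 12 (nbr12 i) (nbr12 (i + 1)) := by
  have hK : ∀ i, K 12 (nbr12 (i + 1)) (nbr12 (i + 1 + 1)) := by decide +kernel
  have hcases : ∀ u w, K 12 u w → ∃ i, u = nbr12 i ∧ w = nbr12 (i + 1) := by decide +kernel
  apply cyc_all (p := fun i => S 12 (nbr12 i) (nbr12 (i + 1)))
  · intro i hi
    exact next_face hS hrot hv hi (hK i)
  · obtain ⟨u, w, huw⟩ := h
    obtain ⟨i, rfl, rfl⟩ := hcases u w (hS _ _ _ huw)
    exact ⟨i, huw⟩

lemma star13 {S : Fin 14 → Fin 14 → Fin 14 → Prop} (hS : ∀ u v w, S u v w → K u v w)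
    (hrot : ∀ u v w, S u v w → S v w u) (hv : ¬ IsBoundary S 13) (h : ∃ u w, S 13 u w) :
    ∀ i, S 13 (nbr13 i) (nbr13 (i + 1)) := by
  have hK : ∀ i, K 13 (nbr13 (i + 1)) (nbr13 (i + 1 + 1)) := by decide +kernel
  have hcases : ∀ u w, K 13 u w → ∃ i, u = nbr13 i ∧ w = nbr13 (i + 1) := by decide +kernel
  apply cyc_all (p := fun i => S 13 (nbr13 i) (nbr13 (i + 1)))
  · intro i hi
    exact next_face hS hrot hv hi (hK i)
  · obtain ⟨u, w, huw⟩ := h
    obtain ⟨i, rfl, rfl⟩ := hcases u w (hS _ _ _ huw)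
    exact ⟨i, huw⟩

lemma no_K {u v : Fin 14} (h : ¬ tab u v < 14) (w : Fin 14) : ¬ K u v w :=
  fun hw => h ((exists_K_iff u v).1 ⟨w, hw⟩)

lemma dubejko_K : DubejkoCondition K mult := by
  classical
  intro S hS hrot n hn c _ hc l hl
  haveI : NeZero n := ⟨by omega⟩
  have hl' : l = (if ((∃ u w, S 12 u w) ∧ ¬ IsBoundary S 12) then 1 else 0) +
      (if ((∃ u w, S 13 u w) ∧ ¬ IsBoundary S 13) then 1 else 0) := by
    rw [hl]
    simp only [finsum_eq_if]
    rw [finsum_eq_sum_of_fintype]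
    have : ∀ v : Fin 14, (if ((∃ u w, S v u w) ∧ ¬ IsBoundary S v) then mult v else 0) =
        (if v = 12 then (if ((∃ u w, S 12 u w) ∧ ¬ IsBoundary S 12) then 1 else 0) else 0) +
        (if v = 13 then (if ((∃ u w, S 13 u w) ∧ ¬ IsBoundary S 13) then 1 else 0) else 0) := by
      intro v
      by_cases h12 : v = 12
      · subst h12; simp [mult]
      · by_cases h13 : v = 13
        · subst h13; simp [mult]
        · simp [mult, h12, h13]
    rw [Finset.sum_congr rfl (fun v _ => this v), Finset.sum_add_distrib]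
    simp
  have hcard : ∀ T : Finset (Fin 14), (∀ v ∈ T, ∃ i, v = c i) → T.card ≤ n := by
    intro T hT
    have h1 : T ⊆ Finset.univ.image c := by
      intro v hv
      obtain ⟨i, hi⟩ := hT v hv
      exact Finset.mem_image.2 ⟨i, Finset.mem_univ _, hi.symm⟩
    calc T.card ≤ (Finset.univ.image c).card := Finset.card_le_card h1
      _ ≤ (Finset.univ : Finset (ZMod n)).card := Finset.card_image_le
      _ = n := by rw [Finset.card_univ, ZMod.card]
  have bd : ∀ x u v, S x u v → ¬ tab v u < 14 → (∃ i, u = c i) ∧ (∃ i, v = c i) := by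
    intro x u v h h'
    have : BoundaryEdge S u v :=
      ⟨⟨x, hrot _ _ _ h⟩, fun w hw => no_K h' w (hS _ _ _ hw)⟩
    obtain ⟨i, hi, hi'⟩ := (hc u v).1 this
    exact ⟨⟨i, hi⟩, ⟨i + 1, hi'⟩⟩
  have b12 : ((∃ u w, S 12 u w) ∧ ¬ IsBoundary S 12) →
      ∀ v ∈ ({0, 1, 2, 3, 4} : Finset (Fin 14)), ∃ i, v = c i := by
    rintro ⟨h1, h2⟩
    have f := star12 hS hrot h2 h1
    have f1 : S 12 2 0 := f 8
    have f2 : S 12 3 2 := f 7
    have f3 : S 12 4 3 := f 6
    have f4 : S 12 1 4 := f 5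
    have g1 := bd _ _ _ f1 (by decide +kernel)
    have g2 := bd _ _ _ f2 (by decide +kernel)
    have g3 := bd _ _ _ f3 (by decide +kernel)
    have g4 := bd _ _ _ f4 (by decide +kernel)
    intro v hv
    simp only [Finset.mem_insert, Finset.mem_singleton] at hv
    rcases hv with rfl | rfl | rfl | rfl | rfl
    · exact g1.2
    · exact g4.1
    · exact g1.1
    · exact g2.1
    · exact g3.1
  have b13 : ((∃ u w, S 13 u w) ∧ ¬ IsBoundary S 13) →
      ∀ v ∈ ({0, 1, 5, 6, 7} : Finset (Fin 14)), ∃ i, v = c i := by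
    rintro ⟨h1, h2⟩
    have f := star13 hS hrot h2 h1
    have f1 : S 13 0 5 := f 0
    have f2 : S 13 5 6 := f 1
    have f3 : S 13 6 7 := f 2
    have f4 : S 13 7 1 := f 3
    have g1 := bd _ _ _ f1 (by decide +kernel)
    have g2 := bd _ _ _ f2 (by decide +kernel)
    have g3 := bd _ _ _ f3 (by decide +kernel)
    have g4 := bd _ _ _ f4 (by decide +kernel)
    intro v hv
    simp only [Finset.mem_insert, Finset.mem_singleton] at hv
    rcases hv with rfl | rfl | rfl | rfl | rfl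
    · exact g1.1
    · exact g4.2
    · exact g1.2
    · exact g2.2
    · exact g3.2
  by_cases h12 : ((∃ u w, S 12 u w) ∧ ¬ IsBoundary S 12)
  · by_cases h13 : ((∃ u w, S 13 u w) ∧ ¬ IsBoundary S 13)
    · rw [if_pos h12, if_pos h13] at hl'
      have := hcard {0, 1, 2, 3, 4, 5, 6, 7} (by
        intro v hv
        simp only [Finset.mem_insert, Finset.mem_singleton] at hv
        rcases hv with rfl | rfl | rfl | rfl | rfl | rfl | rfl | rfl
        · exact b12 h12 0 (by decide)
        · exact b12 h12 1 (by decide)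
        · exact b12 h12 2 (by decide)
        · exact b12 h12 3 (by decide)
        · exact b12 h12 4 (by decide)
        · exact b13 h13 5 (by decide)
        · exact b13 h13 6 (by decide)
        · exact b13 h13 7 (by decide))
      have h8 : ({0, 1, 2, 3, 4, 5, 6, 7} : Finset (Fin 14)).card = 8 := by decide
      omega
    · rw [if_pos h12, if_neg h13] at hl'
      have := hcard _ (b12 h12)
      have h8 : ({0, 1, 2, 3, 4} : Finset (Fin 14)).card = 5 := by decide
      omega
  · by_cases h13 : ((∃ u w, S 13 u w) ∧ ¬ IsBoundary S 13)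
    · rw [if_neg h12, if_pos h13] at hl'
      have := hcard _ (b13 h13)
      have h8 : ({0, 1, 5, 6, 7} : Finset (Fin 14)).card = 5 := by decide
      omega
    · rw [if_neg h12, if_neg h13] at hl'
      omega

end Pool.Agent.BranchedPacking.Ex
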