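import Pool.Agent.Lib_MP_ff3433_gt.Sphere
import Pool.Agent.Lib_MP_ff3433_gt.Dubejko

/-!
# The spherical packings of the double, from numerical data
-/

namespace Pool.Agent.BranchedPacking.Ex

open Pool.Agent.BranchedPacking Real InnerProductGeometry

/-- The numbers describing a symmetric spherical packing. -/
structure Nums where
  (m n0 k ξ η P1 P2 q1 q2 s1 R1 R2 t1 t2 u1 u2 : ℝ)
  m_pos : 0 < m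
  ξ_pos : 0 < ξ
  η_pos : 0 < η
  -- norms
  na : m ^ 2 = 1 + n0 ^ 2
  nC1 : P1 ^ 2 + s1 ^ 2 = 1 + q1 ^ 2
  nC2 : P2 ^ 2 = 1 + q2 ^ 2
  nB1 : R1 ^ 2 + u1 ^ 2 = 1 + t1 ^ 2
  nB2 : R2 ^ 2 + u2 ^ 2 = 1 + t2 ^ 2
  nf : ξ ^ 2 + η ^ 2 = 1 + k ^ 2
  -- tangencies in the chains
  tC0 : -(m * s1) - n0 * q1 = -1
  tC1 : P1 * P2 - q1 * q2 = -1
  tB0 : -(m * u1) - n0 * t1 = -1
  tB1 : R1 * R2 + u1 * u2 - t1 * t2 = -1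
  tB2 : R2 * R2 - u2 * u2 - t2 * t2 = -1
  pC0 : 0 < n0 + q1
  pC1 : 0 < q1 + q2
  pB0 : 0 < n0 + t1
  pB1 : 0 < t1 + t2
  pB2 : 0 < t2
  dC0 : 0 < P1 * m
  dC1 : 0 < -(P2 * s1)
  dB0 : 0 < R1 * m
  dB1 : 0 < R1 * u2 - R2 * u1
  dB2 : 0 < -(R2 * u2)
  -- tangencies with the branch circles
  fa : k * n0 = 1
  fC1 : ξ * P1 - k * q1 = -1
  fC2 : ξ * P2 - k * q2 = -1
  fB1 : η * R1 - k * t1 = -1
  fB2 : η * R2 - k * t2 = -1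
  qa : 0 < k + n0
  qC1 : 0 < k + q1
  qC2 : 0 < k + q2
  qB1 : 0 < k + t1
  qB2 : 0 < k + t2

namespace Nums

variable (N : Nums)

/-- coordinates -/
def cx : Fin 14 → ℝ := ![0, 0, N.P1, N.P2, N.P1, -N.P1, -N.P2, -N.P1, 0, 0, 0, 0, N.ξ, -N.ξ]
def cy : Fin 14 → ℝ := ![0, 0, 0, 0, 0, 0, 0, 0, N.R1, N.R2, N.R2, N.R1, N.η, N.η]
def cz : Fin 14 → ℝ :=
  ![-N.m, N.m, N.s1, 0, -N.s1, N.s1, 0, -N.s1, N.u1, N.u2, -N.u2, -N.u1, 0, 0]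
def cq : Fin 14 → ℝ :=
  ![N.n0, N.n0, N.q1, N.q2, N.q1, N.q1, N.q2, N.q1, N.t1, N.t2, N.t2, N.t1, N.k, N.k]

/-- tangency of two vertices -/
def E (u v : Fin 14) : Prop :=
  N.cx u * N.cx v + N.cy u * N.cy v + N.cz u * N.cz v - N.cq u * N.cq v = -1 ∧
    0 < N.cq u + N.cq v

lemma E_symm {u v : Fin 14} (h : N.E u v) : N.E v u :=
  ⟨by linarith [h.1], by linarith [h.2]⟩

/-- orientation of a face -/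
def D (u v w : Fin 14) : Prop :=
  0 < N.cx u * (N.cy v * N.cz w - N.cz v * N.cy w) -
    N.cy u * (N.cx v * N.cz w - N.cz v * N.cx w) +
      N.cz u * (N.cx v * N.cy w - N.cy v * N.cx w)

lemma D_rot {u v w : Fin 14} (h : N.D u v w) : N.D v w u := by
  unfold D at *
  refine lt_of_lt_of_eq h ?_
  ring

/-- everything about a face -/
def F (u v w : Fin 14) : Prop := N.E u v ∧ N.E v w ∧ N.E w u ∧ N.D u v w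

lemma F_rot {u v w : Fin 14} (h : N.F u v w) : N.F v w u :=
  ⟨h.2.1, h.2.2.1, h.1, N.D_rot h.2.2.2⟩

/-- base faces -/
def base : List (Fin 14 × Fin 14 × Fin 14) :=
  [(12, 2, 0), (13, 0, 5), (12, 3, 2), (13, 5, 6), (12, 4, 3), (13, 6, 7), (12, 1, 4), (13, 7, 1),
   (12, 0, 8), (13, 8, 0), (12, 8, 9), (13, 9, 8), (12, 9, 10), (13, 10, 9), (12, 10, 11),
   (13, 11, 10), (12, 11, 1), (13, 1, 11)]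

lemma K_base : ∀ u v w, K u v w →
    ((u, v, w) ∈ base ∨ (v, w, u) ∈ base ∨ (w, u, v) ∈ base) := by decide +kernel

lemma e_12_2 : N.E 12 2 := by
  refine ⟨?_, ?_⟩
  · show N.ξ * N.P1 + N.η * 0 + 0 * N.s1 - N.k * N.q1 = -1
    linarith [N.fa, N.fC1, N.fC2, N.fB1, N.fB2, N.tC0, N.tC1, N.tB0, N.tB1, N.tB2]
  · show 0 < N.k + N.q1
    linarith [N.pC0, N.pC1, N.pB0, N.pB1, N.pB2, N.qa, N.qC1, N.qC2, N.qB1, N.qB2]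

lemma e_2_0 : N.E 2 0 := by
  refine ⟨?_, ?_⟩
  · show N.P1 * 0 + 0 * 0 + N.s1 * (-N.m) - N.q1 * N.n0 = -1
    linarith [N.fa, N.fC1, N.fC2, N.fB1, N.fB2, N.tC0, N.tC1, N.tB0, N.tB1, N.tB2]
  · show 0 < N.q1 + N.n0
    linarith [N.pC0, N.pC1, N.pB0, N.pB1, N.pB2, N.qa, N.qC1, N.qC2, N.qB1, N.qB2]

lemma e_0_12 : N.E 0 12 := by
  refine ⟨?_, ?_⟩
  · show 0 * N.ξ + 0 * N.η + (-N.m) * 0 - N.n0 * N.k = -1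
    linarith [N.fa, N.fC1, N.fC2, N.fB1, N.fB2, N.tC0, N.tC1, N.tB0, N.tB1, N.tB2]
  · show 0 < N.n0 + N.k
    linarith [N.pC0, N.pC1, N.pB0, N.pB1, N.pB2, N.qa, N.qC1, N.qC2, N.qB1, N.qB2]

lemma e_13_0 : N.E 13 0 := by
  refine ⟨?_, ?_⟩
  · show (-N.ξ) * 0 + N.η * 0 + 0 * (-N.m) - N.k * N.n0 = -1
    linarith [N.fa, N.fC1, N.fC2, N.fB1, N.fB2, N.tC0, N.tC1, N.tB0, N.tB1, N.tB2]
  · show 0 < N.k + N.n0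
    linarith [N.pC0, N.pC1, N.pB0, N.pB1, N.pB2, N.qa, N.qC1, N.qC2, N.qB1, N.qB2]

lemma e_0_5 : N.E 0 5 := by
  refine ⟨?_, ?_⟩
  · show 0 * (-N.P1) + 0 * 0 + (-N.m) * N.s1 - N.n0 * N.q1 = -1
    linarith [N.fa, N.fC1, N.fC2, N.fB1, N.fB2, N.tC0, N.tC1, N.tB0, N.tB1, N.tB2]
  · show 0 < N.n0 + N.q1
    linarith [N.pC0, N.pC1, N.pB0, N.pB1, N.pB2, N.qa, N.qC1, N.qC2, N.qB1, N.qB2]

lemma e_5_13 : N.E 5 13 := by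
  refine ⟨?_, ?_⟩
  · show (-N.P1) * (-N.ξ) + 0 * N.η + N.s1 * 0 - N.q1 * N.k = -1
    linarith [N.fa, N.fC1, N.fC2, N.fB1, N.fB2, N.tC0, N.tC1, N.tB0, N.tB1, N.tB2]
  · show 0 < N.q1 + N.k
    linarith [N.pC0, N.pC1, N.pB0, N.pB1, N.pB2, N.qa, N.qC1, N.qC2, N.qB1, N.qB2]

lemma e_12_3 : N.E 12 3 := by
  refine ⟨?_, ?_⟩
  · show N.ξ * N.P2 + N.η * 0 + 0 * 0 - N.k * N.q2 = -1
    linarith [N.fa, N.fC1, N.fC2, N.fB1, N.fB2, N.tC0, N.tC1, N.tB0, N.tB1, N.tB2]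
  · show 0 < N.k + N.q2
    linarith [N.pC0, N.pC1, N.pB0, N.pB1, N.pB2, N.qa, N.qC1, N.qC2, N.qB1, N.qB2]

lemma e_3_2 : N.E 3 2 := by
  refine ⟨?_, ?_⟩
  · show N.P2 * N.P1 + 0 * 0 + 0 * N.s1 - N.q2 * N.q1 = -1
    linarith [N.fa, N.fC1, N.fC2, N.fB1, N.fB2, N.tC0, N.tC1, N.tB0, N.tB1, N.tB2]
  · show 0 < N.q2 + N.q1
    linarith [N.pC0, N.pC1, N.pB0, N.pB1, N.pB2, N.qa, N.qC1, N.qC2, N.qB1, N.qB2]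

lemma e_5_6 : N.E 5 6 := by
  refine ⟨?_, ?_⟩
  · show (-N.P1) * (-N.P2) + 0 * 0 + N.s1 * 0 - N.q1 * N.q2 = -1
    linarith [N.fa, N.fC1, N.fC2, N.fB1, N.fB2, N.tC0, N.tC1, N.tB0, N.tB1, N.tB2]
  · show 0 < N.q1 + N.q2
    linarith [N.pC0, N.pC1, N.pB0, N.pB1, N.pB2, N.qa, N.qC1, N.qC2, N.qB1, N.qB2]

lemma e_6_13 : N.E 6 13 := by
  refine ⟨?_, ?_⟩
  · show (-N.P2) * (-N.ξ) + 0 * N.η + 0 * 0 - N.q2 * N.k = -1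
    linarith [N.fa, N.fC1, N.fC2, N.fB1, N.fB2, N.tC0, N.tC1, N.tB0, N.tB1, N.tB2]
  · show 0 < N.q2 + N.k
    linarith [N.pC0, N.pC1, N.pB0, N.pB1, N.pB2, N.qa, N.qC1, N.qC2, N.qB1, N.qB2]

lemma e_12_4 : N.E 12 4 := by
  refine ⟨?_, ?_⟩
  · show N.ξ * N.P1 + N.η * 0 + 0 * (-N.s1) - N.k * N.q1 = -1
    linarith [N.fa, N.fC1, N.fC2, N.fB1, N.fB2, N.tC0, N.tC1, N.tB0, N.tB1, N.tB2]
  · show 0 < N.k + N.q1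
    linarith [N.pC0, N.pC1, N.pB0, N.pB1, N.pB2, N.qa, N.qC1, N.qC2, N.qB1, N.qB2]

lemma e_4_3 : N.E 4 3 := by
  refine ⟨?_, ?_⟩
  · show N.P1 * N.P2 + 0 * 0 + (-N.s1) * 0 - N.q1 * N.q2 = -1
    linarith [N.fa, N.fC1, N.fC2, N.fB1, N.fB2, N.tC0, N.tC1, N.tB0, N.tB1, N.tB2]
  · show 0 < N.q1 + N.q2
    linarith [N.pC0, N.pC1, N.pB0, N.pB1, N.pB2, N.qa, N.qC1, N.qC2, N.qB1, N.qB2]

lemma e_6_7 : N.E 6 7 := by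
  refine ⟨?_, ?_⟩
  · show (-N.P2) * (-N.P1) + 0 * 0 + 0 * (-N.s1) - N.q2 * N.q1 = -1
    linarith [N.fa, N.fC1, N.fC2, N.fB1, N.fB2, N.tC0, N.tC1, N.tB0, N.tB1, N.tB2]
  · show 0 < N.q2 + N.q1
    linarith [N.pC0, N.pC1, N.pB0, N.pB1, N.pB2, N.qa, N.qC1, N.qC2, N.qB1, N.qB2]

lemma e_7_13 : N.E 7 13 := by
  refine ⟨?_, ?_⟩
  · show (-N.P1) * (-N.ξ) + 0 * N.η + (-N.s1) * 0 - N.q1 * N.k = -1
    linarith [N.fa, N.fC1, N.fC2, N.fB1, N.fB2, N.tC0, N.tC1, N.tB0, N.tB1, N.tB2]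
  · show 0 < N.q1 + N.k
    linarith [N.pC0, N.pC1, N.pB0, N.pB1, N.pB2, N.qa, N.qC1, N.qC2, N.qB1, N.qB2]

lemma e_12_1 : N.E 12 1 := by
  refine ⟨?_, ?_⟩
  · show N.ξ * 0 + N.η * 0 + 0 * N.m - N.k * N.n0 = -1
    linarith [N.fa, N.fC1, N.fC2, N.fB1, N.fB2, N.tC0, N.tC1, N.tB0, N.tB1, N.tB2]
  · show 0 < N.k + N.n0
    linarith [N.pC0, N.pC1, N.pB0, N.pB1, N.pB2, N.qa, N.qC1, N.qC2, N.qB1, N.qB2]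

lemma e_1_4 : N.E 1 4 := by
  refine ⟨?_, ?_⟩
  · show 0 * N.P1 + 0 * 0 + N.m * (-N.s1) - N.n0 * N.q1 = -1
    linarith [N.fa, N.fC1, N.fC2, N.fB1, N.fB2, N.tC0, N.tC1, N.tB0, N.tB1, N.tB2]
  · show 0 < N.n0 + N.q1
    linarith [N.pC0, N.pC1, N.pB0, N.pB1, N.pB2, N.qa, N.qC1, N.qC2, N.qB1, N.qB2]

lemma e_7_1 : N.E 7 1 := by
  refine ⟨?_, ?_⟩
  · show (-N.P1) * 0 + 0 * 0 + (-N.s1) * N.m - N.q1 * N.n0 = -1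
    linarith [N.fa, N.fC1, N.fC2, N.fB1, N.fB2, N.tC0, N.tC1, N.tB0, N.tB1, N.tB2]
  · show 0 < N.q1 + N.n0
    linarith [N.pC0, N.pC1, N.pB0, N.pB1, N.pB2, N.qa, N.qC1, N.qC2, N.qB1, N.qB2]

lemma e_1_13 : N.E 1 13 := by
  refine ⟨?_, ?_⟩
  · show 0 * (-N.ξ) + 0 * N.η + N.m * 0 - N.n0 * N.k = -1
    linarith [N.fa, N.fC1, N.fC2, N.fB1, N.fB2, N.tC0, N.tC1, N.tB0, N.tB1, N.tB2]
  · show 0 < N.n0 + N.k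
    linarith [N.pC0, N.pC1, N.pB0, N.pB1, N.pB2, N.qa, N.qC1, N.qC2, N.qB1, N.qB2]

lemma e_0_8 : N.E 0 8 := by
  refine ⟨?_, ?_⟩
  · show 0 * 0 + 0 * N.R1 + (-N.m) * N.u1 - N.n0 * N.t1 = -1
    linarith [N.fa, N.fC1, N.fC2, N.fB1, N.fB2, N.tC0, N.tC1, N.tB0, N.tB1, N.tB2]
  · show 0 < N.n0 + N.t1
    linarith [N.pC0, N.pC1, N.pB0, N.pB1, N.pB2, N.qa, N.qC1, N.qC2, N.qB1, N.qB2]

lemma e_8_12 : N.E 8 12 := by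
  refine ⟨?_, ?_⟩
  · show 0 * N.ξ + N.R1 * N.η + N.u1 * 0 - N.t1 * N.k = -1
    linarith [N.fa, N.fC1, N.fC2, N.fB1, N.fB2, N.tC0, N.tC1, N.tB0, N.tB1, N.tB2]
  · show 0 < N.t1 + N.k
    linarith [N.pC0, N.pC1, N.pB0, N.pB1, N.pB2, N.qa, N.qC1, N.qC2, N.qB1, N.qB2]

lemma e_13_8 : N.E 13 8 := by
  refine ⟨?_, ?_⟩
  · show (-N.ξ) * 0 + N.η * N.R1 + 0 * N.u1 - N.k * N.t1 = -1
    linarith [N.fa, N.fC1, N.fC2, N.fB1, N.fB2, N.tC0, N.tC1, N.tB0, N.tB1, N.tB2]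
  · show 0 < N.k + N.t1
    linarith [N.pC0, N.pC1, N.pB0, N.pB1, N.pB2, N.qa, N.qC1, N.qC2, N.qB1, N.qB2]

lemma e_8_9 : N.E 8 9 := by
  refine ⟨?_, ?_⟩
  · show 0 * 0 + N.R1 * N.R2 + N.u1 * N.u2 - N.t1 * N.t2 = -1
    linarith [N.fa, N.fC1, N.fC2, N.fB1, N.fB2, N.tC0, N.tC1, N.tB0, N.tB1, N.tB2]
  · show 0 < N.t1 + N.t2
    linarith [N.pC0, N.pC1, N.pB0, N.pB1, N.pB2, N.qa, N.qC1, N.qC2, N.qB1, N.qB2]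

lemma e_9_12 : N.E 9 12 := by
  refine ⟨?_, ?_⟩
  · show 0 * N.ξ + N.R2 * N.η + N.u2 * 0 - N.t2 * N.k = -1
    linarith [N.fa, N.fC1, N.fC2, N.fB1, N.fB2, N.tC0, N.tC1, N.tB0, N.tB1, N.tB2]
  · show 0 < N.t2 + N.k
    linarith [N.pC0, N.pC1, N.pB0, N.pB1, N.pB2, N.qa, N.qC1, N.qC2, N.qB1, N.qB2]

lemma e_13_9 : N.E 13 9 := by
  refine ⟨?_, ?_⟩
  · show (-N.ξ) * 0 + N.η * N.R2 + 0 * N.u2 - N.k * N.t2 = -1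
    linarith [N.fa, N.fC1, N.fC2, N.fB1, N.fB2, N.tC0, N.tC1, N.tB0, N.tB1, N.tB2]
  · show 0 < N.k + N.t2
    linarith [N.pC0, N.pC1, N.pB0, N.pB1, N.pB2, N.qa, N.qC1, N.qC2, N.qB1, N.qB2]

lemma e_9_10 : N.E 9 10 := by
  refine ⟨?_, ?_⟩
  · show 0 * 0 + N.R2 * N.R2 + N.u2 * (-N.u2) - N.t2 * N.t2 = -1
    linarith [N.fa, N.fC1, N.fC2, N.fB1, N.fB2, N.tC0, N.tC1, N.tB0, N.tB1, N.tB2]
  · show 0 < N.t2 + N.t2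
    linarith [N.pC0, N.pC1, N.pB0, N.pB1, N.pB2, N.qa, N.qC1, N.qC2, N.qB1, N.qB2]

lemma e_10_12 : N.E 10 12 := by
  refine ⟨?_, ?_⟩
  · show 0 * N.ξ + N.R2 * N.η + (-N.u2) * 0 - N.t2 * N.k = -1
    linarith [N.fa, N.fC1, N.fC2, N.fB1, N.fB2, N.tC0, N.tC1, N.tB0, N.tB1, N.tB2]
  · show 0 < N.t2 + N.k
    linarith [N.pC0, N.pC1, N.pB0, N.pB1, N.pB2, N.qa, N.qC1, N.qC2, N.qB1, N.qB2]

lemma e_13_10 : N.E 13 10 := by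
  refine ⟨?_, ?_⟩
  · show (-N.ξ) * 0 + N.η * N.R2 + 0 * (-N.u2) - N.k * N.t2 = -1
    linarith [N.fa, N.fC1, N.fC2, N.fB1, N.fB2, N.tC0, N.tC1, N.tB0, N.tB1, N.tB2]
  · show 0 < N.k + N.t2
    linarith [N.pC0, N.pC1, N.pB0, N.pB1, N.pB2, N.qa, N.qC1, N.qC2, N.qB1, N.qB2]

lemma e_10_11 : N.E 10 11 := by
  refine ⟨?_, ?_⟩
  · show 0 * 0 + N.R2 * N.R1 + (-N.u2) * (-N.u1) - N.t2 * N.t1 = -1
    linarith [N.fa, N.fC1, N.fC2, N.fB1, N.fB2, N.tC0, N.tC1, N.tB0, N.tB1, N.tB2]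
  · show 0 < N.t2 + N.t1
    linarith [N.pC0, N.pC1, N.pB0, N.pB1, N.pB2, N.qa, N.qC1, N.qC2, N.qB1, N.qB2]

lemma e_11_12 : N.E 11 12 := by
  refine ⟨?_, ?_⟩
  · show 0 * N.ξ + N.R1 * N.η + (-N.u1) * 0 - N.t1 * N.k = -1
    linarith [N.fa, N.fC1, N.fC2, N.fB1, N.fB2, N.tC0, N.tC1, N.tB0, N.tB1, N.tB2]
  · show 0 < N.t1 + N.k
    linarith [N.pC0, N.pC1, N.pB0, N.pB1, N.pB2, N.qa, N.qC1, N.qC2, N.qB1, N.qB2]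

lemma e_13_11 : N.E 13 11 := by
  refine ⟨?_, ?_⟩
  · show (-N.ξ) * 0 + N.η * N.R1 + 0 * (-N.u1) - N.k * N.t1 = -1
    linarith [N.fa, N.fC1, N.fC2, N.fB1, N.fB2, N.tC0, N.tC1, N.tB0, N.tB1, N.tB2]
  · show 0 < N.k + N.t1
    linarith [N.pC0, N.pC1, N.pB0, N.pB1, N.pB2, N.qa, N.qC1, N.qC2, N.qB1, N.qB2]

lemma e_11_1 : N.E 11 1 := by
  refine ⟨?_, ?_⟩
  · show 0 * 0 + N.R1 * 0 + (-N.u1) * N.m - N.t1 * N.n0 = -1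
    linarith [N.fa, N.fC1, N.fC2, N.fB1, N.fB2, N.tC0, N.tC1, N.tB0, N.tB1, N.tB2]
  · show 0 < N.t1 + N.n0
    linarith [N.pC0, N.pC1, N.pB0, N.pB1, N.pB2, N.qa, N.qC1, N.qC2, N.qB1, N.qB2]

lemma d_12_2_0 : N.D 12 2 0 := by
  show 0 < N.ξ * (0 * (-N.m) - N.s1 * 0) - N.η * (N.P1 * (-N.m) - N.s1 * 0) + 0 * (N.P1 * 0 - 0 * 0)
  linarith [mul_pos N.η_pos N.dC0, mul_pos N.η_pos N.dC1, mul_pos N.ξ_pos N.dB0,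
    mul_pos N.ξ_pos N.dB1, mul_pos N.ξ_pos N.dB2]

lemma d_13_0_5 : N.D 13 0 5 := by
  show 0 < (-N.ξ) * (0 * N.s1 - (-N.m) * 0) - N.η * (0 * N.s1 - (-N.m) * (-N.P1)) + 0 * (0 * 0 - 0 * (-N.P1))
  linarith [mul_pos N.η_pos N.dC0, mul_pos N.η_pos N.dC1, mul_pos N.ξ_pos N.dB0,
    mul_pos N.ξ_pos N.dB1, mul_pos N.ξ_pos N.dB2]

lemma d_12_3_2 : N.D 12 3 2 := by
  show 0 < N.ξ * (0 * N.s1 - 0 * 0) - N.η * (N.P2 * N.s1 - 0 * N.P1) + 0 * (N.P2 * 0 - 0 * N.P1)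
  linarith [mul_pos N.η_pos N.dC0, mul_pos N.η_pos N.dC1, mul_pos N.ξ_pos N.dB0,
    mul_pos N.ξ_pos N.dB1, mul_pos N.ξ_pos N.dB2]

lemma d_13_5_6 : N.D 13 5 6 := by
  show 0 < (-N.ξ) * (0 * 0 - N.s1 * 0) - N.η * ((-N.P1) * 0 - N.s1 * (-N.P2)) + 0 * ((-N.P1) * 0 - 0 * (-N.P2))
  linarith [mul_pos N.η_pos N.dC0, mul_pos N.η_pos N.dC1, mul_pos N.ξ_pos N.dB0,
    mul_pos N.ξ_pos N.dB1, mul_pos N.ξ_pos N.dB2]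

lemma d_12_4_3 : N.D 12 4 3 := by
  show 0 < N.ξ * (0 * 0 - (-N.s1) * 0) - N.η * (N.P1 * 0 - (-N.s1) * N.P2) + 0 * (N.P1 * 0 - 0 * N.P2)
  linarith [mul_pos N.η_pos N.dC0, mul_pos N.η_pos N.dC1, mul_pos N.ξ_pos N.dB0,
    mul_pos N.ξ_pos N.dB1, mul_pos N.ξ_pos N.dB2]

lemma d_13_6_7 : N.D 13 6 7 := by
  show 0 < (-N.ξ) * (0 * (-N.s1) - 0 * 0) - N.η * ((-N.P2) * (-N.s1) - 0 * (-N.P1)) + 0 * ((-N.P2) * 0 - 0 * (-N.P1))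
  linarith [mul_pos N.η_pos N.dC0, mul_pos N.η_pos N.dC1, mul_pos N.ξ_pos N.dB0,
    mul_pos N.ξ_pos N.dB1, mul_pos N.ξ_pos N.dB2]

lemma d_12_1_4 : N.D 12 1 4 := by
  show 0 < N.ξ * (0 * (-N.s1) - N.m * 0) - N.η * (0 * (-N.s1) - N.m * N.P1) + 0 * (0 * 0 - 0 * N.P1)
  linarith [mul_pos N.η_pos N.dC0, mul_pos N.η_pos N.dC1, mul_pos N.ξ_pos N.dB0,
    mul_pos N.ξ_pos N.dB1, mul_pos N.ξ_pos N.dB2]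

lemma d_13_7_1 : N.D 13 7 1 := by
  show 0 < (-N.ξ) * (0 * N.m - (-N.s1) * 0) - N.η * ((-N.P1) * N.m - (-N.s1) * 0) + 0 * ((-N.P1) * 0 - 0 * 0)
  linarith [mul_pos N.η_pos N.dC0, mul_pos N.η_pos N.dC1, mul_pos N.ξ_pos N.dB0,
    mul_pos N.ξ_pos N.dB1, mul_pos N.ξ_pos N.dB2]

lemma d_12_0_8 : N.D 12 0 8 := by
  show 0 < N.ξ * (0 * N.u1 - (-N.m) * N.R1) - N.η * (0 * N.u1 - (-N.m) * 0) + 0 * (0 * N.R1 - 0 * 0)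
  linarith [mul_pos N.η_pos N.dC0, mul_pos N.η_pos N.dC1, mul_pos N.ξ_pos N.dB0,
    mul_pos N.ξ_pos N.dB1, mul_pos N.ξ_pos N.dB2]

lemma d_13_8_0 : N.D 13 8 0 := by
  show 0 < (-N.ξ) * (N.R1 * (-N.m) - N.u1 * 0) - N.η * (0 * (-N.m) - N.u1 * 0) + 0 * (0 * 0 - N.R1 * 0)
  linarith [mul_pos N.η_pos N.dC0, mul_pos N.η_pos N.dC1, mul_pos N.ξ_pos N.dB0,
    mul_pos N.ξ_pos N.dB1, mul_pos N.ξ_pos N.dB2]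

lemma d_12_8_9 : N.D 12 8 9 := by
  show 0 < N.ξ * (N.R1 * N.u2 - N.u1 * N.R2) - N.η * (0 * N.u2 - N.u1 * 0) + 0 * (0 * N.R2 - N.R1 * 0)
  linarith [mul_pos N.η_pos N.dC0, mul_pos N.η_pos N.dC1, mul_pos N.ξ_pos N.dB0,
    mul_pos N.ξ_pos N.dB1, mul_pos N.ξ_pos N.dB2]

lemma d_13_9_8 : N.D 13 9 8 := by
  show 0 < (-N.ξ) * (N.R2 * N.u1 - N.u2 * N.R1) - N.η * (0 * N.u1 - N.u2 * 0) + 0 * (0 * N.R1 - N.R2 * 0)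
  linarith [mul_pos N.η_pos N.dC0, mul_pos N.η_pos N.dC1, mul_pos N.ξ_pos N.dB0,
    mul_pos N.ξ_pos N.dB1, mul_pos N.ξ_pos N.dB2]

lemma d_12_9_10 : N.D 12 9 10 := by
  show 0 < N.ξ * (N.R2 * (-N.u2) - N.u2 * N.R2) - N.η * (0 * (-N.u2) - N.u2 * 0) + 0 * (0 * N.R2 - N.R2 * 0)
  linarith [mul_pos N.η_pos N.dC0, mul_pos N.η_pos N.dC1, mul_pos N.ξ_pos N.dB0,
    mul_pos N.ξ_pos N.dB1, mul_pos N.ξ_pos N.dB2]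

lemma d_13_10_9 : N.D 13 10 9 := by
  show 0 < (-N.ξ) * (N.R2 * N.u2 - (-N.u2) * N.R2) - N.η * (0 * N.u2 - (-N.u2) * 0) + 0 * (0 * N.R2 - N.R2 * 0)
  linarith [mul_pos N.η_pos N.dC0, mul_pos N.η_pos N.dC1, mul_pos N.ξ_pos N.dB0,
    mul_pos N.ξ_pos N.dB1, mul_pos N.ξ_pos N.dB2]

lemma d_12_10_11 : N.D 12 10 11 := by
  show 0 < N.ξ * (N.R2 * (-N.u1) - (-N.u2) * N.R1) - N.η * (0 * (-N.u1) - (-N.u2) * 0) + 0 * (0 * N.R1 - N.R2 * 0)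
  linarith [mul_pos N.η_pos N.dC0, mul_pos N.η_pos N.dC1, mul_pos N.ξ_pos N.dB0,
    mul_pos N.ξ_pos N.dB1, mul_pos N.ξ_pos N.dB2]

lemma d_13_11_10 : N.D 13 11 10 := by
  show 0 < (-N.ξ) * (N.R1 * (-N.u2) - (-N.u1) * N.R2) - N.η * (0 * (-N.u2) - (-N.u1) * 0) + 0 * (0 * N.R2 - N.R1 * 0)
  linarith [mul_pos N.η_pos N.dC0, mul_pos N.η_pos N.dC1, mul_pos N.ξ_pos N.dB0,
    mul_pos N.ξ_pos N.dB1, mul_pos N.ξ_pos N.dB2]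

lemma d_12_11_1 : N.D 12 11 1 := by
  show 0 < N.ξ * (N.R1 * N.m - (-N.u1) * 0) - N.η * (0 * N.m - (-N.u1) * 0) + 0 * (0 * 0 - N.R1 * 0)
  linarith [mul_pos N.η_pos N.dC0, mul_pos N.η_pos N.dC1, mul_pos N.ξ_pos N.dB0,
    mul_pos N.ξ_pos N.dB1, mul_pos N.ξ_pos N.dB2]

lemma d_13_1_11 : N.D 13 1 11 := by
  show 0 < (-N.ξ) * (0 * (-N.u1) - N.m * N.R1) - N.η * (0 * (-N.u1) - N.m * 0) + 0 * (0 * N.R1 - 0 * 0)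
  linarith [mul_pos N.η_pos N.dC0, mul_pos N.η_pos N.dC1, mul_pos N.ξ_pos N.dB0,
    mul_pos N.ξ_pos N.dB1, mul_pos N.ξ_pos N.dB2]

lemma F_base : ∀ t ∈ base, N.F t.1 t.2.1 t.2.2 := by
  intro t ht
  simp only [base, List.mem_cons, List.not_mem_nil, or_false] at ht
  rcases ht with rfl | rfl | rfl | rfl | rfl | rfl | rfl | rfl | rfl | rfl | rfl | rfl | rfl | rfl | rfl | rfl | rfl | rfl
  · exact ⟨N.e_12_2, N.e_2_0, N.e_0_12, N.d_12_2_0⟩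
  · exact ⟨N.e_13_0, N.e_0_5, N.e_5_13, N.d_13_0_5⟩
  · exact ⟨N.e_12_3, N.e_3_2, N.E_symm N.e_12_2, N.d_12_3_2⟩
  · exact ⟨N.E_symm N.e_5_13, N.e_5_6, N.e_6_13, N.d_13_5_6⟩
  · exact ⟨N.e_12_4, N.e_4_3, N.E_symm N.e_12_3, N.d_12_4_3⟩
  · exact ⟨N.E_symm N.e_6_13, N.e_6_7, N.e_7_13, N.d_13_6_7⟩
  · exact ⟨N.e_12_1, N.e_1_4, N.E_symm N.e_12_4, N.d_12_1_4⟩
  · exact ⟨N.E_symm N.e_7_13, N.e_7_1, N.e_1_13, N.d_13_7_1⟩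
  · exact ⟨N.E_symm N.e_0_12, N.e_0_8, N.e_8_12, N.d_12_0_8⟩
  · exact ⟨N.e_13_8, N.E_symm N.e_0_8, N.E_symm N.e_13_0, N.d_13_8_0⟩
  · exact ⟨N.E_symm N.e_8_12, N.e_8_9, N.e_9_12, N.d_12_8_9⟩
  · exact ⟨N.e_13_9, N.E_symm N.e_8_9, N.E_symm N.e_13_8, N.d_13_9_8⟩
  · exact ⟨N.E_symm N.e_9_12, N.e_9_10, N.e_10_12, N.d_12_9_10⟩
  · exact ⟨N.e_13_10, N.E_symm N.e_9_10, N.E_symm N.e_13_9, N.d_13_10_9⟩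
  · exact ⟨N.E_symm N.e_10_12, N.e_10_11, N.e_11_12, N.d_12_10_11⟩
  · exact ⟨N.e_13_11, N.E_symm N.e_10_11, N.E_symm N.e_13_10, N.d_13_11_10⟩
  · exact ⟨N.E_symm N.e_11_12, N.e_11_1, N.E_symm N.e_12_1, N.d_12_11_1⟩
  · exact ⟨N.E_symm N.e_1_13, N.E_symm N.e_11_1, N.E_symm N.e_13_11, N.d_13_1_11⟩

/-- the Minkowski data -/
noncomputable def data : MData K where
  x := N.cx
  y := N.cy
  z := N.cz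
  q := N.cq
  norm := by
    have h1 := N.na
    have h2 := N.nC1
    have h3 := N.nC2
    have h4 := N.nB1
    have h5 := N.nB2
    have h6 := N.nf
    intro v
    fin_cases v <;> simp [cx, cy, cz, cq] <;> linarith
  tan := by
    intro u v w h
    rcases K_base u v w h with h | h | h
    · exact (N.F_base _ h).1
    · exact (N.F_rot (N.F_rot (N.F_base _ h))).1
    · exact (N.F_rot (N.F_base _ h)).1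
  det := by
    intro u v w h
    rcases K_base u v w h with h | h | h
    · exact (N.F_base _ h).2.2.2
    · exact (N.F_rot (N.F_rot (N.F_base _ h))).2.2.2
    · exact (N.F_rot (N.F_base _ h)).2.2.2
  bdry := by
    intro v hv
    have h := (isBoundary_iff v).1 hv
    have : ∀ v : Fin 14, v.val < 8 → v = 0 ∨ v = 1 ∨ v = 2 ∨ v = 3 ∨ v = 4 ∨ v = 5 ∨ v = 6 ∨
      v = 7 := by decide
    rcases this v h with rfl | rfl | rfl | rfl | rfl | rfl | rfl | rfl <;> rfl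

end Nums

end Pool.Agent.BranchedPacking.Ex
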