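import Pool.Agent.Lib_MP_ff3433_gt.Horo
import Pool.Agent.Lib_MP_ff3433_gt.Build

/-!
# Existence of the packing of the disc with boundary horocycles
-/

namespace Pool.Agent.BranchedPacking

open Real

lemma Par.mid_orient (p : Par) {c s c' s' : ℝ} (h : p.Step c s c' s') :
    s' * (p.P c + p.q c) - s * (p.P c' + p.q c') =
      p.Y * (p.Y + p.τ) * (s' - s + 2) / (p.X * (1 - p.Y ^ 2)) := by
  have h1 := h.cross
  have e : s' * (p.P c + p.q c) - s * (p.P c' + p.q c') =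
      (p.Y * (p.Y + p.τ) * (s' - s) + (p.Y + p.τ) * (c * s' - c' * s)) /
        (p.X * (1 - p.Y ^ 2)) := by
    rw [Par.P, Par.P, Par.q, Par.q]; ring
  rw [e, h1]; ring

namespace Ex

/-- orientation identity for the real chain -/
lemma real_orient {Y ξ η k c s c' s' : ℝ} (hA : 1 - Y ^ 2 ≠ 0) (h1 : Y ^ 2 * (η + 1) = 2)
    (h4 : k ^ 2 - ξ ^ 2 = η ^ 2 - 1) (h : c * s' - c' * s = 2 * Y) :
    ξ * (s * (1 + Y ^ 2 * (k + ξ * c') / (2 * (1 - Y ^ 2))) -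
        s' * (1 + Y ^ 2 * (k + ξ * c) / (2 * (1 - Y ^ 2)))) +
      (η + k) * (Y ^ 2 * (ξ + k * c) / (2 * (1 - Y ^ 2)) * s' -
        Y ^ 2 * (ξ + k * c') / (2 * (1 - Y ^ 2)) * s) =
    Y ^ 2 / (2 * (1 - Y ^ 2)) * (ξ * (s' - s) + 2 * Y * (η ^ 2 - 1 + η * k)) := by
  field_simp
  linear_combination (Y ^ 2 * k * η + Y ^ 2 * k ^ 2 - Y ^ 2 * ξ ^ 2) * h + 2 * Y ^ 3 * h4 +
    ξ * (s' - s) * h1

/-- The middle chain of the packing of the disc. -/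
lemma middle_part (r : Par) {m k η : ℝ} (hη : 1 < η) (hk : 0 < k) (hm : 1 ≤ m)
    (hX : r.X * η = 1) (hτ : r.τ * η = r.Y * k) (hkm : k * m = η + 1)
    (hmX : m = 16 * r.Y ^ 4 - 12 * r.Y ^ 2 + 1) (hP : 3 / 4 ≤ r.Y ^ 2)
    (hT5 : 16 * r.Y ^ 5 - 20 * r.Y ^ 3 + 5 * r.Y < 0) :
    ∃ R1 R2 t1 t2 u1 u2 : ℝ,
      (R1 ^ 2 + u1 ^ 2 = 1 + t1 ^ 2 ∧ R2 ^ 2 + u2 ^ 2 = 1 + t2 ^ 2) ∧
      (R1 - m * u1 - m * t1 = -1 ∧ R1 * R2 + u1 * u2 - t1 * t2 = -1 ∧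
        R2 * R2 - u2 * u2 - t2 * t2 = -1) ∧
      (0 < u1 * (1 + m) + m * (R1 + t1) ∧ 0 < u2 * (R1 + t1) - u1 * (R2 + t2) ∧
        0 < -(u2 * (R2 + t2))) ∧
      (η * R1 - k * t1 = -1 ∧ η * R2 - k * t2 = -1) ∧
      (1 < R1 ∧ 1 < R2 ∧ 0 < t1 ∧ 0 < t2 ∧ u1 < 0 ∧ u2 < 0) := by
  have hX0 := r.X_pos
  have hY0 := r.Y_pos
  have hτ0 := r.τ_pos
  have hA := r.A_pos
  have hrel := r.rel
  have hη0 : 0 < η := by linarith
  have hden : 0 < r.X * (1 - r.Y ^ 2) := mul_pos hX0 hA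
  have hle : r.X * (1 - r.Y ^ 2) ≤ 1 * (1 - r.Y ^ 2) :=
    mul_le_mul_of_nonneg_right r.X_lt.le hA.le
  have hmτ : m * r.τ = r.Y * (1 + r.X) := by
    have h1 : m * r.τ * η = r.Y * (1 + r.X) * η := by
      linear_combination m * hτ + r.Y * hkm - r.Y * hX
    exact mul_right_cancel₀ hη0.ne' h1
  have hclose : r.τ * (16 * r.Y ^ 5 - 20 * r.Y ^ 3 + 5 * r.Y) =
      -(r.Y ^ 2 - r.X * (1 - r.Y ^ 2)) := by
    apply closing _ hτ0 _ hT5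
    · linarith
    · have hc5 : (16 * r.Y ^ 5 - 20 * r.Y ^ 3 + 5 * r.Y) ^ 2 + m ^ 2 * (1 - r.Y ^ 2) = 1 := by
        rw [hmX]; ring
      have e1 : (m * r.τ) ^ 2 = (r.Y * (1 + r.X)) ^ 2 := by rw [hmτ]
      rw [mul_pow]
      linear_combination r.τ ^ 2 * hc5 - (1 - r.Y ^ 2) * e1 + hrel
  obtain ⟨i1, i2, i3⟩ := middle_chain r (e := 1) (by norm_num)
  have eu0 : -(1 * (16 * r.Y ^ 4 - 12 * r.Y ^ 2 + 1)) = -m := by
    rw [hmX, one_mul]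
  rw [eu0] at i1
  have eu1 : -(1 * (4 * r.Y ^ 2 - 1)) = -(4 * r.Y ^ 2 - 1) := by ring
  rw [eu1] at i1 i2
  generalize hd0' : 1 * (16 * r.Y ^ 5 - 20 * r.Y ^ 3 + 5 * r.Y) = d0 at i1
  generalize hd1' : 1 * (4 * r.Y ^ 3 - 3 * r.Y) = d1 at i1 i2
  generalize hd2' : 1 * r.Y = d2 at i2 i3
  rw [one_mul] at hd0' hd1' hd2'
  rw [hd0'] at hclose
  have hd0 : r.P d0 = 1 := by
    rw [Par.P, hclose, div_eq_one_iff_eq hden.ne']
    ring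
  have hkk : r.τ / (r.X * r.Y) = k := by
    rw [div_eq_iff (by positivity)]
    have h1 : r.τ * η = k * (r.X * r.Y) * η := by
      linear_combination hτ - r.Y * k * hX
    exact mul_right_cancel₀ hη0.ne' h1
  have neg_add : ∀ c, η * r.P c - k * r.q c = -1 := by
    intro c
    have := r.P_neg_add c
    rw [hkk] at this
    have e : r.P c / r.X = η * r.P c := by
      rw [div_eq_iff hX0.ne']
      linear_combination (-(r.P c)) * hX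
    linarith
  have hd0q : r.q d0 = m := by
    have h := neg_add d0
    rw [hd0] at h
    have : k * r.q d0 = k * m := by linarith
    exact mul_left_cancel₀ hk.ne' this
  have k1 := i1.tangent
  have k2 := i2.tangent
  have k3 := i3.tangent
  have l1 := r.mid_orient i1
  have l2 := r.mid_orient i2
  rw [hd0, hd0q] at k1 l1
  have n1 := r.norm_formula i2.on
  have n2 := r.norm_formula i2.on'
  have hnum : 0 < r.Y * (r.Y + r.τ) := by positivity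
  have hlow : ∀ c, 0 ≤ c → 1 < r.P c ∧ 0 < r.q c := by
    intro c hc
    constructor
    · rw [Par.P, lt_div_iff₀ hden, one_mul]
      have e2 : 0 ≤ r.τ * c := mul_nonneg hτ0.le hc
      linarith
    · rw [Par.q]
      apply div_pos _ hden
      apply mul_pos hY0
      linarith
  have hd1 : 0 ≤ d1 := by
    rw [← hd1']
    have : 4 * r.Y ^ 3 - 3 * r.Y = r.Y * (4 * r.Y ^ 2 - 3) := by ring
    rw [this]
    apply mul_nonneg hY0.le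
    linarith
  have hd2 : 0 ≤ d2 := by rw [← hd2']; exact hY0.le
  obtain ⟨a1, a2⟩ := hlow d1 hd1
  obtain ⟨a3, a4⟩ := hlow d2 hd2
  have hY1 : r.Y ^ 2 < 1 := by linarith
  refine ⟨r.P d1, r.P d2, r.q d1, r.q d2, -(4 * r.Y ^ 2 - 1), -1, ⟨n1, n2⟩,
    ⟨?_, ?_, ?_⟩, ⟨?_, ?_, ?_⟩, ⟨neg_add _, neg_add _⟩, a1, a3, a2, a4, ?_, ?_⟩
  · linarith
  · exact k2
  · linarith
  · have : 0 < r.Y * (r.Y + r.τ) * (-(4 * r.Y ^ 2 - 1) - -m + 2) / (r.X * (1 - r.Y ^ 2)) := by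
      apply div_pos _ hden
      apply mul_pos hnum
      linarith
    linarith
  · have : 0 < r.Y * (r.Y + r.τ) * (-1 - -(4 * r.Y ^ 2 - 1) + 2) / (r.X * (1 - r.Y ^ 2)) := by
      apply div_pos _ hden
      apply mul_pos hnum
      linarith
    linarith
  · linarith
  · linarith
  · norm_num

/-- The real chain of the packing of the disc. -/
lemma real_part {Y m k η ξ : ℝ} (hY0 : 0 < Y) (hYQ : Y ^ 2 < 1 / 2) (hm : 0 < m) (hk : 0 < k)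
    (h1 : Y ^ 2 * (η + 1) = 2) (hkm : k * m = η + 1) (hmY : m = 4 * Y - 8 * Y ^ 3)
    (hξ0 : 0 < ξ) (hξ : ξ = k * (8 * Y ^ 4 - 8 * Y ^ 2 + 1)) :
    ∃ P1 P2 q1 q2 s1 : ℝ, (P1 ^ 2 + s1 ^ 2 = q1 ^ 2 ∧ P2 ^ 2 = q2 ^ 2) ∧
      (-(m * s1) - m * q1 = -2 ∧ P1 * P2 - q1 * q2 = -2) ∧
      (0 < ξ * (-(m * (1 + q1)) - s1 * (1 + m)) + (η + k) * (P1 * m) ∧
        0 < ξ * (s1 * (1 + q2)) + (η + k) * (-(P2 * s1))) ∧
      (ξ * P1 + η - k * q1 = -1 ∧ ξ * P2 + η - k * q2 = -1) ∧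
      (0 < q1 ∧ 0 < q2 ∧ 0 < s1) ∧ k ^ 2 - ξ ^ 2 = η ^ 2 - 1 := by
  have hY2 : 0 < Y ^ 2 := by positivity
  have hη : 3 < η := by nlinarith
  have hA : 0 < 1 - Y ^ 2 := by linarith
  have hcheb : (8 * Y ^ 4 - 8 * Y ^ 2 + 1) ^ 2 + m ^ 2 * (1 - Y ^ 2) = 1 := by
    rw [hmY]; ring
  have h4 : k ^ 2 - ξ ^ 2 = η ^ 2 - 1 := by
    have e1 : k ^ 2 - ξ ^ 2 = (k * m) ^ 2 * (1 - Y ^ 2) := by
      rw [hξ]; linear_combination (-(k ^ 2)) * hcheb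
    rw [e1, hkm]
    linear_combination (-(η + 1)) * h1
  have hkξ : ξ < k := by
    have : ξ ^ 2 < k ^ 2 := by nlinarith
    exact lt_of_pow_lt_pow_left₀ 2 hk.le this
  have hq1 : 0 < Y ^ 2 * (k + ξ * (1 - 2 * Y ^ 2)) / (2 * (1 - Y ^ 2)) := by
    have : 0 ≤ ξ * (1 - 2 * Y ^ 2) := mul_nonneg hξ0.le (by linarith)
    positivity
  have hq2 : 0 < Y ^ 2 * (k + ξ * (-1)) / (2 * (1 - Y ^ 2)) := by
    have : 0 < k + ξ * (-1) := by linarith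
    positivity
  have o1 := real_orient (Y := Y) (ξ := ξ) (η := η) (k := k)
    (c := -(8 * Y ^ 4 - 8 * Y ^ 2 + 1)) (s := -m) (c' := 1 - 2 * Y ^ 2) (s' := 2 * Y)
    hA.ne' h1 h4 (by rw [hmY]; ring)
  have o2 := real_orient (Y := Y) (ξ := ξ) (η := η) (k := k)
    (c := 1 - 2 * Y ^ 2) (s := 2 * Y) (c' := -1) (s' := 0)
    hA.ne' h1 h4 (by ring)
  have hp0 : Y ^ 2 * (ξ + k * -(8 * Y ^ 4 - 8 * Y ^ 2 + 1)) / (2 * (1 - Y ^ 2)) = 0 := by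
    have : ξ + k * -(8 * Y ^ 4 - 8 * Y ^ 2 + 1) = 0 := by rw [hξ]; ring
    rw [this]; simp
  have hq0 : Y ^ 2 * (k + ξ * -(8 * Y ^ 4 - 8 * Y ^ 2 + 1)) / (2 * (1 - Y ^ 2)) = m := by
    rw [div_eq_iff (by positivity)]
    have e1 : k + ξ * -(8 * Y ^ 4 - 8 * Y ^ 2 + 1) = k * m * m * (1 - Y ^ 2) := by
      rw [hξ]; linear_combination (-k) * hcheb
    rw [e1, hkm]
    linear_combination (m * (1 - Y ^ 2)) * h1
  rw [hp0, hq0] at o1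
  have hfac : 0 < Y ^ 2 / (2 * (1 - Y ^ 2)) := by positivity
  have hbig : 0 < 2 * Y * (η ^ 2 - 1 + η * k) := by
    have : 0 < η ^ 2 - 1 := by nlinarith
    positivity
  -- defining equations of the numbers
  obtain ⟨P1, eP1⟩ : ∃ P1, P1 = Y ^ 2 * (ξ + k * (1 - 2 * Y ^ 2)) / (2 * (1 - Y ^ 2)) := ⟨_, rfl⟩
  obtain ⟨P2, eP2⟩ : ∃ P2, P2 = Y ^ 2 * (ξ + k * (-1)) / (2 * (1 - Y ^ 2)) := ⟨_, rfl⟩
  obtain ⟨q1, eq1⟩ : ∃ q1, q1 = Y ^ 2 * (k + ξ * (1 - 2 * Y ^ 2)) / (2 * (1 - Y ^ 2)) := ⟨_, rfl⟩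
  obtain ⟨q2, eq2⟩ : ∃ q2, q2 = Y ^ 2 * (k + ξ * (-1)) / (2 * (1 - Y ^ 2)) := ⟨_, rfl⟩
  rw [← eP1, ← eq1] at o1
  rw [← eP1, ← eq1, ← eP2, ← eq2] at o2
  rw [← eq1] at hq1
  rw [← eq2] at hq2
  have hA2 : (2 * (1 - Y ^ 2)) ≠ 0 := by positivity
  have fP1 : P1 * (2 * (1 - Y ^ 2)) = Y ^ 2 * (ξ + k * (1 - 2 * Y ^ 2)) := by
    rw [eP1, div_mul_cancel₀ _ hA2]
  have fP2 : P2 * (2 * (1 - Y ^ 2)) = Y ^ 2 * (ξ + k * (-1)) := by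
    rw [eP2, div_mul_cancel₀ _ hA2]
  have fq1 : q1 * (2 * (1 - Y ^ 2)) = Y ^ 2 * (k + ξ * (1 - 2 * Y ^ 2)) := by
    rw [eq1, div_mul_cancel₀ _ hA2]
  have fq2 : q2 * (2 * (1 - Y ^ 2)) = Y ^ 2 * (k + ξ * (-1)) := by
    rw [eq2, div_mul_cancel₀ _ hA2]
  have h5 : Y ^ 2 * (η - 1) = 2 * (1 - Y ^ 2) := by linear_combination h1
  have h6 : Y ^ 4 * (k ^ 2 - ξ ^ 2) = 4 * (1 - Y ^ 2) := by
    rw [h4]; linear_combination (Y ^ 2 * (η - 1)) * h1 + 2 * h5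
  refine ⟨P1, P2, q1, q2, 2 * Y, ⟨?_, ?_⟩, ⟨?_, ?_⟩, ⟨?_, ?_⟩, ⟨?_, ?_⟩,
    ⟨hq1, hq2, by linarith⟩, h4⟩
  · have h7 : (P1 ^ 2 + (2 * Y) ^ 2 - q1 ^ 2) * (2 * (1 - Y ^ 2)) ^ 2 = 0 := by
      have e1 : (P1 ^ 2 + (2 * Y) ^ 2 - q1 ^ 2) * (2 * (1 - Y ^ 2)) ^ 2 =
        (P1 * (2 * (1 - Y ^ 2))) ^ 2 - (q1 * (2 * (1 - Y ^ 2))) ^ 2 +
          (2 * Y) ^ 2 * (2 * (1 - Y ^ 2)) ^ 2 := by ring
      rw [e1, fP1, fq1]
      linear_combination (-(4 * Y ^ 2 * (1 - Y ^ 2))) * h6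
    have h8 := (mul_eq_zero.1 h7).resolve_right (by positivity)
    linear_combination h8
  · have h7 : (P2 ^ 2 - q2 ^ 2) * (2 * (1 - Y ^ 2)) ^ 2 = 0 := by
      have e1 : (P2 ^ 2 - q2 ^ 2) * (2 * (1 - Y ^ 2)) ^ 2 =
        (P2 * (2 * (1 - Y ^ 2))) ^ 2 - (q2 * (2 * (1 - Y ^ 2))) ^ 2 := by ring
      rw [e1, fP2, fq2]; ring
    have h8 := (mul_eq_zero.1 h7).resolve_right (by positivity)
    linear_combination h8
  · have h7 : (-(m * (2 * Y)) - m * q1 + 2) * (2 * (1 - Y ^ 2)) = 0 := by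
      have e1 : (-(m * (2 * Y)) - m * q1 + 2) * (2 * (1 - Y ^ 2)) =
        (-(m * (2 * Y)) + 2) * (2 * (1 - Y ^ 2)) - m * (q1 * (2 * (1 - Y ^ 2))) := by ring
      rw [e1, fq1, hξ]
      have e2 : m * (Y ^ 2 * (k + k * (8 * Y ^ 4 - 8 * Y ^ 2 + 1) * (1 - 2 * Y ^ 2))) =
        (Y ^ 2 * (k * m)) * (1 + (8 * Y ^ 4 - 8 * Y ^ 2 + 1) * (1 - 2 * Y ^ 2)) := by ring
      rw [e2, hkm, h1, hmY]
      ring
    have h8 := (mul_eq_zero.1 h7).resolve_right hA2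
    linear_combination h8
  · have h7 : (P1 * P2 - q1 * q2 + 2) * (2 * (1 - Y ^ 2)) ^ 2 = 0 := by
      have e1 : (P1 * P2 - q1 * q2 + 2) * (2 * (1 - Y ^ 2)) ^ 2 =
        (P1 * (2 * (1 - Y ^ 2))) * (P2 * (2 * (1 - Y ^ 2))) -
          (q1 * (2 * (1 - Y ^ 2))) * (q2 * (2 * (1 - Y ^ 2))) + 2 * (2 * (1 - Y ^ 2)) ^ 2 := by
        ring
      rw [e1, fP1, fq1, fP2, fq2]
      linear_combination (-(2 * (1 - Y ^ 2))) * h6
    have h8 := (mul_eq_zero.1 h7).resolve_right (by positivity)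
    linear_combination h8
  · have h7 : 0 < Y ^ 2 / (2 * (1 - Y ^ 2)) * (ξ * (2 * Y - -m) + 2 * Y * (η ^ 2 - 1 + η * k)) := by
      apply mul_pos hfac
      have : 0 < ξ * (2 * Y - -m) := by
        apply mul_pos hξ0; linarith
      linarith
    rw [← o1] at h7
    refine lt_of_lt_of_eq h7 ?_
    ring
  · have h7 : 0 < Y ^ 2 / (2 * (1 - Y ^ 2)) * (ξ * (0 - 2 * Y) + 2 * Y * (η ^ 2 - 1 + η * k)) := by
      apply mul_pos hfac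
      have e1 : ξ * (0 - 2 * Y) + 2 * Y * (η ^ 2 - 1 + η * k) =
        2 * Y * (η ^ 2 - 1 + η * k - ξ) := by ring
      rw [e1]
      apply mul_pos (by linarith)
      nlinarith
    rw [← o2] at h7
    refine lt_of_lt_of_eq h7 ?_
    ring
  · have h7 : (ξ * P1 + η - k * q1 + 1) * (2 * (1 - Y ^ 2)) = 0 := by
      have e1 : (ξ * P1 + η - k * q1 + 1) * (2 * (1 - Y ^ 2)) =
        ξ * (P1 * (2 * (1 - Y ^ 2))) - k * (q1 * (2 * (1 - Y ^ 2))) +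
          (η + 1) * (2 * (1 - Y ^ 2)) := by ring
      rw [e1, fP1, fq1]
      linear_combination (-(Y ^ 2)) * h4 - (η + 1) * h5
    have h8 := (mul_eq_zero.1 h7).resolve_right hA2
    linear_combination h8
  · have h7 : (ξ * P2 + η - k * q2 + 1) * (2 * (1 - Y ^ 2)) = 0 := by
      have e1 : (ξ * P2 + η - k * q2 + 1) * (2 * (1 - Y ^ 2)) =
        ξ * (P2 * (2 * (1 - Y ^ 2))) - k * (q2 * (2 * (1 - Y ^ 2))) +
          (η + 1) * (2 * (1 - Y ^ 2)) := by ring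
      rw [e1, fP2, fq2]
      linear_combination (-(Y ^ 2)) * h4 - (η + 1) * h5
    have h8 := (mul_eq_zero.1 h7).resolve_right hA2
    linear_combination h8

/-- Main construction: a solution of the equations with the right signs gives the packing. -/
lemma exists_hnums {X Y m k η : ℝ} (hX0 : 0 < X) (hX1 : X < 1) (hXP : 3 / 4 ≤ X ^ 2)
    (hY0 : 0 < Y) (hYQ : Y ^ 2 < 1 / 2) (hm : 1 ≤ m) (hk : 0 < k)
    (h1 : Y ^ 2 * (η + 1) = 2) (hkm : k * m = η + 1) (hmY : m = 4 * Y - 8 * Y ^ 3)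
    (hmX : m = 16 * X ^ 4 - 12 * X ^ 2 + 1)
    (hT4 : 0 < 8 * Y ^ 4 - 8 * Y ^ 2 + 1) (hxX : k * (8 * Y ^ 4 - 8 * Y ^ 2 + 1) * X = 1)
    (hT5 : 16 * X ^ 5 - 20 * X ^ 3 + 5 * X < 0) : Nonempty HNums := by
  have hY2 : 0 < Y ^ 2 := by positivity
  have hη : 3 < η := by nlinarith
  have hη0 : 0 < η := by linarith
  obtain ⟨ξ, hξ⟩ : ∃ ξ, ξ = k * (8 * Y ^ 4 - 8 * Y ^ 2 + 1) := ⟨_, rfl⟩
  have hξ0 : 0 < ξ := by rw [hξ]; exact mul_pos hk hT4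
  have hξX : ξ * X = 1 := by rw [hξ]; exact hxX
  obtain ⟨P1, P2, q1, q2, s1, ⟨a1, a2⟩, ⟨b1, b2⟩, ⟨c1, c2⟩, ⟨d1, d2⟩, ⟨e1, e2, e3⟩, h4⟩ :=
    real_part hY0 hYQ (by linarith) hk h1 hkm hmY hξ0 hξ
  have hrel : (X * k / η) ^ 2 = (1 / η) ^ 2 + X ^ 2 - (1 / η) ^ 2 * X ^ 2 := by
    have e1 : X ^ 2 * k ^ 2 = X ^ 2 * η ^ 2 + 1 - X ^ 2 := by
      have : X ^ 2 * k ^ 2 = X ^ 2 * (η ^ 2 - 1) + (ξ * X) ^ 2 := by
        rw [← h4]; ring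
      rw [this, hξX]; ring
    field_simp
    linear_combination e1
  obtain ⟨r, rX, rY, rτ⟩ : ∃ r : Par, r.X = 1 / η ∧ r.Y = X ∧ r.τ = X * k / η :=
    ⟨⟨1 / η, X, X * k / η, by positivity, by rw [div_lt_one hη0]; linarith, hX0, hX1,
      by positivity, hrel⟩, rfl, rfl, rfl⟩
  obtain ⟨R1, R2, t1, t2, u1, u2, ⟨a3, a4⟩, ⟨b3, b4, b5⟩, ⟨c3, c4, c5⟩, ⟨d3, d4⟩,
    f1, f2, f3, f4, f5, f6⟩ := middle_part r (m := m) (k := k) (η := η) (by linarith) hk hm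
      (by rw [rX]; field_simp) (by rw [rτ, rY]; field_simp) hkm (by rw [rY]; exact hmX)
      (by rw [rY]; exact hXP) (by rw [rY]; exact hT5)
  exact ⟨{
    m := m
    k := k
    ξ := ξ
    η := η
    P1 := P1
    P2 := P2
    q1 := q1
    q2 := q2
    s1 := s1
    R1 := R1
    R2 := R2
    t1 := t1
    t2 := t2
    u1 := u1
    u2 := u2
    m_pos := by linarith
    ξ_pos := hξ0
    k_pos := hk
    nC1 := a1
    nC2 := a2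
    nB1 := a3
    nB2 := a4
    nf := by linarith
    tC0 := b1
    tC1 := b2
    tB0 := b3
    tB1 := b4
    tB2 := b5
    oC0 := c1
    oC1 := c2
    oB0 := c3
    oB1 := c4
    oB2 := c5
    fa := by linarith
    fC1 := d1
    fC2 := d2
    fB1 := d3
    fB2 := d4
    hη := by linarith
    hR1 := f1
    hR2 := f2
    ht1 := f3
    ht2 := f4
    hq1 := e1
    hq2 := e2
    hs1 := e3
    hu1 := f5
    hu2 := f6 }⟩

lemma nonempty_hnums : Nonempty HNums := by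
  let m : ℝ → ℝ := fun y => 4 * y - 8 * y ^ 3
  let P : ℝ → ℝ := fun y => (3 + √(5 + 4 * m y)) / 8
  let F : ℝ → ℝ := fun y => 4 * P y * (m y ^ 2 * (1 - y ^ 2) - 1) + m y ^ 2 * y ^ 4
  have hmc : Continuous m := by fun_prop
  have hPc : Continuous P := by fun_prop
  have hFc : Continuous F := by fun_prop
  have hmb : ∀ y, 0.36 ≤ y → y ≤ 0.37 → 1 ≤ m y ∧ m y ≤ 1.11 := by
    intro y h1 h2
    have h3 : (0.36 : ℝ) ^ 2 ≤ y ^ 2 := by nlinarith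
    have h4 : y ^ 2 ≤ (0.37 : ℝ) ^ 2 := by nlinarith
    have e : m y = 4 * y * (1 - 2 * y ^ 2) := by simp only [m]; ring
    rw [e]
    constructor <;> nlinarith
  have hPb : ∀ y, 0.36 ≤ y → y ≤ 0.37 → 0.75 ≤ P y ∧ P y ≤ 0.7625 := by
    intro y h1 h2
    obtain ⟨h3, h4⟩ := hmb y h1 h2
    have h5 : (3 : ℝ) ≤ √(5 + 4 * m y) := Real.le_sqrt_of_sq_le (by linarith)
    have h6 : √(5 + 4 * m y) ≤ 3.1 := Real.sqrt_le_iff.2 ⟨by norm_num, by linarith⟩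
    constructor
    · show 0.75 ≤ (3 + √(5 + 4 * m y)) / 8
      linarith
    · show (3 + √(5 + 4 * m y)) / 8 ≤ 0.7625
      linarith
  have hFa : F 0.36 ≤ 0 := by
    obtain ⟨h1, h2⟩ := hPb 0.36 (by norm_num) (by norm_num)
    show 4 * P 0.36 * ((4 * 0.36 - 8 * 0.36 ^ 3) ^ 2 * (1 - 0.36 ^ 2) - 1) +
      (4 * 0.36 - 8 * 0.36 ^ 3) ^ 2 * 0.36 ^ 4 ≤ 0
    nlinarith
  have hFb : 0 ≤ F 0.37 := by
    obtain ⟨h1, h2⟩ := hPb 0.37 (by norm_num) (by norm_num)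
    show 0 ≤ 4 * P 0.37 * ((4 * 0.37 - 8 * 0.37 ^ 3) ^ 2 * (1 - 0.37 ^ 2) - 1) +
      (4 * 0.37 - 8 * 0.37 ^ 3) ^ 2 * 0.37 ^ 4
    nlinarith
  obtain ⟨y, hy1, hy2, hy⟩ := exists_root (by norm_num) hFc hFa hFb
  obtain ⟨hm1, hm2⟩ := hmb y hy1 hy2
  obtain ⟨hP1, hP2⟩ := hPb y hy1 hy2
  have hy3 : (0.36 : ℝ) ^ 2 ≤ y ^ 2 := by nlinarith
  have hy4 : y ^ 2 ≤ (0.37 : ℝ) ^ 2 := by nlinarith
  have hy0 : 0 < y := by linarith
  have hP0 : 0 ≤ P y := by linarith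
  have hX2 : (√(P y)) ^ 2 = P y := Real.sq_sqrt hP0
  have hX0 : 0 < √(P y) := Real.sqrt_pos.2 (by linarith)
  have hX1 : √(P y) < 1 := by
    rw [Real.sqrt_lt' one_pos]; linarith
  have hs : (8 * P y - 3) ^ 2 = 5 + 4 * m y := by
    have : 8 * P y - 3 = √(5 + 4 * m y) := by simp only [P]; ring
    rw [this, Real.sq_sqrt (by linarith)]
  set X := √(P y) with hXdef
  have hT4 : 0 < 8 * y ^ 4 - 8 * y ^ 2 + 1 := by
    have : y ^ 4 = y ^ 2 * y ^ 2 := by ring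
    nlinarith
  have hm0 : 0 < m y := by linarith
  have hcheb : (8 * y ^ 4 - 8 * y ^ 2 + 1) ^ 2 + m y ^ 2 * (1 - y ^ 2) = 1 := by
    simp only [m]; ring
  have hFy : 4 * P y * (m y ^ 2 * (1 - y ^ 2) - 1) + m y ^ 2 * y ^ 4 = 0 := hy
  refine exists_hnums (X := X) (Y := y) (m := m y) (k := 2 / (y ^ 2 * m y)) (η := 2 / y ^ 2 - 1)
    hX0 hX1 (by rw [hX2]; linarith) hy0 (by linarith) hm1 (by positivity)
    (by field_simp; ring) (by field_simp; ring) rfl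
    (by
      have : X ^ 4 = P y ^ 2 := by rw [← hX2]; ring
      rw [this, hX2]; linarith) hT4 ?_
    (by
      have : 16 * X ^ 5 - 20 * X ^ 3 + 5 * X = X * (16 * P y ^ 2 - 20 * P y + 5) := by
        rw [← hX2]; ring
      rw [this]
      apply mul_neg_of_pos_of_neg hX0
      nlinarith)
  -- `k T₄ X = 1`
  have hpos : 0 < 2 / (y ^ 2 * m y) * (8 * y ^ 4 - 8 * y ^ 2 + 1) * X := by positivity
  have hsq : (2 / (y ^ 2 * m y) * (8 * y ^ 4 - 8 * y ^ 2 + 1) * X) ^ 2 = 1 ^ 2 := by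
    rw [mul_pow, mul_pow, hX2, div_pow]
    field_simp
    linear_combination 4 * P y * hcheb - hFy
  exact (pow_left_inj₀ hpos.le zero_le_one two_ne_zero).1 hsq

/-- `mult` is a branch structure for `K`. -/
lemma branch_K : IsBranchStructure K mult := by
  obtain ⟨N⟩ := nonempty_hnums
  refine ⟨?_, ⟨N.pack⟩⟩
  intro v hv
  have h := (isBoundary_iff v).1 hv
  have : ∀ v : Fin 14, v.val < 8 → mult v = 0 := by decide
  exact this v h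

end Ex

end Pool.Agent.BranchedPacking
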