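import Pool.Agent.Lib_MP_ff3433_gt.Angles

/-!
# The packing of the disc with boundary horocycles, from numerical data
-/

namespace Pool.Agent.BranchedPacking.Ex

open Pool.Agent.BranchedPacking Real InnerProductGeometry

/-- The numbers describing the symmetric packing of the disc. -/
structure HNums where
  (m k ξ η P1 P2 q1 q2 s1 R1 R2 t1 t2 u1 u2 : ℝ)
  m_pos : 0 < m
  ξ_pos : 0 < ξ
  k_pos : 0 < k
  -- norms
  nC1 : P1 ^ 2 + s1 ^ 2 = q1 ^ 2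
  nC2 : P2 ^ 2 = q2 ^ 2
  nB1 : R1 ^ 2 + u1 ^ 2 = 1 + t1 ^ 2
  nB2 : R2 ^ 2 + u2 ^ 2 = 1 + t2 ^ 2
  nf : ξ ^ 2 + η ^ 2 = 1 + k ^ 2
  -- tangencies in the chains
  tC0 : -(m * s1) - m * q1 = -2
  tC1 : P1 * P2 - q1 * q2 = -2
  tB0 : R1 - m * u1 - m * t1 = -1
  tB1 : R1 * R2 + u1 * u2 - t1 * t2 = -1
  tB2 : R2 * R2 - u2 * u2 - t2 * t2 = -1
  -- orientations
  oC0 : 0 < ξ * (-(m * (1 + q1)) - s1 * (1 + m)) + (η + k) * (P1 * m)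
  oC1 : 0 < ξ * (s1 * (1 + q2)) + (η + k) * (-(P2 * s1))
  oB0 : 0 < u1 * (1 + m) + m * (R1 + t1)
  oB1 : 0 < u2 * (R1 + t1) - u1 * (R2 + t2)
  oB2 : 0 < -(u2 * (R2 + t2))
  -- tangencies with the branch circles
  fa : η - k * m = -1
  fC1 : ξ * P1 + η - k * q1 = -1
  fC2 : ξ * P2 + η - k * q2 = -1
  fB1 : η * R1 - k * t1 = -1
  fB2 : η * R2 - k * t2 = -1
  -- signs
  hη : 1 < η
  hR1 : 1 < R1
  hR2 : 1 < R2
  ht1 : 0 < t1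
  ht2 : 0 < t2
  hq1 : 0 < q1
  hq2 : 0 < q2
  hs1 : 0 < s1
  hu1 : u1 < 0
  hu2 : u2 < 0

namespace HNums

variable (N : HNums)

/-- coordinates -/
def cx : Fin 14 → ℝ := ![0, 0, N.P1, N.P2, N.P1, -N.P1, -N.P2, -N.P1, 0, 0, 0, 0, N.ξ, -N.ξ]
def cy : Fin 14 → ℝ := ![1, 1, 1, 1, 1, 1, 1, 1, N.R1, N.R2, N.R2, N.R1, N.η, N.η]
def cz : Fin 14 → ℝ :=
  ![-N.m, N.m, N.s1, 0, -N.s1, N.s1, 0, -N.s1, N.u1, N.u2, -N.u2, -N.u1, 0, 0]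
def cq : Fin 14 → ℝ :=
  ![N.m, N.m, N.q1, N.q2, N.q1, N.q1, N.q2, N.q1, N.t1, N.t2, N.t2, N.t1, N.k, N.k]

/-- the inverse of the radius -/
def cb (v : Fin 14) : ℝ := N.cy v + N.cq v

/-- tangency of two vertices -/
def E (u v : Fin 14) : Prop :=
  N.cx u * N.cx v + N.cy u * N.cy v + N.cz u * N.cz v - N.cq u * N.cq v = -1

lemma E_symm {u v : Fin 14} (h : N.E u v) : N.E v u := by
  unfold E at *; linarith

/-- orientation of a face -/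
def D (u v w : Fin 14) : Prop :=
  0 < N.cx u * ((-N.cz v) * N.cb w - N.cb v * (-N.cz w)) -
    (-N.cz u) * (N.cx v * N.cb w - N.cb v * N.cx w) +
      N.cb u * (N.cx v * (-N.cz w) - (-N.cz v) * N.cx w)

lemma D_rot {u v w : Fin 14} (h : N.D u v w) : N.D v w u := by
  unfold D at *
  refine lt_of_lt_of_eq h ?_
  ring

/-- everything about a face -/
def F (u v w : Fin 14) : Prop := N.E u v ∧ N.E v w ∧ N.E w u ∧ N.D u v w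

lemma F_rot {u v w : Fin 14} (h : N.F u v w) : N.F v w u :=
  ⟨h.2.1, h.2.2.1, h.1, N.D_rot h.2.2.2⟩

lemma e_12_2 : N.E 12 2 := by
  show N.ξ * N.P1 + N.η * 1 + 0 * N.s1 - N.k * N.q1 = -1
  linarith [N.fa, N.fC1, N.fC2, N.fB1, N.fB2, N.tC0, N.tC1, N.tB0, N.tB1, N.tB2]

lemma e_2_0 : N.E 2 0 := by
  show N.P1 * 0 + 1 * 1 + N.s1 * (-N.m) - N.q1 * N.m = -1
  linarith [N.fa, N.fC1, N.fC2, N.fB1, N.fB2, N.tC0, N.tC1, N.tB0, N.tB1, N.tB2]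

lemma e_0_12 : N.E 0 12 := by
  show 0 * N.ξ + 1 * N.η + (-N.m) * 0 - N.m * N.k = -1
  linarith [N.fa, N.fC1, N.fC2, N.fB1, N.fB2, N.tC0, N.tC1, N.tB0, N.tB1, N.tB2]

lemma e_13_0 : N.E 13 0 := by
  show (-N.ξ) * 0 + N.η * 1 + 0 * (-N.m) - N.k * N.m = -1
  linarith [N.fa, N.fC1, N.fC2, N.fB1, N.fB2, N.tC0, N.tC1, N.tB0, N.tB1, N.tB2]

lemma e_0_5 : N.E 0 5 := by
  show 0 * (-N.P1) + 1 * 1 + (-N.m) * N.s1 - N.m * N.q1 = -1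
  linarith [N.fa, N.fC1, N.fC2, N.fB1, N.fB2, N.tC0, N.tC1, N.tB0, N.tB1, N.tB2]

lemma e_5_13 : N.E 5 13 := by
  show (-N.P1) * (-N.ξ) + 1 * N.η + N.s1 * 0 - N.q1 * N.k = -1
  linarith [N.fa, N.fC1, N.fC2, N.fB1, N.fB2, N.tC0, N.tC1, N.tB0, N.tB1, N.tB2]

lemma e_12_3 : N.E 12 3 := by
  show N.ξ * N.P2 + N.η * 1 + 0 * 0 - N.k * N.q2 = -1
  linarith [N.fa, N.fC1, N.fC2, N.fB1, N.fB2, N.tC0, N.tC1, N.tB0, N.tB1, N.tB2]

lemma e_3_2 : N.E 3 2 := by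
  show N.P2 * N.P1 + 1 * 1 + 0 * N.s1 - N.q2 * N.q1 = -1
  linarith [N.fa, N.fC1, N.fC2, N.fB1, N.fB2, N.tC0, N.tC1, N.tB0, N.tB1, N.tB2]

lemma e_5_6 : N.E 5 6 := by
  show (-N.P1) * (-N.P2) + 1 * 1 + N.s1 * 0 - N.q1 * N.q2 = -1
  linarith [N.fa, N.fC1, N.fC2, N.fB1, N.fB2, N.tC0, N.tC1, N.tB0, N.tB1, N.tB2]

lemma e_6_13 : N.E 6 13 := by
  show (-N.P2) * (-N.ξ) + 1 * N.η + 0 * 0 - N.q2 * N.k = -1
  linarith [N.fa, N.fC1, N.fC2, N.fB1, N.fB2, N.tC0, N.tC1, N.tB0, N.tB1, N.tB2]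

lemma e_12_4 : N.E 12 4 := by
  show N.ξ * N.P1 + N.η * 1 + 0 * (-N.s1) - N.k * N.q1 = -1
  linarith [N.fa, N.fC1, N.fC2, N.fB1, N.fB2, N.tC0, N.tC1, N.tB0, N.tB1, N.tB2]

lemma e_4_3 : N.E 4 3 := by
  show N.P1 * N.P2 + 1 * 1 + (-N.s1) * 0 - N.q1 * N.q2 = -1
  linarith [N.fa, N.fC1, N.fC2, N.fB1, N.fB2, N.tC0, N.tC1, N.tB0, N.tB1, N.tB2]

lemma e_6_7 : N.E 6 7 := by
  show (-N.P2) * (-N.P1) + 1 * 1 + 0 * (-N.s1) - N.q2 * N.q1 = -1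
  linarith [N.fa, N.fC1, N.fC2, N.fB1, N.fB2, N.tC0, N.tC1, N.tB0, N.tB1, N.tB2]

lemma e_7_13 : N.E 7 13 := by
  show (-N.P1) * (-N.ξ) + 1 * N.η + (-N.s1) * 0 - N.q1 * N.k = -1
  linarith [N.fa, N.fC1, N.fC2, N.fB1, N.fB2, N.tC0, N.tC1, N.tB0, N.tB1, N.tB2]

lemma e_12_1 : N.E 12 1 := by
  show N.ξ * 0 + N.η * 1 + 0 * N.m - N.k * N.m = -1
  linarith [N.fa, N.fC1, N.fC2, N.fB1, N.fB2, N.tC0, N.tC1, N.tB0, N.tB1, N.tB2]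

lemma e_1_4 : N.E 1 4 := by
  show 0 * N.P1 + 1 * 1 + N.m * (-N.s1) - N.m * N.q1 = -1
  linarith [N.fa, N.fC1, N.fC2, N.fB1, N.fB2, N.tC0, N.tC1, N.tB0, N.tB1, N.tB2]

lemma e_7_1 : N.E 7 1 := by
  show (-N.P1) * 0 + 1 * 1 + (-N.s1) * N.m - N.q1 * N.m = -1
  linarith [N.fa, N.fC1, N.fC2, N.fB1, N.fB2, N.tC0, N.tC1, N.tB0, N.tB1, N.tB2]

lemma e_1_13 : N.E 1 13 := by
  show 0 * (-N.ξ) + 1 * N.η + N.m * 0 - N.m * N.k = -1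
  linarith [N.fa, N.fC1, N.fC2, N.fB1, N.fB2, N.tC0, N.tC1, N.tB0, N.tB1, N.tB2]

lemma e_0_8 : N.E 0 8 := by
  show 0 * 0 + 1 * N.R1 + (-N.m) * N.u1 - N.m * N.t1 = -1
  linarith [N.fa, N.fC1, N.fC2, N.fB1, N.fB2, N.tC0, N.tC1, N.tB0, N.tB1, N.tB2]

lemma e_8_12 : N.E 8 12 := by
  show 0 * N.ξ + N.R1 * N.η + N.u1 * 0 - N.t1 * N.k = -1
  linarith [N.fa, N.fC1, N.fC2, N.fB1, N.fB2, N.tC0, N.tC1, N.tB0, N.tB1, N.tB2]

lemma e_13_8 : N.E 13 8 := by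
  show (-N.ξ) * 0 + N.η * N.R1 + 0 * N.u1 - N.k * N.t1 = -1
  linarith [N.fa, N.fC1, N.fC2, N.fB1, N.fB2, N.tC0, N.tC1, N.tB0, N.tB1, N.tB2]

lemma e_8_9 : N.E 8 9 := by
  show 0 * 0 + N.R1 * N.R2 + N.u1 * N.u2 - N.t1 * N.t2 = -1
  linarith [N.fa, N.fC1, N.fC2, N.fB1, N.fB2, N.tC0, N.tC1, N.tB0, N.tB1, N.tB2]

lemma e_9_12 : N.E 9 12 := by
  show 0 * N.ξ + N.R2 * N.η + N.u2 * 0 - N.t2 * N.k = -1
  linarith [N.fa, N.fC1, N.fC2, N.fB1, N.fB2, N.tC0, N.tC1, N.tB0, N.tB1, N.tB2]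

lemma e_13_9 : N.E 13 9 := by
  show (-N.ξ) * 0 + N.η * N.R2 + 0 * N.u2 - N.k * N.t2 = -1
  linarith [N.fa, N.fC1, N.fC2, N.fB1, N.fB2, N.tC0, N.tC1, N.tB0, N.tB1, N.tB2]

lemma e_9_10 : N.E 9 10 := by
  show 0 * 0 + N.R2 * N.R2 + N.u2 * (-N.u2) - N.t2 * N.t2 = -1
  linarith [N.fa, N.fC1, N.fC2, N.fB1, N.fB2, N.tC0, N.tC1, N.tB0, N.tB1, N.tB2]

lemma e_10_12 : N.E 10 12 := by
  show 0 * N.ξ + N.R2 * N.η + (-N.u2) * 0 - N.t2 * N.k = -1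
  linarith [N.fa, N.fC1, N.fC2, N.fB1, N.fB2, N.tC0, N.tC1, N.tB0, N.tB1, N.tB2]

lemma e_13_10 : N.E 13 10 := by
  show (-N.ξ) * 0 + N.η * N.R2 + 0 * (-N.u2) - N.k * N.t2 = -1
  linarith [N.fa, N.fC1, N.fC2, N.fB1, N.fB2, N.tC0, N.tC1, N.tB0, N.tB1, N.tB2]

lemma e_10_11 : N.E 10 11 := by
  show 0 * 0 + N.R2 * N.R1 + (-N.u2) * (-N.u1) - N.t2 * N.t1 = -1
  linarith [N.fa, N.fC1, N.fC2, N.fB1, N.fB2, N.tC0, N.tC1, N.tB0, N.tB1, N.tB2]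

lemma e_11_12 : N.E 11 12 := by
  show 0 * N.ξ + N.R1 * N.η + (-N.u1) * 0 - N.t1 * N.k = -1
  linarith [N.fa, N.fC1, N.fC2, N.fB1, N.fB2, N.tC0, N.tC1, N.tB0, N.tB1, N.tB2]

lemma e_13_11 : N.E 13 11 := by
  show (-N.ξ) * 0 + N.η * N.R1 + 0 * (-N.u1) - N.k * N.t1 = -1
  linarith [N.fa, N.fC1, N.fC2, N.fB1, N.fB2, N.tC0, N.tC1, N.tB0, N.tB1, N.tB2]

lemma e_11_1 : N.E 11 1 := by
  show 0 * 0 + N.R1 * 1 + (-N.u1) * N.m - N.t1 * N.m = -1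
  linarith [N.fa, N.fC1, N.fC2, N.fB1, N.fB2, N.tC0, N.tC1, N.tB0, N.tB1, N.tB2]

lemma d_12_2_0 : N.D 12 2 0 := by
  show 0 < N.ξ * ((-N.s1) * (1 + N.m) - (1 + N.q1) * (-(-N.m))) - (-0) * (N.P1 * (1 + N.m) - (1 + N.q1) * 0) + (N.η + N.k) * (N.P1 * (-(-N.m)) - (-N.s1) * 0)
  linarith [N.oC0, N.oC1, mul_pos N.ξ_pos N.oB0, mul_pos N.ξ_pos N.oB1,
    mul_pos N.ξ_pos N.oB2]

lemma d_13_0_5 : N.D 13 0 5 := by
  show 0 < (-N.ξ) * ((-(-N.m)) * (1 + N.q1) - (1 + N.m) * (-N.s1)) - (-0) * (0 * (1 + N.q1) - (1 + N.m) * (-N.P1)) + (N.η + N.k) * (0 * (-N.s1) - (-(-N.m)) * (-N.P1))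
  linarith [N.oC0, N.oC1, mul_pos N.ξ_pos N.oB0, mul_pos N.ξ_pos N.oB1,
    mul_pos N.ξ_pos N.oB2]

lemma d_12_3_2 : N.D 12 3 2 := by
  show 0 < N.ξ * ((-0) * (1 + N.q1) - (1 + N.q2) * (-N.s1)) - (-0) * (N.P2 * (1 + N.q1) - (1 + N.q2) * N.P1) + (N.η + N.k) * (N.P2 * (-N.s1) - (-0) * N.P1)
  linarith [N.oC0, N.oC1, mul_pos N.ξ_pos N.oB0, mul_pos N.ξ_pos N.oB1,
    mul_pos N.ξ_pos N.oB2]

lemma d_13_5_6 : N.D 13 5 6 := by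
  show 0 < (-N.ξ) * ((-N.s1) * (1 + N.q2) - (1 + N.q1) * (-0)) - (-0) * ((-N.P1) * (1 + N.q2) - (1 + N.q1) * (-N.P2)) + (N.η + N.k) * ((-N.P1) * (-0) - (-N.s1) * (-N.P2))
  linarith [N.oC0, N.oC1, mul_pos N.ξ_pos N.oB0, mul_pos N.ξ_pos N.oB1,
    mul_pos N.ξ_pos N.oB2]

lemma d_12_4_3 : N.D 12 4 3 := by
  show 0 < N.ξ * ((-(-N.s1)) * (1 + N.q2) - (1 + N.q1) * (-0)) - (-0) * (N.P1 * (1 + N.q2) - (1 + N.q1) * N.P2) + (N.η + N.k) * (N.P1 * (-0) - (-(-N.s1)) * N.P2)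
  linarith [N.oC0, N.oC1, mul_pos N.ξ_pos N.oB0, mul_pos N.ξ_pos N.oB1,
    mul_pos N.ξ_pos N.oB2]

lemma d_13_6_7 : N.D 13 6 7 := by
  show 0 < (-N.ξ) * ((-0) * (1 + N.q1) - (1 + N.q2) * (-(-N.s1))) - (-0) * ((-N.P2) * (1 + N.q1) - (1 + N.q2) * (-N.P1)) + (N.η + N.k) * ((-N.P2) * (-(-N.s1)) - (-0) * (-N.P1))
  linarith [N.oC0, N.oC1, mul_pos N.ξ_pos N.oB0, mul_pos N.ξ_pos N.oB1,
    mul_pos N.ξ_pos N.oB2]

lemma d_12_1_4 : N.D 12 1 4 := by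
  show 0 < N.ξ * ((-N.m) * (1 + N.q1) - (1 + N.m) * (-(-N.s1))) - (-0) * (0 * (1 + N.q1) - (1 + N.m) * N.P1) + (N.η + N.k) * (0 * (-(-N.s1)) - (-N.m) * N.P1)
  linarith [N.oC0, N.oC1, mul_pos N.ξ_pos N.oB0, mul_pos N.ξ_pos N.oB1,
    mul_pos N.ξ_pos N.oB2]

lemma d_13_7_1 : N.D 13 7 1 := by
  show 0 < (-N.ξ) * ((-(-N.s1)) * (1 + N.m) - (1 + N.q1) * (-N.m)) - (-0) * ((-N.P1) * (1 + N.m) - (1 + N.q1) * 0) + (N.η + N.k) * ((-N.P1) * (-N.m) - (-(-N.s1)) * 0)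
  linarith [N.oC0, N.oC1, mul_pos N.ξ_pos N.oB0, mul_pos N.ξ_pos N.oB1,
    mul_pos N.ξ_pos N.oB2]

lemma d_12_0_8 : N.D 12 0 8 := by
  show 0 < N.ξ * ((-(-N.m)) * (N.R1 + N.t1) - (1 + N.m) * (-N.u1)) - (-0) * (0 * (N.R1 + N.t1) - (1 + N.m) * 0) + (N.η + N.k) * (0 * (-N.u1) - (-(-N.m)) * 0)
  linarith [N.oC0, N.oC1, mul_pos N.ξ_pos N.oB0, mul_pos N.ξ_pos N.oB1,
    mul_pos N.ξ_pos N.oB2]

lemma d_13_8_0 : N.D 13 8 0 := by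
  show 0 < (-N.ξ) * ((-N.u1) * (1 + N.m) - (N.R1 + N.t1) * (-(-N.m))) - (-0) * (0 * (1 + N.m) - (N.R1 + N.t1) * 0) + (N.η + N.k) * (0 * (-(-N.m)) - (-N.u1) * 0)
  linarith [N.oC0, N.oC1, mul_pos N.ξ_pos N.oB0, mul_pos N.ξ_pos N.oB1,
    mul_pos N.ξ_pos N.oB2]

lemma d_12_8_9 : N.D 12 8 9 := by
  show 0 < N.ξ * ((-N.u1) * (N.R2 + N.t2) - (N.R1 + N.t1) * (-N.u2)) - (-0) * (0 * (N.R2 + N.t2) - (N.R1 + N.t1) * 0) + (N.η + N.k) * (0 * (-N.u2) - (-N.u1) * 0)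
  linarith [N.oC0, N.oC1, mul_pos N.ξ_pos N.oB0, mul_pos N.ξ_pos N.oB1,
    mul_pos N.ξ_pos N.oB2]

lemma d_13_9_8 : N.D 13 9 8 := by
  show 0 < (-N.ξ) * ((-N.u2) * (N.R1 + N.t1) - (N.R2 + N.t2) * (-N.u1)) - (-0) * (0 * (N.R1 + N.t1) - (N.R2 + N.t2) * 0) + (N.η + N.k) * (0 * (-N.u1) - (-N.u2) * 0)
  linarith [N.oC0, N.oC1, mul_pos N.ξ_pos N.oB0, mul_pos N.ξ_pos N.oB1,
    mul_pos N.ξ_pos N.oB2]

lemma d_12_9_10 : N.D 12 9 10 := by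
  show 0 < N.ξ * ((-N.u2) * (N.R2 + N.t2) - (N.R2 + N.t2) * (-(-N.u2))) - (-0) * (0 * (N.R2 + N.t2) - (N.R2 + N.t2) * 0) + (N.η + N.k) * (0 * (-(-N.u2)) - (-N.u2) * 0)
  linarith [N.oC0, N.oC1, mul_pos N.ξ_pos N.oB0, mul_pos N.ξ_pos N.oB1,
    mul_pos N.ξ_pos N.oB2]

lemma d_13_10_9 : N.D 13 10 9 := by
  show 0 < (-N.ξ) * ((-(-N.u2)) * (N.R2 + N.t2) - (N.R2 + N.t2) * (-N.u2)) - (-0) * (0 * (N.R2 + N.t2) - (N.R2 + N.t2) * 0) + (N.η + N.k) * (0 * (-N.u2) - (-(-N.u2)) * 0)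
  linarith [N.oC0, N.oC1, mul_pos N.ξ_pos N.oB0, mul_pos N.ξ_pos N.oB1,
    mul_pos N.ξ_pos N.oB2]

lemma d_12_10_11 : N.D 12 10 11 := by
  show 0 < N.ξ * ((-(-N.u2)) * (N.R1 + N.t1) - (N.R2 + N.t2) * (-(-N.u1))) - (-0) * (0 * (N.R1 + N.t1) - (N.R2 + N.t2) * 0) + (N.η + N.k) * (0 * (-(-N.u1)) - (-(-N.u2)) * 0)
  linarith [N.oC0, N.oC1, mul_pos N.ξ_pos N.oB0, mul_pos N.ξ_pos N.oB1,
    mul_pos N.ξ_pos N.oB2]

lemma d_13_11_10 : N.D 13 11 10 := by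
  show 0 < (-N.ξ) * ((-(-N.u1)) * (N.R2 + N.t2) - (N.R1 + N.t1) * (-(-N.u2))) - (-0) * (0 * (N.R2 + N.t2) - (N.R1 + N.t1) * 0) + (N.η + N.k) * (0 * (-(-N.u2)) - (-(-N.u1)) * 0)
  linarith [N.oC0, N.oC1, mul_pos N.ξ_pos N.oB0, mul_pos N.ξ_pos N.oB1,
    mul_pos N.ξ_pos N.oB2]

lemma d_12_11_1 : N.D 12 11 1 := by
  show 0 < N.ξ * ((-(-N.u1)) * (1 + N.m) - (N.R1 + N.t1) * (-N.m)) - (-0) * (0 * (1 + N.m) - (N.R1 + N.t1) * 0) + (N.η + N.k) * (0 * (-N.m) - (-(-N.u1)) * 0)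
  linarith [N.oC0, N.oC1, mul_pos N.ξ_pos N.oB0, mul_pos N.ξ_pos N.oB1,
    mul_pos N.ξ_pos N.oB2]

lemma d_13_1_11 : N.D 13 1 11 := by
  show 0 < (-N.ξ) * ((-N.m) * (N.R1 + N.t1) - (1 + N.m) * (-(-N.u1))) - (-0) * (0 * (N.R1 + N.t1) - (1 + N.m) * 0) + (N.η + N.k) * (0 * (-(-N.u1)) - (-N.m) * 0)
  linarith [N.oC0, N.oC1, mul_pos N.ξ_pos N.oB0, mul_pos N.ξ_pos N.oB1,
    mul_pos N.ξ_pos N.oB2]

lemma F_base : ∀ t ∈ Nums.base, N.F t.1 t.2.1 t.2.2 := by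
  intro t ht
  simp only [Nums.base, List.mem_cons, List.not_mem_nil, or_false] at ht
  rcases ht with rfl | rfl | rfl | rfl | rfl | rfl | rfl | rfl | rfl | rfl | rfl | rfl | rfl | rfl | rfl | rfl | rfl | rfl
  · exact ⟨N.e_12_2, N.e_2_0, N.e_0_12, N.d_12_2_0⟩
  · exact ⟨N.e_13_0, N.e_0_5, N.e_5_13, N.d_13_0_5⟩
  · exact ⟨N.e_12_3, N.e_3_2, N.E_symm N.e_12_2, N.d_12_3_2⟩
  · exact ⟨N.E_symm N.e_5_13, N.e_5_6, N.e_6_13, N.d_13_5_6⟩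
  · exact ⟨N.e_12_4, N.e_4_3, N.E_symm N.e_12_3, N.d_12_4_3⟩
  · exact ⟨N.E_symm N.e_6_13, N.e_6_7, N.e_7_13, N.d_13_6_7⟩
  · exact ⟨N.e_12_1, N.e_1_4, N.E_symm N.e_12_4, N.d_12_1_4⟩
  · exact ⟨N.E_symm N.e_7_13, N.e_7_1, N.e_1_13, N.d_13_7_1⟩
  · exact ⟨N.E_symm N.e_0_12, N.e_0_8, N.e_8_12, N.d_12_0_8⟩
  · exact ⟨N.e_13_8, N.E_symm N.e_0_8, N.E_symm N.e_13_0, N.d_13_8_0⟩
  · exact ⟨N.E_symm N.e_8_12, N.e_8_9, N.e_9_12, N.d_12_8_9⟩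
  · exact ⟨N.e_13_9, N.E_symm N.e_8_9, N.E_symm N.e_13_8, N.d_13_9_8⟩
  · exact ⟨N.E_symm N.e_9_12, N.e_9_10, N.e_10_12, N.d_12_9_10⟩
  · exact ⟨N.e_13_10, N.E_symm N.e_9_10, N.E_symm N.e_13_9, N.d_13_10_9⟩
  · exact ⟨N.E_symm N.e_10_12, N.e_10_11, N.e_11_12, N.d_12_10_11⟩
  · exact ⟨N.e_13_11, N.E_symm N.e_10_11, N.E_symm N.e_13_10, N.d_13_11_10⟩
  · exact ⟨N.E_symm N.e_11_12, N.e_11_1, N.E_symm N.e_12_1, N.d_12_11_1⟩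
  · exact ⟨N.E_symm N.e_1_13, N.E_symm N.e_11_1, N.E_symm N.e_13_11, N.d_13_1_11⟩

lemma F_all {u v w : Fin 14} (h : K u v w) : N.F u v w := by
  rcases Nums.K_base u v w h with h | h | h
  · exact N.F_base _ h
  · exact N.F_rot (N.F_rot (N.F_base _ h))
  · exact N.F_rot (N.F_base _ h)

lemma norm_all (v : Fin 14) : N.cx v ^ 2 + N.cy v ^ 2 + N.cz v ^ 2 = 1 + N.cq v ^ 2 := by
  have h2 := N.nC1
  have h3 := N.nC2
  have h4 := N.nB1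
  have h5 := N.nB2
  have h6 := N.nf
  fin_cases v <;> simp [cx, cy, cz, cq] <;> linarith

lemma cq_pos (v : Fin 14) : 0 < N.cq v := by
  have h1 := N.m_pos
  have h2 := N.hq1
  have h3 := N.hq2
  have h4 := N.ht1
  have h5 := N.ht2
  have h6 := N.k_pos
  fin_cases v <;> simp [cq] <;> assumption

lemma cy_bdry {v : Fin 14} (h : v.val < 8) : N.cy v = 1 := by
  have : ∀ v : Fin 14, v.val < 8 → v = 0 ∨ v = 1 ∨ v = 2 ∨ v = 3 ∨ v = 4 ∨ v = 5 ∨ v = 6 ∨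
    v = 7 := by decide
  rcases this v h with rfl | rfl | rfl | rfl | rfl | rfl | rfl | rfl <;> rfl

lemma cy_int {v : Fin 14} (h : ¬ v.val < 8) : 1 < N.cy v := by
  have : ∀ v : Fin 14, ¬ v.val < 8 → v = 8 ∨ v = 9 ∨ v = 10 ∨ v = 11 ∨ v = 12 ∨ v = 13 := by
    decide
  rcases this v h with rfl | rfl | rfl | rfl | rfl | rfl
  · exact N.hR1
  · exact N.hR2
  · exact N.hR2
  · exact N.hR1
  · exact N.hη
  · exact N.hη

lemma cb_pos (v : Fin 14) : 0 < N.cb v := by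
  have h := N.cq_pos v
  by_cases hv : v.val < 8
  · rw [cb, N.cy_bdry hv]; linarith
  · have := N.cy_int hv
    rw [cb]; linarith

/-- the centre -/
noncomputable def ctr (v : Fin 14) : ℂ := ⟨N.cx v / N.cb v, -N.cz v / N.cb v⟩

/-- the radius -/
noncomputable def rad (v : Fin 14) : ℝ := 1 / N.cb v

lemma rad_pos (v : Fin 14) : 0 < N.rad v := div_pos one_pos (N.cb_pos v)

lemma tangent {u v : Fin 14} (h : N.E u v) : dist (N.ctr u) (N.ctr v) = N.rad u + N.rad v := by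
  have h1 := N.cb_pos u
  have h2 := N.cb_pos v
  have h3 := N.norm_all u
  have h4 := N.norm_all v
  have h5 := N.rad_pos u
  have h6 := N.rad_pos v
  have key : dist (N.ctr u) (N.ctr v) ^ 2 = (N.rad u + N.rad v) ^ 2 := by
    rw [Complex.dist_eq, Complex.sq_norm, Complex.normSq_apply]
    simp only [ctr, rad, Complex.sub_re, Complex.sub_im]
    unfold E at h
    have e : (N.cx u * N.cb v - N.cx v * N.cb u) ^ 2 + (N.cz u * N.cb v - N.cz v * N.cb u) ^ 2 =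
        (N.cb u + N.cb v) ^ 2 := by
      unfold cb
      linear_combination (N.cy v + N.cq v) ^ 2 * h3 + (N.cy u + N.cq u) ^ 2 * h4 -
        2 * (N.cy u + N.cq u) * (N.cy v + N.cq v) * h
    field_simp
    linear_combination e
  exact (pow_left_inj₀ dist_nonneg (by positivity) two_ne_zero).1 key

lemma oriented {u v w : Fin 14} (h : N.D u v w) :
    0 < ((N.ctr w - N.ctr u) * (starRingEnd ℂ) (N.ctr v - N.ctr u)).im := by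
  have h1 := N.cb_pos u
  have h2 := N.cb_pos v
  have h3 := N.cb_pos w
  unfold D at h
  have h4 := div_pos h (mul_pos (mul_pos h1 h2) h3)
  refine lt_of_lt_of_eq h4 ?_
  simp only [ctr, Complex.mul_im, Complex.sub_re, Complex.sub_im, Complex.conj_re,
    Complex.conj_im]
  field_simp
  ring

lemma norm_ctr_sq (v : Fin 14) : ‖N.ctr v‖ ^ 2 = (N.cx v ^ 2 + N.cz v ^ 2) / N.cb v ^ 2 := by
  have h1 := N.cb_pos v
  rw [Complex.sq_norm, Complex.normSq_apply]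
  simp only [ctr]
  field_simp

lemma interior {v : Fin 14} (hv : ¬ v.val < 8) : ‖N.ctr v‖ + N.rad v < 1 := by
  have h1 := N.cb_pos v
  have h2 := N.cy_int hv
  have h3 := N.cq_pos v
  have h4 := N.norm_all v
  have hb : 1 < N.cb v := by rw [cb]; linarith
  have key : ‖N.ctr v‖ ^ 2 < (1 - N.rad v) ^ 2 := by
    rw [norm_ctr_sq]
    have e : (1 - N.rad v) ^ 2 = (N.cb v - 1) ^ 2 / N.cb v ^ 2 := by
      rw [rad]; field_simp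
    rw [e]
    apply div_lt_div_of_pos_right _ (by positivity)
    have : N.cx v ^ 2 + N.cz v ^ 2 = 1 + N.cq v ^ 2 - N.cy v ^ 2 := by linarith
    rw [this]
    unfold cb at *
    nlinarith
  have h5 : 0 ≤ 1 - N.rad v := by
    rw [rad, sub_nonneg, div_le_one h1]; exact hb.le
  have := lt_of_pow_lt_pow_left₀ 2 h5 key
  linarith

lemma horocycle {v : Fin 14} (hv : v.val < 8) : ‖N.ctr v‖ + N.rad v = 1 := by
  have h1 := N.cb_pos v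
  have h2 := N.cy_bdry hv
  have h3 := N.cq_pos v
  have h4 := N.norm_all v
  have key : ‖N.ctr v‖ ^ 2 = (N.cq v / N.cb v) ^ 2 := by
    rw [norm_ctr_sq, div_pow]
    congr 1
    rw [h2] at h4
    linarith
  have h5 : 0 ≤ N.cq v / N.cb v := by positivity
  have h6 : ‖N.ctr v‖ = N.cq v / N.cb v :=
    (pow_left_inj₀ (norm_nonneg _) h5 two_ne_zero).1 key
  rw [h6, rad, ← add_div, div_eq_one_iff_eq h1.ne', cb, h2]
  ring

/-- direction from `v` to `u` -/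
noncomputable def dir (v u : Fin 14) : ℂ := N.ctr u - N.ctr v

lemma angle_eq (u v w : Fin 14) : EuclideanGeometry.angle (N.ctr u) (N.ctr v) (N.ctr w) =
    angle (N.dir v u) (N.dir v w) := rfl

lemma plane_sum (v : Fin 14) {n : ℕ} (g : Fin n → Fin 14 × Fin 14)
    (hinj : Function.Injective g) (hg : ∀ p : Fin 14 × Fin 14, K v p.1 p.2 ↔ ∃ i, g i = p) :
    planeAngleSum K N.ctr v = ∑ i, angle (N.dir v (g i).1) (N.dir v (g i).2) := by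
  unfold planeAngleSum
  exact sum_enum _ g hinj hg (fun x y => angle (N.dir v x) (N.dir v y))

/-- directions along the imaginary axis -/
lemma dir_mid {u v : Fin 14} (hu : N.cx u = 0) (hv : N.cx v = 0) :
    N.dir v u = (((N.cz v * N.cb u - N.cz u * N.cb v) / (N.cb u * N.cb v)) : ℝ) • Complex.I := by
  have h1 := N.cb_pos u
  have h2 := N.cb_pos v
  apply Complex.ext
  · rw [dir, Complex.sub_re, Complex.real_smul, Complex.re_ofReal_mul]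
    simp [ctr, hu, hv]
  · rw [dir, Complex.sub_im, Complex.real_smul, Complex.im_ofReal_mul]
    simp only [ctr, Complex.I_im]
    field_simp
    ring

lemma mid_opp {u v w f : Fin 14} (hu : N.cx u = 0) (hv : N.cx v = 0) (hw : N.cx w = 0)
    (h1 : 0 < N.cz v * N.cb u - N.cz u * N.cb v) (h2 : 0 < N.cz w * N.cb v - N.cz v * N.cb w) :
    angle (N.dir v u) (N.dir v f) + angle (N.dir v f) (N.dir v w) = π := by
  have a1 := N.cb_pos u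
  have a2 := N.cb_pos v
  have a3 := N.cb_pos w
  rw [N.dir_mid hu hv, N.dir_mid hw hv]
  apply angle_opp'
  · exact div_pos h1 (mul_pos a1 a2)
  · apply div_neg_of_neg_of_pos _ (mul_pos a3 a2)
    linarith

lemma psum_8 : planeAngleSum K N.ctr 8 = 2 * π := by
  rw [N.plane_sum 8 ![(12, 0), (0, 13), (9, 12), (13, 9)] (by decide +kernel)
    (by decide +kernel), Fin.sum_univ_four]
  show angle (N.dir 8 12) (N.dir 8 0) + angle (N.dir 8 0) (N.dir 8 13) +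
    angle (N.dir 8 9) (N.dir 8 12) + angle (N.dir 8 13) (N.dir 8 9) = 2 * π
  have h1 : 0 < N.cz 8 * N.cb 0 - N.cz 0 * N.cb 8 := by
    show 0 < N.u1 * (1 + N.m) - (-N.m) * (N.R1 + N.t1)
    linarith [N.oB0, N.oB1, N.oB2]
  have h2 : 0 < N.cz 9 * N.cb 8 - N.cz 8 * N.cb 9 := by
    show 0 < N.u2 * (N.R1 + N.t1) - N.u1 * (N.R2 + N.t2)
    linarith [N.oB0, N.oB1, N.oB2]
  have k1 := N.mid_opp (f := 12) (u := 0) (v := 8) (w := 9) rfl rfl rfl h1 h2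
  have k2 := N.mid_opp (f := 13) (u := 0) (v := 8) (w := 9) rfl rfl rfl h1 h2
  rw [angle_comm (N.dir 8 12) (N.dir 8 0), angle_comm (N.dir 8 9) (N.dir 8 12)]
  linarith

lemma psum_9 : planeAngleSum K N.ctr 9 = 2 * π := by
  rw [N.plane_sum 9 ![(12, 8), (8, 13), (10, 12), (13, 10)] (by decide +kernel)
    (by decide +kernel), Fin.sum_univ_four]
  show angle (N.dir 9 12) (N.dir 9 8) + angle (N.dir 9 8) (N.dir 9 13) +
    angle (N.dir 9 10) (N.dir 9 12) + angle (N.dir 9 13) (N.dir 9 10) = 2 * π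
  have h1 : 0 < N.cz 9 * N.cb 8 - N.cz 8 * N.cb 9 := by
    show 0 < N.u2 * (N.R1 + N.t1) - N.u1 * (N.R2 + N.t2)
    linarith [N.oB0, N.oB1, N.oB2]
  have h2 : 0 < N.cz 10 * N.cb 9 - N.cz 9 * N.cb 10 := by
    show 0 < (-N.u2) * (N.R2 + N.t2) - N.u2 * (N.R2 + N.t2)
    linarith [N.oB0, N.oB1, N.oB2]
  have k1 := N.mid_opp (f := 12) (u := 8) (v := 9) (w := 10) rfl rfl rfl h1 h2
  have k2 := N.mid_opp (f := 13) (u := 8) (v := 9) (w := 10) rfl rfl rfl h1 h2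
  rw [angle_comm (N.dir 9 12) (N.dir 9 8), angle_comm (N.dir 9 10) (N.dir 9 12)]
  linarith

lemma psum_10 : planeAngleSum K N.ctr 10 = 2 * π := by
  rw [N.plane_sum 10 ![(12, 9), (9, 13), (11, 12), (13, 11)] (by decide +kernel)
    (by decide +kernel), Fin.sum_univ_four]
  show angle (N.dir 10 12) (N.dir 10 9) + angle (N.dir 10 9) (N.dir 10 13) +
    angle (N.dir 10 11) (N.dir 10 12) + angle (N.dir 10 13) (N.dir 10 11) = 2 * π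
  have h1 : 0 < N.cz 10 * N.cb 9 - N.cz 9 * N.cb 10 := by
    show 0 < (-N.u2) * (N.R2 + N.t2) - N.u2 * (N.R2 + N.t2)
    linarith [N.oB0, N.oB1, N.oB2]
  have h2 : 0 < N.cz 11 * N.cb 10 - N.cz 10 * N.cb 11 := by
    show 0 < (-N.u1) * (N.R2 + N.t2) - (-N.u2) * (N.R1 + N.t1)
    linarith [N.oB0, N.oB1, N.oB2]
  have k1 := N.mid_opp (f := 12) (u := 9) (v := 10) (w := 11) rfl rfl rfl h1 h2
  have k2 := N.mid_opp (f := 13) (u := 9) (v := 10) (w := 11) rfl rfl rfl h1 h2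
  rw [angle_comm (N.dir 10 12) (N.dir 10 9), angle_comm (N.dir 10 11) (N.dir 10 12)]
  linarith

lemma psum_11 : planeAngleSum K N.ctr 11 = 2 * π := by
  rw [N.plane_sum 11 ![(12, 10), (10, 13), (1, 12), (13, 1)] (by decide +kernel)
    (by decide +kernel), Fin.sum_univ_four]
  show angle (N.dir 11 12) (N.dir 11 10) + angle (N.dir 11 10) (N.dir 11 13) +
    angle (N.dir 11 1) (N.dir 11 12) + angle (N.dir 11 13) (N.dir 11 1) = 2 * π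
  have h1 : 0 < N.cz 11 * N.cb 10 - N.cz 10 * N.cb 11 := by
    show 0 < (-N.u1) * (N.R2 + N.t2) - (-N.u2) * (N.R1 + N.t1)
    linarith [N.oB0, N.oB1, N.oB2]
  have h2 : 0 < N.cz 1 * N.cb 11 - N.cz 11 * N.cb 1 := by
    show 0 < N.m * (N.R1 + N.t1) - (-N.u1) * (1 + N.m)
    linarith [N.oB0, N.oB1, N.oB2]
  have k1 := N.mid_opp (f := 12) (u := 10) (v := 11) (w := 1) rfl rfl rfl h1 h2
  have k2 := N.mid_opp (f := 13) (u := 10) (v := 11) (w := 1) rfl rfl rfl h1 h2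
  rw [angle_comm (N.dir 11 12) (N.dir 11 10), angle_comm (N.dir 11 1) (N.dir 11 12)]
  linarith

/-- directions at `12` -/
noncomputable def w12 (i : Fin 9) : ℂ := N.dir 12 (nbr12 i)

lemma pwraps12 : (∑ i : Fin 9,
    (if 0 ≤ (N.w12 i).im ∧ (N.w12 (i + 1)).im < 0 then (1 : ℝ) else 0)) = 2 := by
  have hm := N.m_pos
  have hs1 := N.hs1
  have hu1 := N.hu1
  have hu2 := N.hu2
  have e0 : ∀ i : Fin 9, (N.w12 i).im = -N.cz (nbr12 i) / N.cb (nbr12 i) := by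
    intro i
    have : N.cz 12 = 0 := rfl
    simp [w12, dir, ctr, this]
  have e : ∀ i : Fin 9, (if 0 ≤ (N.w12 i).im ∧ (N.w12 (i + 1)).im < 0 then (1 : ℝ) else 0) =
      if N.cz (nbr12 i) ≤ 0 ∧ 0 < N.cz (nbr12 (i + 1)) then (1 : ℝ) else 0 := by
    intro i
    have h1 := N.cb_pos (nbr12 i)
    have h2 := N.cb_pos (nbr12 (i + 1))
    rw [e0, e0]
    refine if_congr (and_congr ?_ ?_) rfl rfl
    · rw [le_div_iff₀ h1, zero_mul, neg_nonneg]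
    · rw [div_lt_iff₀ h2, zero_mul, neg_lt_zero]
  rw [Finset.sum_congr rfl (fun i _ => e i)]
  have hf : ∀ f : Fin 9 → ℝ, ∑ i, f i = f 0 + f 1 + f 2 + f 3 + f 4 + f 5 + f 6 + f 7 + f 8 := by
    intro f; simp [Fin.sum_univ_succ]; ring
  rw [hf]
  show (if -N.m ≤ 0 ∧ 0 < N.u1 then (1 : ℝ) else 0) + (if N.u1 ≤ 0 ∧ 0 < N.u2 then (1 : ℝ) else 0) +
    (if N.u2 ≤ 0 ∧ 0 < -N.u2 then (1 : ℝ) else 0) + (if -N.u2 ≤ 0 ∧ 0 < -N.u1 then (1 : ℝ) else 0) +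
    (if -N.u1 ≤ 0 ∧ 0 < N.m then (1 : ℝ) else 0) + (if N.m ≤ 0 ∧ 0 < -N.s1 then (1 : ℝ) else 0) +
    (if -N.s1 ≤ 0 ∧ 0 < (0 : ℝ) then (1 : ℝ) else 0) + (if (0 : ℝ) ≤ 0 ∧ 0 < N.s1 then (1 : ℝ) else 0) +
    (if N.s1 ≤ 0 ∧ 0 < -N.m then (1 : ℝ) else 0) = 2
  rw [if_neg (by intro h; linarith [h.2]), if_neg (by intro h; linarith [h.2]), if_pos ⟨by linarith, by linarith⟩,
    if_neg (by intro h; linarith [h.1]), if_neg (by intro h; linarith [h.1]), if_neg (by intro h; linarith [h.1]),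
    if_neg (by intro h; linarith [h.2]), if_pos ⟨by linarith, by linarith⟩, if_neg (by intro h; linarith [h.1])]
  norm_num

lemma psum_12 : planeAngleSum K N.ctr 12 = 4 * π := by
  rw [N.plane_sum 12 (fun i : Fin 9 => (nbr12 i, nbr12 (i + 1))) (by decide +kernel)
    (by decide +kernel)]
  refine turning_nine N.w12 ?_ N.pwraps12
  intro i
  have h := N.oriented (N.F_all (Nums.K12 i)).2.2.2
  rw [mul_comm] at h
  exact h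

/-- directions at `13` -/
noncomputable def w13 (i : Fin 9) : ℂ := N.dir 13 (nbr13 i)

lemma pwraps13 : (∑ i : Fin 9,
    (if 0 ≤ (N.w13 i).im ∧ (N.w13 (i + 1)).im < 0 then (1 : ℝ) else 0)) = 2 := by
  have hm := N.m_pos
  have hs1 := N.hs1
  have hu1 := N.hu1
  have hu2 := N.hu2
  have e0 : ∀ i : Fin 9, (N.w13 i).im = -N.cz (nbr13 i) / N.cb (nbr13 i) := by
    intro i
    have : N.cz 13 = 0 := rfl
    simp [w13, dir, ctr, this]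
  have e : ∀ i : Fin 9, (if 0 ≤ (N.w13 i).im ∧ (N.w13 (i + 1)).im < 0 then (1 : ℝ) else 0) =
      if N.cz (nbr13 i) ≤ 0 ∧ 0 < N.cz (nbr13 (i + 1)) then (1 : ℝ) else 0 := by
    intro i
    have h1 := N.cb_pos (nbr13 i)
    have h2 := N.cb_pos (nbr13 (i + 1))
    rw [e0, e0]
    refine if_congr (and_congr ?_ ?_) rfl rfl
    · rw [le_div_iff₀ h1, zero_mul, neg_nonneg]
    · rw [div_lt_iff₀ h2, zero_mul, neg_lt_zero]
  rw [Finset.sum_congr rfl (fun i _ => e i)]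
  have hf : ∀ f : Fin 9 → ℝ, ∑ i, f i = f 0 + f 1 + f 2 + f 3 + f 4 + f 5 + f 6 + f 7 + f 8 := by
    intro f; simp [Fin.sum_univ_succ]; ring
  rw [hf]
  show (if -N.m ≤ 0 ∧ 0 < N.s1 then (1 : ℝ) else 0) + (if N.s1 ≤ 0 ∧ 0 < (0 : ℝ) then (1 : ℝ) else 0) +
    (if (0 : ℝ) ≤ 0 ∧ 0 < -N.s1 then (1 : ℝ) else 0) + (if -N.s1 ≤ 0 ∧ 0 < N.m then (1 : ℝ) else 0) +
    (if N.m ≤ 0 ∧ 0 < -N.u1 then (1 : ℝ) else 0) + (if -N.u1 ≤ 0 ∧ 0 < -N.u2 then (1 : ℝ) else 0) +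
    (if -N.u2 ≤ 0 ∧ 0 < N.u2 then (1 : ℝ) else 0) + (if N.u2 ≤ 0 ∧ 0 < N.u1 then (1 : ℝ) else 0) +
    (if N.u1 ≤ 0 ∧ 0 < -N.m then (1 : ℝ) else 0) = 2
  rw [if_pos ⟨by linarith, by linarith⟩, if_neg (by intro h; linarith [h.1]), if_neg (by intro h; linarith [h.2]),
    if_pos ⟨by linarith, by linarith⟩, if_neg (by intro h; linarith [h.1]), if_neg (by intro h; linarith [h.1]),
    if_neg (by intro h; linarith [h.1]), if_neg (by intro h; linarith [h.2]), if_neg (by intro h; linarith [h.2])]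
  norm_num

lemma psum_13 : planeAngleSum K N.ctr 13 = 4 * π := by
  rw [N.plane_sum 13 (fun i : Fin 9 => (nbr13 i, nbr13 (i + 1))) (by decide +kernel)
    (by decide +kernel)]
  refine turning_nine N.w13 ?_ N.pwraps13
  intro i
  have h := N.oriented (N.F_all (Nums.K13 i)).2.2.2
  rw [mul_comm] at h
  exact h

/-- The horocycle packing. -/
noncomputable def pack : HorocyclePacking K mult where
  ctr := N.ctr
  rad := N.rad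
  rad_pos := N.rad_pos
  tangent u v w h := N.tangent (N.F_all h).1
  oriented u v w h := N.oriented (N.F_all h).2.2.2
  interior v hv := N.interior fun h => hv ((isBoundary_iff v).2 h)
  horocycle v hv := N.horocycle ((isBoundary_iff v).1 hv)
  branch v hv := by
    have h := fun h => hv ((isBoundary_iff v).2 h)
    have : ∀ v : Fin 14, ¬ v.val < 8 → v = 8 ∨ v = 9 ∨ v = 10 ∨ v = 11 ∨ v = 12 ∨ v = 13 := by
      decide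
    have m0 : ((0 : ℕ) : ℝ) = 0 := Nat.cast_zero
    have m1 : ((1 : ℕ) : ℝ) = 1 := Nat.cast_one
    rcases this v h with rfl | rfl | rfl | rfl | rfl | rfl
    · rw [N.psum_8, show mult 8 = 0 from rfl, m0]; ring
    · rw [N.psum_9, show mult 9 = 0 from rfl, m0]; ring
    · rw [N.psum_10, show mult 10 = 0 from rfl, m0]; ring
    · rw [N.psum_11, show mult 11 = 0 from rfl, m0]; ring
    · rw [N.psum_12, show mult 12 = 1 from rfl, m1]; ring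
    · rw [N.psum_13, show mult 13 = 1 from rfl, m1]; ring

end HNums

end Pool.Agent.BranchedPacking.Ex
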