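import Pool.Agent.Lib_MP_ff3433_gt.Build

/-!
# The two packings are not equivalent
-/

namespace Pool.Agent.BranchedPacking.Ex

open Pool.Agent.BranchedPacking Real

/-- adjacency in the double -/
def A2 (i j : Fin 20) : Prop := tab2 i j < 20 ∨ tab2 j i < 20

instance (i j : Fin 20) : Decidable (A2 i j) :=
  inferInstanceAs (Decidable (tab2 i j < 20 ∨ tab2 j i < 20))

/-- degree in the double -/
def deg2 (i : Fin 20) : ℕ := (Finset.univ.filter (fun j => A2 i j)).card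

lemma deg2_perm (τ : Equiv.Perm (Fin 20)) (h : ∀ i j, A2 (τ i) (τ j) ↔ A2 i j) (i : Fin 20) :
    deg2 (τ i) = deg2 i := by
  unfold deg2
  symm
  apply Finset.card_bijective τ τ.bijective
  intro j
  simp [h]

lemma deg8 : ∀ i : Fin 20, deg2 i = 8 → i = 0 ∨ i = 1 := by decide +kernel

lemma chain_cases : ∀ p0 p1 : Fin 20, (p0 = 0 ∨ p0 = 1) → (p1 = 0 ∨ p1 = 1) → p0 ≠ p1 →
    ∀ p2, A2 p0 p2 → deg2 p2 = 4 → ∀ p3, A2 p2 p3 → deg2 p3 = 4 → ∀ p4, A2 p3 p4 →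
    deg2 p4 = 4 → A2 p4 p1 →
    ((p2 = 2 ∧ p1 = 1) ∨ (p2 = 5 ∧ p1 = 1) ∨ (p2 = 4 ∧ p1 = 0) ∨ (p2 = 7 ∧ p1 = 0)) := by
  decide +kernel

lemma deg_vals : deg2 0 = 8 ∧ deg2 1 = 8 ∧ deg2 2 = 4 ∧ deg2 3 = 4 ∧ deg2 4 = 4 ∧
    A2 0 2 ∧ A2 2 3 ∧ A2 3 4 ∧ A2 4 1 := by decide +kernel

lemma perm_cases (τ : Equiv.Perm (Fin 20)) (h : ∀ i j, A2 (τ i) (τ j) ↔ A2 i j) :
    (τ 2 = 2 ∧ τ 1 = 1) ∨ (τ 2 = 5 ∧ τ 1 = 1) ∨ (τ 2 = 4 ∧ τ 1 = 0) ∨ (τ 2 = 7 ∧ τ 1 = 0) := by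
  obtain ⟨h0, h1, h2, h3, h4, a1, a2, a3, a4⟩ := deg_vals
  have hd := deg2_perm τ h
  exact chain_cases (τ 0) (τ 1) (deg8 _ (by rw [hd, h0])) (deg8 _ (by rw [hd, h1]))
    (fun e => absurd (τ.injective e) (by decide)) (τ 2) ((h _ _).2 a1) (by rw [hd, h2]) (τ 3)
    ((h _ _).2 a2) (by rw [hd, h3]) (τ 4) ((h _ _).2 a3) (by rw [hd, h4]) ((h _ _).2 a4)

namespace Nums

variable (N : Nums)

lemma mem_circle_iff (t : DoubleVertex K) (x : Metric.sphere (0 : E3) 1) :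
    x ∈ N.pack.circle t ↔ inner ℝ (x : E3) (N.data.dvec t) = N.data.q (under t) := by
  have h1 : N.pack.ctr t = ‖N.data.dvec t‖⁻¹ • N.data.dvec t := rfl
  have h2 : cos (N.pack.rad t) = N.data.q (under t) / ‖N.data.dvec t‖ := N.data.cos_rad t
  have h3 : 0 < ‖N.data.dvec t‖ := norm_pos_iff.2 (N.data.dvec_ne t)
  show inner ℝ (x : E3) (N.pack.ctr t) = cos (N.pack.rad t) ↔ _
  rw [h1, h2, inner_smul_right]
  constructor
  · intro h
    field_simp at h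
    exact h
  · intro h
    field_simp
    exact h

lemma sphere_coords (x : Metric.sphere (0 : E3) 1) :
    (x : E3) 0 ^ 2 + (x : E3) 1 ^ 2 + (x : E3) 2 ^ 2 = 1 := by
  have h : ‖(x : E3)‖ = 1 := by simpa using x.2
  have h2 := EuclideanSpace.norm_sq_eq (x : E3)
  rw [h, Fin.sum_univ_three] at h2
  simp only [Real.norm_eq_abs, sq_abs] at h2
  linarith

lemma inner_coords (x : E3) (a b c : ℝ) : inner ℝ x (vec3 a b c) = x 0 * a + x 1 * b + x 2 * c := by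
  rw [PiLp.inner_apply, Fin.sum_univ_three]
  simp only [vec3_zero, vec3_one, vec3_two, RCLike.inner_apply, conj_trivial]
  ring

/-- the identity for the common points of two circles -/
lemma common_sq {x y z a b d q n : ℝ} (hx : x ^ 2 + y ^ 2 + z ^ 2 = 1) (h1 : x * a + z * b = q)
    (h2 : z * d = n) (ha : a ^ 2 + b ^ 2 = 1 + q ^ 2) (hd : d ^ 2 = 1 + n ^ 2) :
    (a * d * y) ^ 2 = 1 - (b * d - q * n) ^ 2 := by
  have e1 : a ^ 2 = 1 + q ^ 2 - b ^ 2 := by linarith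
  have e2 : x * a = q - z * b := by linarith
  have e3 : (x * a) ^ 2 = (q - z * b) ^ 2 := by rw [e2]
  have e4 : y ^ 2 = 1 - x ^ 2 - z ^ 2 := by linarith
  have e5 : (a * d * y) ^ 2 = d ^ 2 * a ^ 2 - d ^ 2 * (x * a) ^ 2 - a ^ 2 * (z * d) ^ 2 := by
    rw [show (a * d * y) ^ 2 = a ^ 2 * d ^ 2 * y ^ 2 by ring, e4]; ring
  rw [e5, e3, h2, e1]
  have e6 : d ^ 2 * (q - z * b) ^ 2 = (q * d - n * b) ^ 2 := by rw [← h2]; ring
  rw [e6]
  linear_combination hd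

/-- In the second packing the circles of corresponding pairs are disjoint. -/
lemma disjoint_aux (hneg : N.m * N.s1 < 0) {x : Metric.sphere (0 : E3) 1} {a b d : ℝ}
    (ha : a ^ 2 = N.P1 ^ 2) (hb : b ^ 2 = N.s1 ^ 2) (hd : d ^ 2 = N.m ^ 2)
    (hbd : b * d = N.m * N.s1) (h1 : (x : E3) 0 * a + (x : E3) 2 * b = N.q1)
    (h2 : (x : E3) 2 * d = N.n0) : False := by
  have h := common_sq (sphere_coords x) h1 h2 (by rw [ha, hb]; exact N.nC1)
    (by rw [hd]; exact N.na)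
  rw [hbd] at h
  have ht := N.tC0
  have h3 : N.q1 * N.n0 = 1 - N.m * N.s1 := by linarith
  rw [h3] at h
  have h4 : 0 ≤ 1 - (N.m * N.s1 - (1 - N.m * N.s1)) ^ 2 := by
    rw [← h]; positivity
  nlinarith

lemma dvec_num0 : N.data.dvec (num 0) = vec3 0 (1 * 0) (-N.m) := rfl
lemma dvec_num1 : N.data.dvec (num 1) = vec3 0 (1 * 0) N.m := rfl
lemma dvec_num2 : N.data.dvec (num 2) = vec3 N.P1 (1 * 0) N.s1 := rfl
lemma dvec_num4 : N.data.dvec (num 4) = vec3 N.P1 (1 * 0) (-N.s1) := rfl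
lemma dvec_num5 : N.data.dvec (num 5) = vec3 (-N.P1) (1 * 0) N.s1 := rfl
lemma dvec_num7 : N.data.dvec (num 7) = vec3 (-N.P1) (1 * 0) (-N.s1) := rfl

lemma no_common (hneg : N.m * N.s1 < 0) {i j : Fin 20}
    (hij : (i = 2 ∧ j = 1) ∨ (i = 5 ∧ j = 1) ∨ (i = 4 ∧ j = 0) ∨ (i = 7 ∧ j = 0))
    (x : Metric.sphere (0 : E3) 1) (h1 : x ∈ N.pack.circle (num i))
    (h2 : x ∈ N.pack.circle (num j)) : False := by
  rw [mem_circle_iff] at h1 h2
  rcases hij with ⟨rfl, rfl⟩ | ⟨rfl, rfl⟩ | ⟨rfl, rfl⟩ | ⟨rfl, rfl⟩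
  · rw [dvec_num2, inner_coords] at h1
    rw [dvec_num1, inner_coords] at h2
    have h1' : (x : E3) 0 * N.P1 + (x : E3) 1 * (1 * 0) + (x : E3) 2 * N.s1 = N.q1 := h1
    have h2' : (x : E3) 0 * 0 + (x : E3) 1 * (1 * 0) + (x : E3) 2 * N.m = N.n0 := h2
    exact N.disjoint_aux hneg (a := N.P1) (b := N.s1) (d := N.m) rfl rfl rfl (mul_comm _ _)
      (by linarith) (by linarith)
  · rw [dvec_num5, inner_coords] at h1
    rw [dvec_num1, inner_coords] at h2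
    have h1' : (x : E3) 0 * (-N.P1) + (x : E3) 1 * (1 * 0) + (x : E3) 2 * N.s1 = N.q1 := h1
    have h2' : (x : E3) 0 * 0 + (x : E3) 1 * (1 * 0) + (x : E3) 2 * N.m = N.n0 := h2
    exact N.disjoint_aux hneg (a := -N.P1) (b := N.s1) (d := N.m) (by ring) rfl rfl
      (mul_comm _ _) (by linarith) (by linarith)
  · rw [dvec_num4, inner_coords] at h1
    rw [dvec_num0, inner_coords] at h2
    have h1' : (x : E3) 0 * N.P1 + (x : E3) 1 * (1 * 0) + (x : E3) 2 * (-N.s1) = N.q1 := h1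
    have h2' : (x : E3) 0 * 0 + (x : E3) 1 * (1 * 0) + (x : E3) 2 * (-N.m) = N.n0 := h2
    exact N.disjoint_aux hneg (a := N.P1) (b := -N.s1) (d := -N.m) rfl (by ring) (by ring)
      (by ring) (by linarith) (by linarith)
  · rw [dvec_num7, inner_coords] at h1
    rw [dvec_num0, inner_coords] at h2
    have h1' : (x : E3) 0 * (-N.P1) + (x : E3) 1 * (1 * 0) + (x : E3) 2 * (-N.s1) = N.q1 := h1
    have h2' : (x : E3) 0 * 0 + (x : E3) 1 * (1 * 0) + (x : E3) 2 * (-N.m) = N.n0 := h2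
    exact N.disjoint_aux hneg (a := -N.P1) (b := -N.s1) (d := -N.m) (by ring) (by ring) (by ring)
      (by ring) (by linarith) (by linarith)

/-- In the first packing the circles of `2` and `1` meet. -/
lemma exists_common (h0 : 0 < N.m * N.s1) (h1 : N.m * N.s1 < 1) :
    ∃ x : Metric.sphere (0 : E3) 1, x ∈ N.pack.circle (num 2) ∧ x ∈ N.pack.circle (num 1) := by
  have hm := N.m_pos
  have hP := N.P1_pos
  have ht := N.tC0
  have hq : N.q1 * N.n0 = 1 - N.m * N.s1 := by linarith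
  have hnn : 0 ≤ 1 - (2 * (N.m * N.s1) - 1) ^ 2 := by nlinarith
  set r := √(1 - (2 * (N.m * N.s1) - 1) ^ 2) with hr
  have hr2 : r ^ 2 = 1 - (2 * (N.m * N.s1) - 1) ^ 2 := Real.sq_sqrt hnn
  set x := (N.q1 - N.s1 * N.n0 / N.m) / N.P1 with hx
  set y := r / (N.P1 * N.m) with hy
  set z := N.n0 / N.m with hz
  have e1 : x * N.P1 = N.q1 - N.s1 * N.n0 / N.m := by rw [hx]; field_simp
  have e2 : y * (N.P1 * N.m) = r := by rw [hy]; field_simp
  have e3 : z * N.m = N.n0 := by rw [hz]; field_simp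
  have e1' : x * N.P1 = N.q1 - N.s1 * z := by rw [e1, hz]; ring
  have hnorm : x ^ 2 + y ^ 2 + z ^ 2 = 1 := by
    have h2 : (x ^ 2 + y ^ 2 + z ^ 2 - 1) * (N.P1 ^ 2 * N.m ^ 2) = 0 := by
      have a1 : x ^ 2 * (N.P1 ^ 2 * N.m ^ 2) = (N.q1 * N.m - N.s1 * N.n0) ^ 2 := by
        rw [show x ^ 2 * (N.P1 ^ 2 * N.m ^ 2) = ((x * N.P1) * N.m) ^ 2 by ring, e1', ← e3]; ring
      have a2 : y ^ 2 * (N.P1 ^ 2 * N.m ^ 2) = r ^ 2 := by rw [← e2]; ring
      have a3 : z ^ 2 * (N.P1 ^ 2 * N.m ^ 2) = N.P1 ^ 2 * N.n0 ^ 2 := by rw [← e3]; ring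
      rw [sub_mul, add_mul, add_mul, a1, a2, a3, hr2]
      have b1 := N.na
      have b2 := N.nC1
      have b3 : N.P1 ^ 2 = 1 + N.q1 ^ 2 - N.s1 ^ 2 := by linarith
      rw [b3]
      have b4 : 2 * (N.m * N.s1) - 1 = N.m * N.s1 - N.q1 * N.n0 := by linarith
      rw [b4]
      linear_combination (-1 : ℝ) * b1
    have h3 : N.P1 ^ 2 * N.m ^ 2 ≠ 0 := by positivity
    have h4 := (mul_eq_zero.1 h2).resolve_right h3
    linarith
  have hmem : vec3 x y z ∈ Metric.sphere (0 : E3) 1 := by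
    rw [mem_sphere_zero_iff_norm]
    have h2 : ‖vec3 x y z‖ ^ 2 = 1 ^ 2 := by rw [norm_sq_vec3, hnorm]; norm_num
    exact (pow_left_inj₀ (norm_nonneg _) zero_le_one two_ne_zero).1 h2
  refine ⟨⟨vec3 x y z, hmem⟩, ?_, ?_⟩
  · rw [mem_circle_iff, dvec_num2, inner_vec3]
    show x * N.P1 + y * (1 * 0) + z * N.s1 = N.q1
    linarith
  · rw [mem_circle_iff, dvec_num1, inner_vec3]
    show x * 0 + y * (1 * 0) + z * N.m = N.n0
    linarith

end Nums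

/-- No map of the sphere to itself maps the first packing to the second. -/
lemma not_equivalent (N N' : Nums) (h0 : 0 < N.m * N.s1) (h1 : N.m * N.s1 < 1)
    (hneg : N'.m * N'.s1 < 0) (σ : Equiv.Perm (DoubleVertex K))
    (hσ : ∀ u v, Adj (double K) (σ u) (σ v) ↔ Adj (double K) u v)
    (φ : Metric.sphere (0 : E3) 1 → Metric.sphere (0 : E3) 1) :
    ¬ ∀ v, φ '' N.pack.circle v = N'.pack.circle (σ v) := by
  intro h
  obtain ⟨x, hx1, hx2⟩ := N.exists_common h0 h1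
  have hτ : ∀ i j : Fin 20, A2 ((numEquiv.permCongr.symm σ) i) ((numEquiv.permCongr.symm σ) j) ↔
      A2 i j := by
    intro i j
    have e : ∀ i, num ((numEquiv.permCongr.symm σ) i) = σ (num i) := by
      intro i
      exact num_unnum _
    have := hσ (num i) (num j)
    rw [← e, ← e, adj_double_iff, adj_double_iff] at this
    exact this
  have e : ∀ i, num ((numEquiv.permCongr.symm σ) i) = σ (num i) := by
    intro i
    exact num_unnum _
  have h2 : φ x ∈ N'.pack.circle (num ((numEquiv.permCongr.symm σ) 2)) := by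
    rw [e, ← h]; exact ⟨x, hx1, rfl⟩
  have h3 : φ x ∈ N'.pack.circle (num ((numEquiv.permCongr.symm σ) 1)) := by
    rw [e, ← h]; exact ⟨x, hx2, rfl⟩
  exact N'.no_common hneg (perm_cases _ hτ) (φ x) h2 h3

end Pool.Agent.BranchedPacking.Ex
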