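import Pool.Agent.Lib_MP_ff3433_gt.Turning

/-!
# From Minkowski vectors to spherical packings of the double

A spherical disc with centre `p / |p|` and radius `arccot q` is encoded by the vector `(p; q)` with
`|p|² = 1 + q²`.
-/

namespace Pool.Agent.BranchedPacking

open Real InnerProductGeometry

/-- A vector with given coordinates. -/
noncomputable def vec3 (x y z : ℝ) : E3 := !₂[x, y, z]

@[simp] lemma vec3_zero (x y z : ℝ) : vec3 x y z 0 = x := rfl
@[simp] lemma vec3_one (x y z : ℝ) : vec3 x y z 1 = y := rfl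
@[simp] lemma vec3_two (x y z : ℝ) : vec3 x y z 2 = z := rfl

lemma inner_vec3 (x y z x' y' z' : ℝ) :
    inner ℝ (vec3 x y z) (vec3 x' y' z') = x * x' + y * y' + z * z' := by
  rw [PiLp.inner_apply, Fin.sum_univ_three]
  simp only [vec3_zero, vec3_one, vec3_two, RCLike.inner_apply, conj_trivial]
  ring

lemma norm_sq_vec3 (x y z : ℝ) : ‖vec3 x y z‖ ^ 2 = x ^ 2 + y ^ 2 + z ^ 2 := by
  rw [← real_inner_self_eq_norm_sq, inner_vec3]; ring

lemma smul_vec3 (c x y z : ℝ) : c • vec3 x y z = vec3 (c * x) (c * y) (c * z) := by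
  ext i; fin_cases i <;> simp [vec3]

lemma add_vec3 (x y z x' y' z' : ℝ) :
    vec3 x y z + vec3 x' y' z' = vec3 (x + x') (y + y') (z + z') := by
  ext i; fin_cases i <;> simp [vec3]

lemma sub_vec3 (x y z x' y' z' : ℝ) :
    vec3 x y z - vec3 x' y' z' = vec3 (x - x') (y - y') (z - z') := by
  ext i; fin_cases i <;> simp [vec3]

lemma neg_vec3 (x y z : ℝ) : -vec3 x y z = vec3 (-x) (-y) (-z) := by
  ext i; fin_cases i <;> simp [vec3]

/-- The (rescaled) direction at `a` pointing to `b`. -/
noncomputable def Tvec (a b : E3) : E3 := ‖a‖ ^ 2 • b - (inner ℝ a b) • a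

lemma sphericalAngle_normalized {a b c : E3} (ha : a ≠ 0) (hb : b ≠ 0) (hc : c ≠ 0) :
    sphericalAngle (‖a‖⁻¹ • a) (‖b‖⁻¹ • b) (‖c‖⁻¹ • c) = angle (Tvec a b) (Tvec a c) := by
  have key : ∀ b : E3, b ≠ 0 → ‖b‖⁻¹ • b - (inner ℝ (‖a‖⁻¹ • a) (‖b‖⁻¹ • b)) • (‖a‖⁻¹ • a) =
      (‖b‖⁻¹ * (‖a‖⁻¹) ^ 2) • Tvec a b := by
    intro b hb
    have ha' : ‖a‖ ≠ 0 := norm_ne_zero_iff.2 ha
    rw [Tvec, smul_sub, inner_smul_left, inner_smul_right, smul_smul, smul_smul, smul_smul]
    congr 1
    · congr 1
      field_simp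
    · congr 1
      simp only [conj_trivial]
      ring
  have hpos : ∀ b : E3, b ≠ 0 → 0 < ‖b‖⁻¹ * (‖a‖⁻¹) ^ 2 := by
    intro b hb
    have h1 : 0 < ‖a‖ := norm_pos_iff.2 ha
    have h2 : 0 < ‖b‖ := norm_pos_iff.2 hb
    positivity
  rw [sphericalAngle, key b hb, key c hc, angle_smul_left_of_pos _ _ (hpos b hb),
    angle_smul_right_of_pos _ _ (hpos c hc)]

/-- Reflection in the plane `y = 0`. -/
noncomputable def mirror : E3 →ₗᵢ[ℝ] E3 where
  toFun v := vec3 (v 0) (-(v 1)) (v 2)
  map_add' u v := by rw [add_vec3]; simp [add_comm]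
  map_smul' c v := by rw [RingHom.id_apply, smul_vec3]; simp
  norm_map' v := by
    have h : ‖vec3 (v 0) (-(v 1)) (v 2)‖ ^ 2 = ‖v‖ ^ 2 := by
      rw [norm_sq_vec3, EuclideanSpace.norm_sq_eq, Fin.sum_univ_three]
      simp
    exact (pow_left_inj₀ (norm_nonneg _) (norm_nonneg _) two_ne_zero).1 h

lemma mirror_vec3 (x y z : ℝ) : mirror (vec3 x y z) = vec3 x (-y) z := rfl

lemma mirror_Tvec (a b : E3) : mirror (Tvec a b) = Tvec (mirror a) (mirror b) := by
  rw [Tvec, Tvec, map_sub, map_smul, map_smul, mirror.norm_map, mirror.inner_map_map]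

/-- Minkowski data on the complex `K`, symmetric with respect to the plane `y = 0` on the
boundary. -/
structure MData {V : Type} (face : V → V → V → Prop) where
  x : V → ℝ
  y : V → ℝ
  z : V → ℝ
  q : V → ℝ
  norm : ∀ v, x v ^ 2 + y v ^ 2 + z v ^ 2 = 1 + q v ^ 2
  tan : ∀ u v w, face u v w →
    x u * x v + y u * y v + z u * z v - q u * q v = -1 ∧ 0 < q u + q v
  det : ∀ u v w, face u v w →
    0 < x u * (y v * z w - z v * y w) - y u * (x v * z w - z v * x w) +
      z u * (x v * y w - y v * x w)
  bdry : ∀ v, IsBoundary face v → y v = 0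

namespace MData

variable {V : Type} {face : V → V → V → Prop} (M : MData face)

/-- the vector of a vertex -/
noncomputable def vec (v : V) : E3 := vec3 (M.x v) (M.y v) (M.z v)

/-- sign of the copy -/
def sgn {face : V → V → V → Prop} : DoubleVertex face → ℝ
  | Sum.inl _ => 1
  | Sum.inr _ => -1

/-- the vector of a vertex of the double -/
noncomputable def dvec (t : DoubleVertex face) : E3 :=
  vec3 (M.x (under t)) (sgn t * M.y (under t)) (M.z (under t))

lemma dvec_top {t : DoubleVertex face} (h : InTop t) : M.dvec t = M.vec (under t) := by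
  rcases t with v | v
  · simp [dvec, vec, sgn, under]
  · exact absurd h id

lemma dvec_bot {t : DoubleVertex face} (h : InBot t) : M.dvec t = mirror (M.vec (under t)) := by
  rcases t with v | v
  · have : M.y v = 0 := M.bdry v h
    rw [vec, mirror_vec3]
    simp [dvec, sgn, under, this]
  · rw [vec, mirror_vec3]
    simp [dvec, sgn, under]

lemma dvec_norm_sq (t : DoubleVertex face) : ‖M.dvec t‖ ^ 2 = 1 + M.q (under t) ^ 2 := by
  rw [dvec, norm_sq_vec3, ← M.norm]
  rcases t with v | v
  · simp [sgn]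
  · simp [sgn]

lemma norm_pos_of_sq {a : E3} {q : ℝ} (h : ‖a‖ ^ 2 = 1 + q ^ 2) : 0 < ‖a‖ := by
  by_contra hcon
  have h0 : ‖a‖ = 0 := le_antisymm (not_lt.1 hcon) (norm_nonneg a)
  rw [h0] at h
  nlinarith [sq_nonneg q]

lemma dvec_ne (t : DoubleVertex face) : M.dvec t ≠ 0 :=
  norm_pos_iff.1 (norm_pos_of_sq (M.dvec_norm_sq t))

lemma dvec_norm (t : DoubleVertex face) : ‖M.dvec t‖ = √(1 + M.q (under t) ^ 2) := by
  rw [← M.dvec_norm_sq, Real.sqrt_sq (norm_nonneg _)]

/-- coordinates of tangency in the double -/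
lemma tan_double (hK : IsSurface face) {s t u : DoubleVertex face} (h : double face s t u) :
    inner ℝ (M.dvec s) (M.dvec t) = M.q (under s) * M.q (under t) - 1 ∧
      0 < M.q (under s) + M.q (under t) := by
  rcases h with ⟨hs, ht, _, h⟩ | ⟨hs, ht, _, h⟩
  · rw [M.dvec_top hs, M.dvec_top ht, vec, vec, inner_vec3]
    have := M.tan _ _ _ h
    exact ⟨by linarith [this.1], this.2⟩
  · rw [M.dvec_bot hs, M.dvec_bot ht, mirror.inner_map_map, vec, vec, inner_vec3]
    have := M.tan _ _ _ (hK.rot _ _ _ (hK.rot _ _ _ h))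
    exact ⟨by linarith [this.1], by linarith [this.2]⟩

/-- the centre of the spherical disc -/
noncomputable def ctr (t : DoubleVertex face) : E3 := ‖M.dvec t‖⁻¹ • M.dvec t

/-- the radius of the spherical disc -/
noncomputable def rad (t : DoubleVertex face) : ℝ := π / 2 - arctan (M.q (under t))

lemma cos_rad (t : DoubleVertex face) : cos (M.rad t) = M.q (under t) / ‖M.dvec t‖ := by
  rw [rad, cos_pi_div_two_sub, sin_arctan, dvec_norm]

lemma sin_rad (t : DoubleVertex face) : sin (M.rad t) = 1 / ‖M.dvec t‖ := by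
  rw [rad, sin_pi_div_two_sub, cos_arctan, dvec_norm]

lemma det_formula (a b c : E3) : Matrix.det !![a 0, a 1, a 2; b 0, b 1, b 2; c 0, c 1, c 2] =
    a 0 * (b 1 * c 2 - b 2 * c 1) - a 1 * (b 0 * c 2 - b 2 * c 0) +
      a 2 * (b 0 * c 1 - b 1 * c 0) := by
  rw [Matrix.det_fin_three]
  simp
  ring

lemma det_double {s t u : DoubleVertex face} (h : double face s t u) :
    0 < (M.dvec s) 0 * ((M.dvec t) 1 * (M.dvec u) 2 - (M.dvec t) 2 * (M.dvec u) 1) -
      (M.dvec s) 1 * ((M.dvec t) 0 * (M.dvec u) 2 - (M.dvec t) 2 * (M.dvec u) 0) +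
      (M.dvec s) 2 * ((M.dvec t) 0 * (M.dvec u) 1 - (M.dvec t) 1 * (M.dvec u) 0) := by
  rcases h with ⟨hs, ht, hu, h⟩ | ⟨hs, ht, hu, h⟩
  · rw [M.dvec_top hs, M.dvec_top ht, M.dvec_top hu]
    have := M.det _ _ _ h
    simpa only [vec, vec3_zero, vec3_one, vec3_two] using this
  · rw [M.dvec_bot hs, M.dvec_bot ht, M.dvec_bot hu]
    have := M.det _ _ _ h
    simp only [vec, mirror_vec3, vec3_zero, vec3_one, vec3_two]
    linarith

/-- The packing of the double given by the Minkowski data. -/
noncomputable def packing (hK : IsSurface face) : SpherePacking (double face) where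
  ctr := M.ctr
  rad := M.rad
  norm_ctr t := by
    rw [ctr, norm_smul, norm_inv, norm_norm, inv_mul_cancel₀ (norm_ne_zero_iff.2 (M.dvec_ne t))]
  rad_pos t := by
    have := arctan_lt_pi_div_two (M.q (under t))
    rw [rad]; linarith
  rad_lt t := by
    have := neg_pi_div_two_lt_arctan (M.q (under t))
    rw [rad]; linarith
  tangent s t u h := by
    obtain ⟨h1, h2⟩ := M.tan_double hK h
    constructor
    · have : arctan (-(M.q (under t))) < arctan (M.q (under s)) :=
        Real.arctan_strictMono (by linarith)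
      rw [arctan_neg] at this
      rw [rad, rad]; linarith
    · rw [cos_add, cos_rad, cos_rad, sin_rad, sin_rad, ctr, ctr, inner_smul_left,
        inner_smul_right, h1]
      simp only [conj_trivial]
      have e1 : ‖M.dvec s‖ ≠ 0 := norm_ne_zero_iff.2 (M.dvec_ne s)
      have e2 : ‖M.dvec t‖ ≠ 0 := norm_ne_zero_iff.2 (M.dvec_ne t)
      field_simp
  oriented s t u h := by
    have h1 := M.det_double h
    rw [det_formula]
    have e1 : 0 < ‖M.dvec s‖⁻¹ := inv_pos.2 (norm_pos_iff.2 (M.dvec_ne s))
    have e2 : 0 < ‖M.dvec t‖⁻¹ := inv_pos.2 (norm_pos_iff.2 (M.dvec_ne t))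
    have e3 : 0 < ‖M.dvec u‖⁻¹ := inv_pos.2 (norm_pos_iff.2 (M.dvec_ne u))
    have h2 := mul_pos (mul_pos (mul_pos e1 e2) e3) h1
    simp only [ctr, PiLp.smul_apply, smul_eq_mul]
    refine lt_of_lt_of_eq h2 ?_
    ring

/-- the angle at `v` between `u` and `w` in `K` -/
noncomputable def ang (v u w : V) : ℝ :=
  angle (Tvec (M.vec v) (M.vec u)) (Tvec (M.vec v) (M.vec w))

lemma ang_comm (v u w : V) : M.ang v u w = M.ang v w u := angle_comm _ _

lemma sphericalAngle_top {t s u : DoubleVertex face} (ht : InTop t) (hs : InTop s)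
    (hu : InTop u) : sphericalAngle (M.ctr t) (M.ctr s) (M.ctr u) =
      M.ang (under t) (under s) (under u) := by
  rw [ctr, ctr, ctr, sphericalAngle_normalized (M.dvec_ne t) (M.dvec_ne s) (M.dvec_ne u),
    M.dvec_top ht, M.dvec_top hs, M.dvec_top hu, ang]

lemma sphericalAngle_bot {t s u : DoubleVertex face} (ht : InBot t) (hs : InBot s)
    (hu : InBot u) : sphericalAngle (M.ctr t) (M.ctr s) (M.ctr u) =
      M.ang (under t) (under u) (under s) := by
  rw [ctr, ctr, ctr, sphericalAngle_normalized (M.dvec_ne t) (M.dvec_ne s) (M.dvec_ne u),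
    M.dvec_bot ht, M.dvec_bot hs, M.dvec_bot hu, ← mirror_Tvec, ← mirror_Tvec,
    LinearIsometry.angle_map, angle_comm, ang]

open Classical in
/-- the angle sum at `v` in `K` -/
noncomputable def sum [Fintype V] (v : V) : ℝ :=
  ∑ p : V × V, if face v p.1 p.2 then M.ang v p.1 p.2 else 0

open Classical in
/-- the vertex of `K*` corresponding to a vertex of `K` -/
noncomputable def bot (face : V → V → V → Prop) (v : V) : DoubleVertex face :=
  if h : IsBoundary face v then Sum.inl v else Sum.inr ⟨v, h⟩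

lemma inBot_bot (v : V) : InBot (bot face v) := by
  unfold bot
  split_ifs with h
  · exact h
  · trivial

lemma under_bot (v : V) : under (bot face v) = v := by
  unfold bot
  split_ifs with h <;> rfl

lemma bot_under {t : DoubleVertex face} (ht : InBot t) : bot face (under t) = t := by
  rcases t with v | ⟨v, hv⟩
  · exact dif_pos ht
  · exact dif_neg hv

open Classical in
lemma angleSum_eq [Fintype V] [Fintype (DoubleVertex face)] (hK : IsSurface face)
    (t : DoubleVertex face) :
    (M.packing hK).angleSum t = (if InTop t then M.sum (under t) else 0) +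
      (if InBot t then M.sum (under t) else 0) := by
  have hdisj : ∀ x y : DoubleVertex face,
      (if double face t x y then sphericalAngle (M.ctr t) (M.ctr x) (M.ctr y) else 0) =
      (if (InTop t ∧ InTop x ∧ InTop y ∧ face (under t) (under x) (under y)) then
        M.ang (under t) (under x) (under y) else 0) +
      (if (InBot t ∧ InBot x ∧ InBot y ∧ face (under t) (under y) (under x)) then
        M.ang (under t) (under y) (under x) else 0) := by
    intro x y
    by_cases h1 : (InTop t ∧ InTop x ∧ InTop y ∧ face (under t) (under x) (under y))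
    · have h2 : ¬ (InBot t ∧ InBot x ∧ InBot y ∧ face (under t) (under y) (under x)) := by
        rintro ⟨-, -, -, h2⟩
        have h3 := hK.rot _ _ _ (hK.rot _ _ _ h1.2.2.2)
        have h4 := hK.rot _ _ _ h2
        have h5 := hK.rot _ _ _ h1.2.2.2
        exact hK.simplicial _ _ _ h5 h4
      have h3 : double face t x y := Or.inl h1
      rw [if_pos h3, if_pos h1, if_neg h2, add_zero]
      exact M.sphericalAngle_top h1.1 h1.2.1 h1.2.2.1
    · by_cases h2 : (InBot t ∧ InBot x ∧ InBot y ∧ face (under t) (under y) (under x))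
      · have h3 : double face t x y := Or.inr h2
        rw [if_pos h3, if_neg h1, if_pos h2, zero_add]
        exact M.sphericalAngle_bot h2.1 h2.2.1 h2.2.2.1
      · have h3 : ¬ double face t x y := by
          rintro (h | h)
          · exact h1 h
          · exact h2 h
        rw [if_neg h3, if_neg h1, if_neg h2, add_zero]
  unfold SpherePacking.angleSum
  rw [Finset.sum_congr rfl (fun p _ => hdisj p.1 p.2), Finset.sum_add_distrib]
  congr 1
  · by_cases ht : InTop t
    · rw [if_pos ht, sum, ← Finset.sum_filter, ← Finset.sum_filter]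
      refine Finset.sum_nbij' (fun p => (under p.1, under p.2))
        (fun p => (Sum.inl p.1, Sum.inl p.2)) ?_ ?_ ?_ ?_ ?_
      · rintro p hp
        rw [Finset.mem_filter] at hp ⊢
        exact ⟨Finset.mem_univ _, hp.2.2.2.2⟩
      · rintro p hp
        rw [Finset.mem_filter] at hp ⊢
        exact ⟨Finset.mem_univ _, ht, trivial, trivial, hp.2⟩
      · rintro ⟨x, y⟩ hp
        rw [Finset.mem_filter] at hp
        obtain ⟨-, -, hx, hy, -⟩ := hp
        rcases x with x | x
        · rcases y with y | y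
          · rfl
          · exact absurd hy id
        · exact absurd hx id
      · rintro p hp
        rfl
      · rintro p hp
        rfl
    · rw [if_neg ht]
      apply Finset.sum_eq_zero
      intro p _
      rw [if_neg (fun h => ht h.1)]
  · by_cases ht : InBot t
    · rw [if_pos ht, sum, ← Finset.sum_filter, ← Finset.sum_filter]
      refine Finset.sum_nbij' (fun p => (under p.2, under p.1))
        (fun p => (bot face p.2, bot face p.1)) ?_ ?_ ?_ ?_ ?_
      · rintro p hp
        rw [Finset.mem_filter] at hp ⊢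
        exact ⟨Finset.mem_univ _, hp.2.2.2.2⟩
      · rintro p hp
        rw [Finset.mem_filter] at hp ⊢
        refine ⟨Finset.mem_univ _, ht, inBot_bot _, inBot_bot _, ?_⟩
        rw [under_bot, under_bot]
        exact hp.2
      · rintro ⟨x, y⟩ hp
        rw [Finset.mem_filter] at hp
        obtain ⟨-, -, hx, hy, -⟩ := hp
        simp only [bot_under hx, bot_under hy]
      · rintro ⟨x, y⟩ hp
        simp only [under_bot]
      · rintro p hp
        rfl
    · rw [if_neg ht]
      apply Finset.sum_eq_zero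
      intro p _
      rw [if_neg (fun h => ht h.1)]

end MData

end Pool.Agent.BranchedPacking
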