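import Pool.Agent.Lib_MP_ff3433_gt.Defs

/-!
# Symmetric packings of the double
-/

namespace Pool.Agent.BranchedPacking

/-- The packing of the double is symmetric under the reflection of the sphere in the plane `y = 0`:
the circles of boundary vertices are mapped to themselves, and the circle of an interior vertex `v`
is mapped to the circle of `v*`. -/
def SpherePacking.IsSymmetric {V : Type} {face : V → V → V → Prop}
    (P : SpherePacking (double face)) : Prop :=
  (∀ v, IsBoundary face v → P.ctr (Sum.inl v) 1 = 0) ∧
  ∀ v : {v : V // ¬ IsBoundary face v},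
    P.rad (Sum.inr v) = P.rad (Sum.inl v.1) ∧
    P.ctr (Sum.inr v) 0 = P.ctr (Sum.inl v.1) 0 ∧
    P.ctr (Sum.inr v) 1 = -P.ctr (Sum.inl v.1) 1 ∧
    P.ctr (Sum.inr v) 2 = P.ctr (Sum.inl v.1) 2

end Pool.Agent.BranchedPacking
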