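import Pool.Agent.Lib_MP_ff3433_gt.Defs

/-!
# Angle lemmas
-/

namespace Pool.Agent.BranchedPacking

open Real InnerProductGeometry

/-! ### Turning around a point in the complex plane -/

/-- If `z, w` are positively oriented then the angle between them is `arg w - arg z`, up to a
correction by `2π` if the negative real axis is crossed between `z` and `w`. -/
lemma angle_eq_arg_sub {z w : ℂ} (h : 0 < ((starRingEnd ℂ) z * w).im) :
    angle z w = Complex.arg w - Complex.arg z +
      (if 0 ≤ z.im ∧ w.im < 0 then 2 * π else 0) := by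
  have hz : z ≠ 0 := by rintro rfl; simp at h
  have hw : w ≠ 0 := by rintro rfl; simp at h
  have h1 : angle z w = |Complex.arg (w / z)| := by
    rw [angle_comm, Complex.angle_eq_abs_arg hw hz]
  have him : 0 < (w / z).im := by
    have : w / z = ((starRingEnd ℂ) z * w) / (Complex.normSq z : ℂ) := by
      rw [Complex.normSq_eq_conj_mul_self]
      have hc : (starRingEnd ℂ) z ≠ 0 := by simpa using hz
      field_simp
    rw [this, Complex.div_ofReal_im]
    exact div_pos h (Complex.normSq_pos.2 hz)
  have hpos : 0 < Complex.arg (w / z) := by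
    rcases lt_trichotomy 0 (Complex.arg (w / z)) with h2 | h2 | h2
    · exact h2
    · exfalso
      have := Complex.arg_eq_zero_iff.1 h2.symm
      linarith [this.2]
    · exfalso
      have := Complex.arg_neg_iff.1 h2
      linarith
  have hlt : Complex.arg (w / z) < π := by
    refine lt_of_le_of_ne (Complex.arg_le_pi _) ?_
    intro h2
    have := Complex.arg_eq_pi_iff.1 h2
    linarith [this.2]
  rw [h1, abs_of_pos hpos]
  have hcong : ((Complex.arg (w / z) : ℝ) : Real.Angle) =
      ((Complex.arg w - Complex.arg z : ℝ) : Real.Angle) := by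
    rw [Complex.arg_div_coe_angle hw hz, Real.Angle.coe_sub]
  rw [Real.Angle.angle_eq_iff_two_pi_dvd_sub] at hcong
  obtain ⟨k, hk⟩ := hcong
  have pz := Complex.neg_pi_lt_arg z
  have pz' := Complex.arg_le_pi z
  have pw := Complex.neg_pi_lt_arg w
  have pw' := Complex.arg_le_pi w
  have hpi := Real.pi_pos
  split_ifs with hc
  · -- crossing
    have hz0 : 0 ≤ Complex.arg z := Complex.arg_nonneg_iff.2 hc.1
    have hw0 : Complex.arg w < 0 := Complex.arg_neg_iff.2 hc.2
    have hk1 : k = 1 := by
      have e1 : (0 : ℝ) < 2 * π * k := by linarith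
      have e2 : 2 * π * (k : ℝ) < 2 * π * 2 := by linarith
      have e3 : (0 : ℝ) < k := by
        by_contra hcon
        push Not at hcon
        nlinarith
      have e4 : (k : ℝ) < 2 := by
        by_contra hcon
        push Not at hcon
        nlinarith
      have e5 : 0 < k := by exact_mod_cast e3
      have e6 : k < 2 := by exact_mod_cast e4
      omega
    rw [hk1] at hk
    push_cast at hk
    linarith
  · have hD : -π ≤ Complex.arg w - Complex.arg z := by
      by_cases hz0 : 0 ≤ z.im
      · have hw0 : 0 ≤ w.im := by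
          by_contra hcon
          push Not at hcon
          exact hc ⟨hz0, hcon⟩
        have := Complex.arg_nonneg_iff.2 hw0
        linarith
      · push Not at hz0
        have := Complex.arg_neg_iff.2 hz0
        linarith
    have hk0 : k = 0 := by
      have e1 : 2 * π * (k : ℝ) < 2 * π * 1 := by linarith
      have e2 : 2 * π * (-1 : ℝ) < 2 * π * k := by linarith
      have e3 : (k : ℝ) < 1 := by
        by_contra hcon
        push Not at hcon
        nlinarith
      have e4 : (-1 : ℝ) < k := by
        by_contra hcon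
        push Not at hcon
        nlinarith
      have e5 : k < 1 := by exact_mod_cast e3
      have e6 : -1 < k := by exact_mod_cast e4
      omega
    rw [hk0] at hk
    push_cast at hk
    linarith

/-- Nine points going around the origin in positive direction, crossing the negative real axis
exactly twice, turn by `4π`. -/
lemma turning_nine (ζ : Fin 9 → ℂ) (h : ∀ i, 0 < ((starRingEnd ℂ) (ζ i) * ζ (i + 1)).im)
    (hc : (∑ i : Fin 9, (if 0 ≤ (ζ i).im ∧ (ζ (i + 1)).im < 0 then (1 : ℝ) else 0)) = 2) :
    ∑ i : Fin 9, angle (ζ i) (ζ (i + 1)) = 4 * π := by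
  have h1 : ∀ i : Fin 9, angle (ζ i) (ζ (i + 1)) = Complex.arg (ζ (i + 1)) - Complex.arg (ζ i) +
      2 * π * (if 0 ≤ (ζ i).im ∧ (ζ (i + 1)).im < 0 then (1 : ℝ) else 0) := by
    intro i
    rw [angle_eq_arg_sub (h i)]
    split_ifs <;> ring
  rw [Finset.sum_congr rfl (fun i _ => h1 i), Finset.sum_add_distrib, ← Finset.mul_sum, hc,
    Finset.sum_sub_distrib]
  have h2 : ∑ i : Fin 9, Complex.arg (ζ (i + 1)) = ∑ i : Fin 9, Complex.arg (ζ i) :=
    Fintype.sum_equiv (Equiv.addRight 1) _ _ (fun i => rfl)
  rw [h2]; ring

/-! ### Opposite and orthogonal directions -/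

section Vec

variable {E : Type*} [NormedAddCommGroup E] [InnerProductSpace ℝ E]

lemma angle_opposite {d f : E} {s t : ℝ} (hs : 0 < s) (ht : 0 < t) :
    angle (s • d) f + angle f (-(t • d)) = π := by
  rw [angle_neg_right, angle_smul_left_of_pos _ _ hs, angle_smul_right_of_pos _ _ ht,
    angle_comm f d]
  ring

lemma angle_opposite' {d f : E} {s t : ℝ} (hs : 0 < s) (ht : 0 < t) :
    angle (-(s • d)) f + angle f (t • d) = π := by
  rw [angle_neg_left, angle_smul_left_of_pos _ _ hs, angle_smul_right_of_pos _ _ ht,
    angle_comm f d]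
  ring

/-- Orthogonal directions. -/
lemma angle_quarter {a b : E} (hab : inner ℝ a b = 0) (ha : a ≠ 0) (hb : b ≠ 0) :
    angle a (a + b) + angle (a + b) b = π / 2 := by
  rw [angle_add_eq_arctan_of_inner_eq_zero hab ha]
  have hba : inner ℝ b a = 0 := by rw [real_inner_comm]; exact hab
  rw [angle_comm (a + b) b, add_comm a b, angle_add_eq_arctan_of_inner_eq_zero hba hb]
  have h1 : (‖a‖ / ‖b‖) = (‖b‖ / ‖a‖)⁻¹ := by rw [inv_div]
  have h2 : 0 < ‖b‖ / ‖a‖ := div_pos (norm_pos_iff.2 hb) (norm_pos_iff.2 ha)
  rw [h1, Real.arctan_inv_of_pos h2]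
  ring

end Vec

end Pool.Agent.BranchedPacking
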